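import Pool.Agent.X88.PR.Fin

set_option autoImplicit false

/-!
Asymptotic form of the bounds for omega.
-/

open MeasureTheory ProbabilityTheory Filter Topology
open scoped ENNReal RealInnerProductSpace NNReal

namespace Pool.Agent.X88.PR

theorem sq_ev (x : ℝ) : ∀ᶠ M : ℕ in atTop, x ≤ Real.sqrt (M : ℝ) :=
  (Real.tendsto_sqrt_atTop.comp tendsto_natCast_atTop_atTop).eventually_ge_atTop x

theorem cube_ev : ∀ᶠ M : ℕ in atTop, 40 * (M : ℝ) ^ 3 ≤ Real.exp (Real.sqrt M) := by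
  have h0 : Tendsto (fun M : ℕ => Real.sqrt (M : ℝ)) atTop atTop :=
    Real.tendsto_sqrt_atTop.comp tendsto_natCast_atTop_atTop
  have h1 := (Real.tendsto_pow_mul_exp_neg_atTop_nhds_zero 6).comp h0
  have h2 := h1.eventually_le_const (show (0 : ℝ) < 1 / 40 by norm_num)
  filter_upwards [h2] with M hM
  simp only [Function.comp] at hM
  have h3 : Real.sqrt (M : ℝ) ^ 6 = (M : ℝ) ^ 3 := by
    rw [show 6 = 2 * 3 by norm_num, pow_mul, Real.sq_sqrt (Nat.cast_nonneg _)]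
  rw [h3, Real.exp_neg] at hM
  have h4 := Real.exp_pos (Real.sqrt M)
  rw [← div_eq_mul_inv, div_le_iff₀ h4] at hM
  linarith

theorem geo_ev (η : ℝ) (hη : 0 < η) : ∀ᶠ M : ℕ in atTop, 2 * (M : ℝ) * (3 / 5) ^ M ≤ η := by
  have h1 := tendsto_pow_const_mul_const_pow_of_abs_lt_one 1
    (show |(3 / 5 : ℝ)| < 1 by rw [abs_of_pos (by norm_num)]; norm_num)
  have h2 := h1.eventually_le_const (show (0 : ℝ) < η / 2 by positivity)
  filter_upwards [h2] with M hM
  rw [pow_one] at hM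
  nlinarith

/-- many sets of rows remain after removing few rows -/
theorem choose_ge (M κ : ℕ) (h1 : 1 ≤ κ) (h2 : κ < M) :
    (4 : ℝ) ^ M ≤ 4 ^ κ * (2 * M * ((2 * M - 1 - κ).choose (M - 1) : ℝ)) := by
  have h3 := Nat.four_pow_le_two_mul_self_mul_centralBinom (M - κ) (by omega)
  have h4 : Nat.centralBinom (M - κ) ≤ (2 * M - 1 - κ).choose (M - 1) := by
    rw [Nat.centralBinom_eq_two_mul_choose]
    have h5 : (2 * M - 1 - κ).choose (M - 1) = (2 * M - 1 - κ).choose (M - κ) := by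
      apply Nat.choose_symm_of_eq_add
      omega
    rw [h5]
    exact Nat.choose_le_choose _ (by omega)
  have h5 : 4 ^ M ≤ 4 ^ κ * (2 * M * (2 * M - 1 - κ).choose (M - 1)) := by
    calc 4 ^ M = 4 ^ κ * 4 ^ (M - κ) := by rw [← pow_add]; congr 1; omega
      _ ≤ 4 ^ κ * (2 * (M - κ) * (M - κ).centralBinom) := Nat.mul_le_mul_left _ h3
      _ ≤ _ := by
        apply Nat.mul_le_mul_left
        apply Nat.mul_le_mul _ h4
        omega
  exact_mod_cast h5

theorem up_core (η : ℝ) (hη : 0 < η) : ∃ L : ℝ, ∀ᶠ M : ℕ in atTop,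
    PP (Fin (2 * M - 1)) (EuclideanSpace ℝ (Fin M))
      {A | (1 / 4) ^ M * Real.exp (L * Real.sqrt M) < om A} ≤ ENNReal.ofReal η := by
  set Λ : ℝ := 64 / η with hΛ
  have hΛ0 : 0 < Λ := by positivity
  -- choice of the number of spare rows
  obtain ⟨a, ha0, ha⟩ : ∃ a : ℝ, 0 < a ∧ Real.exp (-(9 / 100 * a / (1 + 2 * Λ))) ≤ η / 4 := by
    refine ⟨max 1 ((1 + 2 * Λ) * (100 / 9) * (-Real.log (η / 4))), by positivity, ?_⟩
    set a := max 1 ((1 + 2 * Λ) * (100 / 9) * (-Real.log (η / 4))) with hadef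
    have h1 : (1 + 2 * Λ) * (100 / 9) * (-Real.log (η / 4)) ≤ a := le_max_right _ _
    have h2 : 0 < 1 + 2 * Λ := by positivity
    have h3 : -Real.log (η / 4) ≤ 9 / 100 * a / (1 + 2 * Λ) := by
      rw [le_div_iff₀ h2]
      nlinarith
    calc Real.exp (-(9 / 100 * a / (1 + 2 * Λ))) ≤ Real.exp (Real.log (η / 4)) :=
          Real.exp_le_exp.2 (by linarith)
      _ = η / 4 := Real.exp_log (by positivity)
  refine ⟨a * Real.log 4 + 1, ?_⟩
  set L := a * Real.log 4 + 1 with hL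
  have hlog : 0 < Real.log 4 := Real.log_pos (by norm_num)
  have hL0 : 0 < L := by positivity
  filter_upwards [sq_ev (a + 2), cube_ev, geo_ev (η / 4) (by positivity),
    sq_ev (L / Real.log 4), eventually_ge_atTop 1] with M h1 h2 h3 h4 h5
  have hM0 : (0 : ℝ) < M := by exact_mod_cast h5
  have hs : Real.sqrt M * Real.sqrt M = M := Real.mul_self_sqrt hM0.le
  have hs0 : 0 < Real.sqrt M := Real.sqrt_pos.2 hM0
  set κ := ⌈a * Real.sqrt M⌉₊ with hκ
  have hκ1 : a * Real.sqrt M ≤ κ := Nat.le_ceil _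
  have hκ2 : (κ : ℝ) < a * Real.sqrt M + 1 := Nat.ceil_lt_add_one (by positivity)
  have hκ3 : 1 ≤ κ := by
    rw [hκ, Nat.one_le_ceil_iff]
    positivity
  have hκ4 : κ < M := by
    have : (κ : ℝ) < M := by nlinarith
    exact_mod_cast this
  obtain ⟨K, -, hK⟩ : ∃ K ⊆ (Finset.univ : Finset (Fin (2 * M - 1))), K.card = κ := by
    apply Finset.exists_subset_card_eq
    rw [Finset.card_univ, Fintype.card_fin]
    omega
  have : Nonempty (Fin (2 * M - 1)) := ⟨⟨0, by omega⟩⟩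
  set ε : ℝ := (1 / 4) ^ M * Real.exp (L * Real.sqrt M) with hε
  have hε0 : 0 < ε := by positivity
  have h4M : (4 : ℝ) ^ M = Real.exp (M * Real.log 4) := by
    rw [mul_comm, Real.exp_mul, Real.exp_log (by norm_num), Real.rpow_natCast]
  have hε1 : ε ≤ 1 := by
    have h6 : L * Real.sqrt M ≤ M * Real.log 4 := by
      rw [div_le_iff₀ hlog] at h4
      nlinarith
    have h7 := Real.exp_le_exp.2 h6
    rw [← h4M] at h7
    rw [hε, one_div, inv_pow, inv_mul_le_iff₀ (by positivity), mul_one]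
    exact h7
  have hcard : (Finset.powersetCard (M - 1) Kᶜ).card = (2 * M - 1 - κ).choose (M - 1) := by
    rw [Finset.card_powersetCard, Finset.card_compl, Fintype.card_fin, hK]
  have h4κ : (4 : ℝ) ^ κ ≤ 4 * Real.exp (a * Real.log 4 * Real.sqrt M) := by
    have h6 : (4 : ℝ) ^ κ = Real.exp (κ * Real.log 4) := by
      rw [mul_comm, Real.exp_mul, Real.exp_log (by norm_num), Real.rpow_natCast]
    have h7 : 4 * Real.exp (a * Real.log 4 * Real.sqrt M) =
        Real.exp (Real.log 4 + a * Real.log 4 * Real.sqrt M) := by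
      rw [Real.exp_add, Real.exp_log (by norm_num)]
    rw [h6, h7]
    apply Real.exp_le_exp.2
    nlinarith
  have hbig : 5 * (M : ℝ) ^ 2 ≤ ε * ((Finset.powersetCard (M - 1) Kᶜ).card : ℝ) := by
    rw [hcard]
    set c : ℝ := (((2 * M - 1 - κ).choose (M - 1) : ℕ) : ℝ) with hc
    have h6 := choose_ge M κ hκ3 hκ4
    rw [← hc] at h6
    have hc0 : 0 ≤ c := Nat.cast_nonneg _
    have h7 : Real.exp (L * Real.sqrt M) =
        Real.exp (a * Real.log 4 * Real.sqrt M) * Real.exp (Real.sqrt M) := by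
      rw [← Real.exp_add]
      congr 1
      rw [hL]
      ring
    set X := Real.exp (a * Real.log 4 * Real.sqrt M) with hX
    have hX0 : 0 < X := Real.exp_pos _
    have h8 : (4 : ℝ) ^ M ≤ 4 * X * (2 * M * c) :=
      h6.trans (mul_le_mul_of_nonneg_right h4κ (by positivity))
    have h9 : (1 / 4 : ℝ) ^ M * 4 ^ M = 1 := by
      rw [← mul_pow]
      norm_num
    have h10 : 1 ≤ (1 / 4 : ℝ) ^ M * (4 * X * (2 * M * c)) := by
      calc (1 : ℝ) = (1 / 4 : ℝ) ^ M * 4 ^ M := h9.symm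
        _ ≤ _ := mul_le_mul_of_nonneg_left h8 (by positivity)
    have h11 : 1 ≤ 8 * M * ((1 / 4 : ℝ) ^ M * X * c) := by
      calc (1 : ℝ) ≤ _ := h10
        _ = _ := by ring
    rw [hε, h7]
    have h12 : 40 * (M : ℝ) ^ 3 * ((1 / 4 : ℝ) ^ M * X * c) ≤
        Real.exp (Real.sqrt M) * ((1 / 4 : ℝ) ^ M * X * c) :=
      mul_le_mul_of_nonneg_right h2 (by positivity)
    calc 5 * (M : ℝ) ^ 2 = 5 * (M : ℝ) ^ 2 * 1 := by ring
      _ ≤ 5 * (M : ℝ) ^ 2 * (8 * M * ((1 / 4 : ℝ) ^ M * X * c)) :=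
        mul_le_mul_of_nonneg_left h11 (by positivity)
      _ = 40 * (M : ℝ) ^ 3 * ((1 / 4 : ℝ) ^ M * X * c) := by ring
      _ ≤ _ := h12
      _ = _ := by ring
  have hb := up_bound (ι := Fin (2 * M - 1)) M h5 (by rw [Fintype.card_fin]; omega) K Λ ε hΛ0 hε0
    hε1 hbig
  refine hb.trans (ENNReal.ofReal_le_ofReal ?_)
  have h6 : 16 / Λ = η / 4 := by
    rw [hΛ]
    field_simp
    norm_num
  have h7 : (1 - 9 / 100 / (1 + 2 * Real.sqrt M * Λ)) ^ K.card ≤ η / 4 := by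
    rw [hK]
    have h8 : 0 < 1 + 2 * Real.sqrt M * Λ := by positivity
    have h9 : 9 / 100 / (1 + 2 * Real.sqrt M * Λ) ≤ 1 := by
      rw [div_le_one h8]
      have : 0 < 2 * Real.sqrt M * Λ := by positivity
      linarith
    have h10 : 1 - 9 / 100 / (1 + 2 * Real.sqrt M * Λ) ≤
        Real.exp (-(9 / 100 / (1 + 2 * Real.sqrt M * Λ))) := by
      have := Real.add_one_le_exp (-(9 / 100 / (1 + 2 * Real.sqrt M * Λ)))
      linarith
    have h11 : 9 / 100 * a / (1 + 2 * Λ) ≤ κ * (9 / 100 / (1 + 2 * Real.sqrt M * Λ)) := by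
      rw [div_le_iff₀ (by positivity)]
      have h12 : κ * (9 / 100 / (1 + 2 * Real.sqrt M * Λ)) * (1 + 2 * Λ) =
          9 / 100 * (κ * (1 + 2 * Λ)) / (1 + 2 * Real.sqrt M * Λ) := by ring
      rw [h12, le_div_iff₀ h8]
      have h13 : 1 ≤ Real.sqrt M := by linarith
      have h14 : 1 + 2 * Real.sqrt M * Λ ≤ Real.sqrt M * (1 + 2 * Λ) := by nlinarith
      have h15 : a * (1 + 2 * Real.sqrt M * Λ) ≤ a * (Real.sqrt M * (1 + 2 * Λ)) :=
        mul_le_mul_of_nonneg_left h14 ha0.le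
      have h16 : a * Real.sqrt M * (1 + 2 * Λ) ≤ κ * (1 + 2 * Λ) :=
        mul_le_mul_of_nonneg_right hκ1 (by positivity)
      nlinarith
    calc (1 - 9 / 100 / (1 + 2 * Real.sqrt M * Λ)) ^ κ
        ≤ (Real.exp (-(9 / 100 / (1 + 2 * Real.sqrt M * Λ)))) ^ κ :=
          pow_le_pow_left₀ (by linarith) h10 κ
      _ = Real.exp (-(κ * (9 / 100 / (1 + 2 * Real.sqrt M * Λ)))) := by
          rw [← Real.exp_nat_mul]
          congr 1
          ring
      _ ≤ Real.exp (-(9 / 100 * a / (1 + 2 * Λ))) := Real.exp_le_exp.2 (by linarith)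
      _ ≤ η / 4 := ha
  linarith

end Pool.Agent.X88.PR
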