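import Pool.Agent.X88.PR.Sec

set_option autoImplicit false
set_option linter.unusedSectionVars false

/-!
Many additional rows.
-/

open MeasureTheory ProbabilityTheory
open scoped ENNReal RealInnerProductSpace NNReal

namespace Pool.Agent.X88.PR

variable {ι : Type*} [Fintype ι] [DecidableEq ι]
variable {E : Type*} [NormedAddCommGroup E] [InnerProductSpace ℝ E] [FiniteDimensional ℝ E]
  [MeasurableSpace E] [BorelSpace E]

/-- the good configurations -/
def Good (F : Finset (Finset ι)) (R Λ : ℝ) (jj : Finset ι → Finset ι → ι × ι) (A : ι → E) : Prop :=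
  (∀ S ∈ F, ∀ s ∈ S, 0 < dq (S.erase s) A (A s)) ∧ (∀ S ∈ F, ∀ j ∈ S, ‖A j‖ ≤ R) ∧
    ∑ S ∈ F, ∑ T ∈ F, wt jj A S T ≤ ENNReal.ofReal (Λ * (F.card : ℝ) ^ 2)

theorem wt_meas (jj : Finset ι → Finset ι → ι × ι) (S T : Finset ι) :
    Measurable fun A : ι → E => wt jj A S T := by
  unfold wt
  split_ifs
  · exact (hw_meas.comp (dq_meas' S _)).mul (hw_meas.comp (dq_meas' S _))
  · exact measurable_const

theorem W_meas (F : Finset (Finset ι)) (jj : Finset ι → Finset ι → ι × ι) :
    Measurable fun A : ι → E => ∑ S ∈ F, ∑ T ∈ F, wt jj A S T :=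
  Finset.measurable_sum _ fun S _ => Finset.measurable_sum _ fun T _ => wt_meas jj S T

theorem good_meas (F : Finset (Finset ι)) (R Λ : ℝ) (jj : Finset ι → Finset ι → ι × ι) :
    MeasurableSet {A : ι → E | Good F R Λ jj A} := by
  have h1 : {A : ι → E | Good F R Λ jj A} =
      (⋂ S ∈ F, ⋂ s ∈ S, {A : ι → E | 0 < dq (S.erase s) A (A s)}) ∩
      ((⋂ S ∈ F, ⋂ j ∈ S, {A : ι → E | ‖A j‖ ≤ R}) ∩
      {A : ι → E | ∑ S ∈ F, ∑ T ∈ F, wt jj A S T ≤ ENNReal.ofReal (Λ * (F.card : ℝ) ^ 2)}) := by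
    ext A
    simp only [Good, Set.mem_ofPred_eq, Set.mem_inter_iff, Set.mem_iInter]
  rw [h1]
  refine MeasurableSet.inter ?_ (MeasurableSet.inter ?_ ?_)
  · exact Finset.measurableSet_biInter _ fun S _ => Finset.measurableSet_biInter _ fun s _ =>
      measurableSet_lt measurable_const (dq_meas' _ s)
  · exact Finset.measurableSet_biInter _ fun S _ => Finset.measurableSet_biInter _ fun s _ =>
      measurableSet_le (measurable_pi_apply s).norm measurable_const
  · exact measurableSet_le (W_meas F jj) measurable_const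

theorem good_update (F : Finset (Finset ι)) (R Λ : ℝ) (jj : Finset ι → Finset ι → ι × ι)
    (hjj : ∀ S T, 2 ≤ (T \ S).card → (jj S T).1 ∈ T \ S ∧ (jj S T).2 ∈ T \ S ∧
      (jj S T).1 ≠ (jj S T).2) (k : ι) (hk : ∀ S ∈ F, k ∉ S) (A : ι → E) (x : E) :
    Good F R Λ jj (Function.update A k x) ↔ Good F R Λ jj A := by
  have h1 : ∀ S ∈ F, ∀ s ∈ S, Function.update A k x s = A s := by
    intro S hS s hs
    rw [Function.update_of_ne]
    rintro rfl
    exact hk S hS hs
  have h2 : ∀ S ∈ F, ∀ s ∈ S, ∀ y, dq (S.erase s) (Function.update A k x) y =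
      dq (S.erase s) A y := fun S hS s _ y =>
    dq_update _ A k (fun h => hk S hS (Finset.mem_of_mem_erase h)) x y
  have h3 : ∀ S ∈ F, ∀ T ∈ F, wt jj (Function.update A k x) S T = wt jj A S T := by
    intro S hS T hT
    unfold wt
    by_cases hc : 2 ≤ (T \ S).card
    · rw [if_pos hc, if_pos hc]
      obtain ⟨h4, h5, -⟩ := hjj S T hc
      rw [dq_update S A k (hk S hS), dq_update S A k (hk S hS),
        h1 T hT _ (Finset.mem_sdiff.1 h4).1, h1 T hT _ (Finset.mem_sdiff.1 h5).1]
    · rw [if_neg hc, if_neg hc]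
  unfold Good
  refine and_congr ?_ (and_congr ?_ ?_)
  · refine forall₂_congr fun S hS => forall₂_congr fun s hs => ?_
    rw [h1 S hS s hs, h2 S hS s hs]
  · refine forall₂_congr fun S hS => forall₂_congr fun s hs => ?_
    rw [h1 S hS s hs]
  · rw [Finset.sum_congr rfl fun S hS => Finset.sum_congr rfl fun T hT => h3 S hS T hT]

theorem boost (F : Finset (Finset ι)) (R Λ D ε : ℝ) (jj : Finset ι → Finset ι → ι × ι)
    (hjj : ∀ S T, 2 ≤ (T \ S).card → (jj S T).1 ∈ T \ S ∧ (jj S T).2 ∈ T \ S ∧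
      (jj S T).1 ≠ (jj S T).2) (hcard : ∀ S ∈ F, S.card + 1 = Module.finrank ℝ E)
    (hR0 : 0 < R) (hΛ : 0 ≤ Λ)
    (hD : ∀ S ∈ F, (((F.filter fun T => ¬ 2 ≤ (T \ S).card).card : ℕ) : ℝ) ≤ D)
    (hε0 : 0 < ε) (hε1 : ε ≤ 1) (hεD : D ≤ ε * F.card) (hF : 0 < F.card) (K : Finset ι)
    (hK : ∀ k ∈ K, ∀ S ∈ F, k ∉ S) :
    PP ι E {A | Good F R Λ jj A ∧ ∀ k ∈ K, ∀ S ∈ F, ε < dq S A (A k)} ≤
      ENNReal.ofReal ((1 - 9 / 100 / (1 + R * Λ)) ^ K.card) := by
  set c := 1 - 9 / 100 / (1 + R * Λ) with hc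
  have hc0 : 0 ≤ c := by
    have h1 : 0 ≤ R * Λ := by positivity
    have h2 : 9 / 100 / (1 + R * Λ) ≤ 1 := by
      rw [div_le_one (by positivity)]
      linarith
    rw [hc]
    linarith
  have hm : ∀ K' : Finset ι, MeasurableSet
      {A : ι → E | Good F R Λ jj A ∧ ∀ k ∈ K', ∀ S ∈ F, ε < dq S A (A k)} := by
    intro K'
    have h1 : {A : ι → E | Good F R Λ jj A ∧ ∀ k ∈ K', ∀ S ∈ F, ε < dq S A (A k)} =
        {A : ι → E | Good F R Λ jj A} ∩ (⋂ k ∈ K', ⋂ S ∈ F, {A : ι → E | ε < dq S A (A k)}) := by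
      ext A
      simp only [Set.mem_ofPred_eq, Set.mem_inter_iff, Set.mem_iInter]
    rw [h1]
    exact (good_meas F R Λ jj).inter (Finset.measurableSet_biInter _ fun k _ =>
      Finset.measurableSet_biInter _ fun S _ => measurableSet_lt measurable_const (dq_meas' S k))
  suffices H : ∀ K' : Finset ι, K' ⊆ K →
      PP ι E {A | Good F R Λ jj A ∧ ∀ k ∈ K', ∀ S ∈ F, ε < dq S A (A k)} ≤
      ENNReal.ofReal (c ^ K'.card) from H K (Finset.Subset.refl K)
  intro K'
  induction K' using Finset.induction_on with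
  | empty =>
    intro _
    simp only [Finset.card_empty, pow_zero, ENNReal.ofReal_one]
    exact prob_le_one
  | insert k K' hkK' ih =>
    intro hsub
    have hkK : k ∈ K := hsub (Finset.mem_insert_self k K')
    have hih := ih (fun a ha => hsub (Finset.mem_insert_of_mem ha))
    set S1 : Set (ι → E) :=
      {A | Good F R Λ jj A ∧ ∀ k' ∈ insert k K', ∀ S ∈ F, ε < dq S A (A k')} with hS1
    set S0 : Set (ι → E) :=
      {A | Good F R Λ jj A ∧ ∀ k' ∈ K', ∀ S ∈ F, ε < dq S A (A k')} with hS0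
    have hf : Measurable (S1.indicator (1 : (ι → E) → ℝ≥0∞)) :=
      measurable_one.indicator (hm (insert k K'))
    rw [← lintegral_indicator_one (hm (insert k K')), lint_resample (stdGaussian E) k _ hf]
    have hpt : ∀ A : ι → E, ∫⁻ x, S1.indicator (1 : (ι → E) → ℝ≥0∞) (Function.update A k x)
        ∂(stdGaussian E) ≤ ENNReal.ofReal c * S0.indicator (1 : (ι → E) → ℝ≥0∞) A := by
      intro A
      have hiff : ∀ x : E, Function.update A k x ∈ S1 ↔ (A ∈ S0 ∧ ∀ S ∈ F, ε < dq S A x) := by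
        intro x
        rw [hS1, hS0]
        simp only [Set.mem_ofPred_eq]
        rw [good_update F R Λ jj hjj k (hK k hkK) A x]
        constructor
        · rintro ⟨g, h⟩
          refine ⟨⟨g, fun k' hk' S hS => ?_⟩, fun S hS => ?_⟩
          · have h1 := h k' (Finset.mem_insert_of_mem hk') S hS
            rw [dq_update S A k (hK k hkK S hS), Function.update_of_ne] at h1
            · exact h1
            · rintro rfl
              exact hkK' hk'
          · have h1 := h k (Finset.mem_insert_self k K') S hS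
            rwa [dq_update S A k (hK k hkK S hS), Function.update_self] at h1
        · rintro ⟨⟨g, h⟩, h2⟩
          refine ⟨g, fun k' hk' S hS => ?_⟩
          rw [dq_update S A k (hK k hkK S hS)]
          rcases Finset.mem_insert.1 hk' with rfl | hk2
          · rw [Function.update_self]
            exact h2 S hS
          · rw [Function.update_of_ne]
            · exact h k' hk2 S hS
            · rintro rfl
              exact hkK' hk2
      by_cases hA : A ∈ S0
      · rw [Set.indicator_of_mem hA]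
        have hmx : MeasurableSet {x : E | ∀ S ∈ F, ε < dq S A x} := by
          have h1 : {x : E | ∀ S ∈ F, ε < dq S A x} = ⋂ S ∈ F, {x : E | ε < dq S A x} := by
            ext x
            simp
          rw [h1]
          exact Finset.measurableSet_biInter _ fun S _ =>
            measurableSet_lt measurable_const (dq_meas_x S A)
        have h1 : ∀ x : E, S1.indicator (1 : (ι → E) → ℝ≥0∞) (Function.update A k x) =
            ({x : E | ∀ S ∈ F, ε < dq S A x}).indicator (1 : E → ℝ≥0∞) x := by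
          intro x
          by_cases hx : x ∈ {x : E | ∀ S ∈ F, ε < dq S A x}
          · rw [Set.indicator_of_mem hx, Set.indicator_of_mem ((hiff x).2 ⟨hA, hx⟩)]
            rfl
          · rw [Set.indicator_of_notMem hx, Set.indicator_of_notMem fun h => hx ((hiff x).1 h).2]
        simp only [h1]
        rw [lintegral_indicator_one hmx]
        simp only [Pi.one_apply, mul_one]
        have h2 := one_row A F hcard hA.1.1 R hR0 hA.1.2.1 jj hjj Λ hΛ hA.1.2.2 D hD ε hε0 hε1
          hεD hF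
        rw [measureReal_def] at h2
        rw [← ENNReal.ofReal_toReal (measure_ne_top (stdGaussian E) _)]
        exact ENNReal.ofReal_le_ofReal h2
      · have h1 : ∀ x : E, S1.indicator (1 : (ι → E) → ℝ≥0∞) (Function.update A k x) = 0 := by
          intro x
          exact Set.indicator_of_notMem (fun h => hA ((hiff x).1 h).1) _
        simp only [h1]
        simp
    calc _ ≤ ∫⁻ A, ENNReal.ofReal c * S0.indicator (1 : (ι → E) → ℝ≥0∞) A ∂(PP ι E) :=
          lintegral_mono hpt
      _ = ENNReal.ofReal c * PP ι E S0 := by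
          rw [lintegral_const_mul _ (measurable_one.indicator (hm K')),
            lintegral_indicator_one (hm K')]
      _ ≤ ENNReal.ofReal c * ENNReal.ofReal (c ^ K'.card) := by gcongr
      _ = ENNReal.ofReal (c ^ (insert k K').card) := by
          rw [← ENNReal.ofReal_mul hc0, Finset.card_insert_of_notMem hkK', pow_succ, mul_comm]

/-- the mean of the weights -/
theorem W_mean (F : Finset (Finset ι)) (jj : Finset ι → Finset ι → ι × ι)
    (hjj : ∀ S T, 2 ≤ (T \ S).card → (jj S T).1 ∈ T \ S ∧ (jj S T).2 ∈ T \ S ∧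
      (jj S T).1 ≠ (jj S T).2) (hcard : ∀ S ∈ F, S.card < Module.finrank ℝ E) :
    ∫⁻ A, ∑ S ∈ F, ∑ T ∈ F, wt jj A S T ∂(PP ι E) ≤ 16 * (F.card : ℝ≥0∞) ^ 2 := by
  rw [lintegral_finsetSum _ fun S _ => Finset.measurable_sum _ fun T _ => wt_meas jj S T]
  calc _ ≤ ∑ S ∈ F, ∑ T ∈ F, (16 : ℝ≥0∞) := by
        refine Finset.sum_le_sum fun S hS => ?_
        rw [lintegral_finsetSum _ fun T _ => wt_meas jj S T]
        refine Finset.sum_le_sum fun T hT => ?_
        by_cases hc : 2 ≤ (T \ S).card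
        · obtain ⟨h4, h5, h6⟩ := hjj S T hc
          simp only [wt, if_pos hc]
          exact hw_two S (hcard S hS) _ _ (Finset.mem_sdiff.1 h4).2 (Finset.mem_sdiff.1 h5).2 h6
        · simp only [wt, if_neg hc]
          simp
    _ = 16 * (F.card : ℝ≥0∞) ^ 2 := by
        rw [Finset.sum_const, Finset.sum_const, nsmul_eq_mul, nsmul_eq_mul]
        ring

theorem W_markov (F : Finset (Finset ι)) (hF : 0 < F.card) (jj : Finset ι → Finset ι → ι × ι)
    (hjj : ∀ S T, 2 ≤ (T \ S).card → (jj S T).1 ∈ T \ S ∧ (jj S T).2 ∈ T \ S ∧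
      (jj S T).1 ≠ (jj S T).2) (hcard : ∀ S ∈ F, S.card < Module.finrank ℝ E) (Λ : ℝ)
    (hΛ : 0 < Λ) :
    PP ι E {A | ENNReal.ofReal (Λ * (F.card : ℝ) ^ 2) < ∑ S ∈ F, ∑ T ∈ F, wt jj A S T} ≤
      ENNReal.ofReal (16 / Λ) := by
  have hFr : (0 : ℝ) < F.card := by exact_mod_cast hF
  have h1 := meas_ge_le_lintegral_div (μ := PP ι E) (W_meas F jj).aemeasurable
    (ε := ENNReal.ofReal (Λ * (F.card : ℝ) ^ 2)) (by positivity) ENNReal.ofReal_ne_top
  refine (measure_mono (fun A hA => ?_)).trans (h1.trans ?_)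
  · simp only [Set.mem_ofPred_eq] at hA ⊢
    exact hA.le
  · refine (ENNReal.div_le_div_right (W_mean F jj hjj hcard) _).trans ?_
    have h2 : (16 : ℝ≥0∞) * (F.card : ℝ≥0∞) ^ 2 = ENNReal.ofReal (16 * (F.card : ℝ) ^ 2) := by
      rw [ENNReal.ofReal_mul (by norm_num), ENNReal.ofReal_pow hFr.le, ENNReal.ofReal_natCast]
      norm_num
    rw [h2, ← ENNReal.ofReal_div_of_pos (by positivity)]
    apply ENNReal.ofReal_le_ofReal
    apply le_of_eq
    field_simp

end Pool.Agent.X88.PR
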