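import Pool.Agent.X88.PR.Pair

set_option autoImplicit false
set_option linter.unusedSectionVars false

/-!
Boosting with the joint probabilities.
-/

open MeasureTheory ProbabilityTheory Filter Topology
open scoped ENNReal RealInnerProductSpace NNReal

namespace Pool.Agent.X88.PR

variable {ι : Type*} [Fintype ι] [DecidableEq ι]
variable {E : Type*} [NormedAddCommGroup E] [InnerProductSpace ℝ E] [FiniteDimensional ℝ E]
  [MeasurableSpace E] [BorelSpace E]

/-- the good configurations -/
def Gd (F : Finset (Finset ι)) (Λ ε : ℝ) (A : ι → E) : Prop :=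
  (∀ S ∈ F, ∀ s ∈ S, 0 < dq (S.erase s) A (A s)) ∧
    ∑ S ∈ F, ∑ T ∈ F, qq ε A S T ≤ ENNReal.ofReal (Λ * (ε * F.card) ^ 2)

theorem Q_meas (F : Finset (Finset ι)) (ε : ℝ) :
    Measurable fun A : ι → E => ∑ S ∈ F, ∑ T ∈ F, qq ε A S T :=
  Finset.measurable_sum _ fun S _ => Finset.measurable_sum _ fun T _ => qq_meas ε S T

theorem gd_meas (F : Finset (Finset ι)) (Λ ε : ℝ) : MeasurableSet {A : ι → E | Gd F Λ ε A} := by
  have h1 : {A : ι → E | Gd F Λ ε A} =
      (⋂ S ∈ F, ⋂ s ∈ S, {A : ι → E | 0 < dq (S.erase s) A (A s)}) ∩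
      {A : ι → E | ∑ S ∈ F, ∑ T ∈ F, qq ε A S T ≤ ENNReal.ofReal (Λ * (ε * F.card) ^ 2)} := by
    ext A
    simp only [Gd, Set.mem_ofPred_eq, Set.mem_inter_iff, Set.mem_iInter]
  rw [h1]
  refine MeasurableSet.inter ?_ ?_
  · exact Finset.measurableSet_biInter _ fun S _ => Finset.measurableSet_biInter _ fun s _ =>
      measurableSet_lt measurable_const (dq_meas' _ s)
  · exact measurableSet_le (Q_meas F ε) measurable_const

theorem gd_update (F : Finset (Finset ι)) (Λ ε : ℝ) (k : ι) (hk : ∀ S ∈ F, k ∉ S) (A : ι → E)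
    (x : E) : Gd F Λ ε (Function.update A k x) ↔ Gd F Λ ε A := by
  have h1 : ∀ S ∈ F, ∀ s ∈ S, Function.update A k x s = A s := by
    intro S hS s hs
    rw [Function.update_of_ne]
    rintro rfl
    exact hk S hS hs
  have h2 : ∀ S ∈ F, ∀ s ∈ S, ∀ y, dq (S.erase s) (Function.update A k x) y =
      dq (S.erase s) A y := fun S hS s _ y =>
    dq_update _ A k (fun h => hk S hS (Finset.mem_of_mem_erase h)) x y
  unfold Gd
  refine and_congr ?_ ?_
  · refine forall₂_congr fun S hS => forall₂_congr fun s hs => ?_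
    rw [h1 S hS s hs, h2 S hS s hs]
  · rw [Finset.sum_congr rfl fun S hS => Finset.sum_congr rfl fun T hT =>
      qq_update ε A S T k (hk S hS) (hk T hT) x]

theorem one_row2 (A : ι → E) (F : Finset (Finset ι))
    (hcard : ∀ S ∈ F, S.card + 1 = Module.finrank ℝ E) (Λ ε : ℝ) (hΛ : 0 < Λ)
    (hA : Gd F Λ ε A) (hε0 : 0 < ε) (hε1 : ε ≤ 1) (hF : 0 < F.card) :
    (stdGaussian E).real {x | ∀ S ∈ F, ε < dq S A x} ≤ 1 - 9 / 100 / Λ := by
  set B : Finset ι → Set E := fun S => {x | dq S A x ≤ ε} with hB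
  have hBm : ∀ S, MeasurableSet (B S) := fun S =>
    measurableSet_le (dq_meas_x S A) measurable_const
  have hFr : (0 : ℝ) < F.card := by exact_mod_cast hF
  have h1 : 3 / 10 * ε * F.card ≤ ∑ S ∈ F, (stdGaussian E).real (B S) := by
    calc 3 / 10 * ε * F.card = ∑ _S ∈ F, 3 / 10 * ε := by
          rw [Finset.sum_const, nsmul_eq_mul]; ring
      _ ≤ _ := Finset.sum_le_sum fun S hS => by
          obtain ⟨u, hu, hn⟩ := exists_normal S A (by have := hcard S hS; omega)
          have h2 := form_ge u hu ε hε0.le hε1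
          have h3 : B S = {x | |⟪u, x⟫| ≤ ε} := by
            ext x
            rw [hB]
            simp only [Set.mem_ofPred_eq]
            rw [dq_eq S A (hcard S hS) (indep_of_dq S A (hA.1 S hS)) u hu hn x]
          rw [h3]
          exact h2
  have hsum : ∑ S ∈ F, ∑ T ∈ F, (stdGaussian E).real (B S ∩ B T) ≤ Λ * (ε * F.card) ^ 2 := by
    have e1 : ∑ S ∈ F, ∑ T ∈ F, (stdGaussian E).real (B S ∩ B T) =
        (∑ S ∈ F, ∑ T ∈ F, qq ε A S T).toReal := by
      have hfin : ∀ S T, qq ε A S T ≠ ∞ := fun S T => measure_ne_top _ _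
      rw [ENNReal.toReal_sum fun S _ => ENNReal.sum_ne_top.2 fun T _ => hfin S T]
      refine Finset.sum_congr rfl fun S _ => ?_
      rw [ENNReal.toReal_sum fun T _ => hfin S T]
      rfl
    rw [e1]
    exact ENNReal.toReal_le_of_le_ofReal (by positivity) hA.2
  have h11 := second_moment (stdGaussian E) F B hBm (3 / 10 * ε * F.card)
    (Λ * (ε * F.card) ^ 2) h1 (by positivity) hsum (by positivity)
  have h12 : {x : E | ∀ S ∈ F, ε < dq S A x} ⊆ {x | ∀ S ∈ F, x ∉ B S} := by
    intro x hx S hS hxB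
    exact absurd hxB (not_le.2 (hx S hS))
  refine (measureReal_mono h12).trans (h11.trans (le_of_eq ?_))
  field_simp
  ring

theorem boost2 (F : Finset (Finset ι)) (Λ ε : ℝ)
    (hcard : ∀ S ∈ F, S.card + 1 = Module.finrank ℝ E) (hΛ : 1 ≤ Λ)
    (hε0 : 0 < ε) (hε1 : ε ≤ 1) (hF : 0 < F.card) (K : Finset ι)
    (hK : ∀ k ∈ K, ∀ S ∈ F, k ∉ S) :
    PP ι E {A | Gd F Λ ε A ∧ ∀ k ∈ K, ∀ S ∈ F, ε < dq S A (A k)} ≤
      ENNReal.ofReal ((1 - 9 / 100 / Λ) ^ K.card) := by
  set c := 1 - 9 / 100 / Λ with hc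
  have hc0 : 0 ≤ c := by
    have h2 : 9 / 100 / Λ ≤ 1 := by
      rw [div_le_one (by linarith)]
      linarith
    rw [hc]
    linarith
  have hm : ∀ K' : Finset ι, MeasurableSet
      {A : ι → E | Gd F Λ ε A ∧ ∀ k ∈ K', ∀ S ∈ F, ε < dq S A (A k)} := by
    intro K'
    have h1 : {A : ι → E | Gd F Λ ε A ∧ ∀ k ∈ K', ∀ S ∈ F, ε < dq S A (A k)} =
        {A : ι → E | Gd F Λ ε A} ∩ (⋂ k ∈ K', ⋂ S ∈ F, {A : ι → E | ε < dq S A (A k)}) := by
      ext A
      simp only [Set.mem_ofPred_eq, Set.mem_inter_iff, Set.mem_iInter]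
    rw [h1]
    exact (gd_meas F Λ ε).inter (Finset.measurableSet_biInter _ fun k _ =>
      Finset.measurableSet_biInter _ fun S _ => measurableSet_lt measurable_const (dq_meas' S k))
  suffices H : ∀ K' : Finset ι, K' ⊆ K →
      PP ι E {A | Gd F Λ ε A ∧ ∀ k ∈ K', ∀ S ∈ F, ε < dq S A (A k)} ≤
      ENNReal.ofReal (c ^ K'.card) from H K (Finset.Subset.refl K)
  intro K'
  induction K' using Finset.induction_on with
  | empty =>
    intro _
    simp only [Finset.card_empty, pow_zero, ENNReal.ofReal_one]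
    exact prob_le_one
  | insert k K' hkK' ih =>
    intro hsub
    have hkK : k ∈ K := hsub (Finset.mem_insert_self k K')
    have hih := ih (fun a ha => hsub (Finset.mem_insert_of_mem ha))
    set S1 : Set (ι → E) :=
      {A | Gd F Λ ε A ∧ ∀ k' ∈ insert k K', ∀ S ∈ F, ε < dq S A (A k')} with hS1
    set S0 : Set (ι → E) :=
      {A | Gd F Λ ε A ∧ ∀ k' ∈ K', ∀ S ∈ F, ε < dq S A (A k')} with hS0
    have hf : Measurable (S1.indicator (1 : (ι → E) → ℝ≥0∞)) :=
      measurable_one.indicator (hm (insert k K'))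
    rw [← lintegral_indicator_one (hm (insert k K')), lint_resample (stdGaussian E) k _ hf]
    have hpt : ∀ A : ι → E, ∫⁻ x, S1.indicator (1 : (ι → E) → ℝ≥0∞) (Function.update A k x)
        ∂(stdGaussian E) ≤ ENNReal.ofReal c * S0.indicator (1 : (ι → E) → ℝ≥0∞) A := by
      intro A
      have hiff : ∀ x : E, Function.update A k x ∈ S1 ↔ (A ∈ S0 ∧ ∀ S ∈ F, ε < dq S A x) := by
        intro x
        rw [hS1, hS0]
        simp only [Set.mem_ofPred_eq]
        rw [gd_update F Λ ε k (hK k hkK) A x]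
        constructor
        · rintro ⟨g, h⟩
          refine ⟨⟨g, fun k' hk' S hS => ?_⟩, fun S hS => ?_⟩
          · have h1 := h k' (Finset.mem_insert_of_mem hk') S hS
            rw [dq_update S A k (hK k hkK S hS), Function.update_of_ne] at h1
            · exact h1
            · rintro rfl
              exact hkK' hk'
          · have h1 := h k (Finset.mem_insert_self k K') S hS
            rwa [dq_update S A k (hK k hkK S hS), Function.update_self] at h1
        · rintro ⟨⟨g, h⟩, h2⟩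
          refine ⟨g, fun k' hk' S hS => ?_⟩
          rw [dq_update S A k (hK k hkK S hS)]
          rcases Finset.mem_insert.1 hk' with rfl | hk2
          · rw [Function.update_self]
            exact h2 S hS
          · rw [Function.update_of_ne]
            · exact h k' hk2 S hS
            · rintro rfl
              exact hkK' hk2
      by_cases hA : A ∈ S0
      · rw [Set.indicator_of_mem hA]
        have hmx : MeasurableSet {x : E | ∀ S ∈ F, ε < dq S A x} := by
          have h1 : {x : E | ∀ S ∈ F, ε < dq S A x} = ⋂ S ∈ F, {x : E | ε < dq S A x} := by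
            ext x
            simp
          rw [h1]
          exact Finset.measurableSet_biInter _ fun S _ =>
            measurableSet_lt measurable_const (dq_meas_x S A)
        have h1 : ∀ x : E, S1.indicator (1 : (ι → E) → ℝ≥0∞) (Function.update A k x) =
            ({x : E | ∀ S ∈ F, ε < dq S A x}).indicator (1 : E → ℝ≥0∞) x := by
          intro x
          by_cases hx : x ∈ {x : E | ∀ S ∈ F, ε < dq S A x}
          · rw [Set.indicator_of_mem hx, Set.indicator_of_mem ((hiff x).2 ⟨hA, hx⟩)]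
            rfl
          · rw [Set.indicator_of_notMem hx, Set.indicator_of_notMem fun h => hx ((hiff x).1 h).2]
        simp only [h1]
        rw [lintegral_indicator_one hmx]
        simp only [Pi.one_apply, mul_one]
        have h2 := one_row2 A F hcard Λ ε (by linarith) hA.1 hε0 hε1 hF
        rw [measureReal_def] at h2
        rw [← ENNReal.ofReal_toReal (measure_ne_top (stdGaussian E) _)]
        exact ENNReal.ofReal_le_ofReal h2
      · have h1 : ∀ x : E, S1.indicator (1 : (ι → E) → ℝ≥0∞) (Function.update A k x) = 0 := by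
          intro x
          exact Set.indicator_of_notMem (fun h => hA ((hiff x).1 h).1) _
        simp only [h1]
        simp
    calc _ ≤ ∫⁻ A, ENNReal.ofReal c * S0.indicator (1 : (ι → E) → ℝ≥0∞) A ∂(PP ι E) :=
          lintegral_mono hpt
      _ = ENNReal.ofReal c * PP ι E S0 := by
          rw [lintegral_const_mul _ (measurable_one.indicator (hm K')),
            lintegral_indicator_one (hm K')]
      _ ≤ ENNReal.ofReal c * ENNReal.ofReal (c ^ K'.card) := by gcongr
      _ = ENNReal.ofReal (c ^ (insert k K').card) := by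
          rw [← ENNReal.ofReal_mul hc0, Finset.card_insert_of_notMem hkK', pow_succ, mul_comm]

/-- the mean of the joint probabilities -/
theorem Q_mean (F : Finset (Finset ι)) (ε D : ℝ) (hε : 0 < ε)
    (hcard : ∀ S ∈ F, S.card + 1 = Module.finrank ℝ E)
    (hD : ∀ S ∈ F, (((F.filter fun T => ¬ 2 ≤ (T \ S).card).card : ℕ) : ℝ) ≤ D)
    (hεD : D ≤ ε * F.card) :
    ∫⁻ A, ∑ S ∈ F, ∑ T ∈ F, qq ε A S T ∂(PP ι E) ≤ ENNReal.ofReal (290 * (ε * F.card) ^ 2) := by
  rw [lintegral_finsetSum _ fun S _ => Finset.measurable_sum _ fun T _ => qq_meas ε S T]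
  have hrow : ∀ S ∈ F, ∫⁻ A, ∑ T ∈ F, qq ε A S T ∂(PP ι E) ≤
      ENNReal.ofReal (290 * ε ^ 2 * F.card) := by
    intro S hS
    rw [lintegral_finsetSum _ fun T _ => qq_meas ε S T]
    have h1 : ∀ T ∈ F, ∫⁻ A, qq ε A S T ∂(PP ι E) ≤
        ENNReal.ofReal ((if ¬ 2 ≤ (T \ S).card then ε else 0) + 289 * ε ^ 2) := by
      intro T hT
      by_cases hc : 2 ≤ (T \ S).card
      · obtain ⟨a, ha, b, hb, hab⟩ := Finset.one_lt_card.1 hc
        rw [if_neg (not_not.2 hc), zero_add]
        refine (qq_mean ε hε S T (by have := hcard S hS; omega) (hcard T hT) a b ha hb hab).trans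
          (le_of_eq ?_)
        rw [ENNReal.ofReal_mul (by norm_num)]
        norm_num
      · rw [if_pos hc]
        calc ∫⁻ A, qq ε A S T ∂(PP ι E) ≤ ∫⁻ _A, ENNReal.ofReal ε ∂(PP ι E) :=
              lintegral_mono fun A => qq_le ε hε.le A S T (by have := hcard S hS; omega)
          _ = ENNReal.ofReal ε := by rw [lintegral_const, measure_univ, mul_one]
          _ ≤ _ := ENNReal.ofReal_le_ofReal (by nlinarith [sq_nonneg ε])
    refine (Finset.sum_le_sum h1).trans ?_
    rw [← ENNReal.ofReal_sum_of_nonneg fun T _ => by split_ifs <;> positivity]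
    apply ENNReal.ofReal_le_ofReal
    rw [Finset.sum_add_distrib, ← Finset.sum_filter, Finset.sum_const, Finset.sum_const,
      nsmul_eq_mul, nsmul_eq_mul]
    have h7 := mul_le_mul_of_nonneg_right ((hD S hS).trans hεD) hε.le
    nlinarith
  refine (Finset.sum_le_sum hrow).trans ?_
  rw [Finset.sum_const, nsmul_eq_mul, ← ENNReal.ofReal_natCast,
    ← ENNReal.ofReal_mul (Nat.cast_nonneg _)]
  apply ENNReal.ofReal_le_ofReal
  apply le_of_eq
  ring

theorem Q_markov (F : Finset (Finset ι)) (hF : 0 < F.card) (ε D Λ : ℝ) (hε : 0 < ε) (hΛ : 0 < Λ)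
    (hcard : ∀ S ∈ F, S.card + 1 = Module.finrank ℝ E)
    (hD : ∀ S ∈ F, (((F.filter fun T => ¬ 2 ≤ (T \ S).card).card : ℕ) : ℝ) ≤ D)
    (hεD : D ≤ ε * F.card) :
    PP ι E {A | ENNReal.ofReal (Λ * (ε * F.card) ^ 2) < ∑ S ∈ F, ∑ T ∈ F, qq ε A S T} ≤
      ENNReal.ofReal (290 / Λ) := by
  have hFr : (0 : ℝ) < F.card := by exact_mod_cast hF
  have h1 := meas_ge_le_lintegral_div (μ := PP ι E) (Q_meas F ε).aemeasurable
    (ε := ENNReal.ofReal (Λ * (ε * F.card) ^ 2)) (by positivity) ENNReal.ofReal_ne_top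
  refine (measure_mono (fun A hA => ?_)).trans (h1.trans ?_)
  · simp only [Set.mem_ofPred_eq] at hA ⊢
    exact hA.le
  · refine (ENNReal.div_le_div_right (Q_mean F ε D hε hcard hD hεD) _).trans ?_
    rw [← ENNReal.ofReal_div_of_pos (by positivity)]
    apply ENNReal.ofReal_le_ofReal
    apply le_of_eq
    field_simp

end Pool.Agent.X88.PR
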