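import Pool.Agent.X88.PR.Near2

set_option autoImplicit false

/-!
The upper bound for omega with the power one half of the dimension.
-/

open MeasureTheory ProbabilityTheory Filter Topology
open scoped ENNReal RealInnerProductSpace NNReal

namespace Pool.Agent.X88.PR

theorem up_core3 (η : ℝ) (hη : 0 < η) : ∃ L : ℝ, ∀ᶠ M : ℕ in atTop,
    PP (Fin (2 * M - 1)) (EuclideanSpace ℝ (Fin M))
      {A | L * Real.sqrt M * (1 / 4) ^ M < om A} ≤ ENNReal.ofReal η := by
  set Λ : ℝ := 580 / η + 1 with hΛ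
  have hΛ1 : 1 ≤ Λ := by
    have : 0 < 580 / η := by positivity
    linarith
  have hc0 : 0 ≤ 1 - 9 / 100 / Λ := by
    have h2 : 9 / 100 / Λ ≤ 1 := by
      rw [div_le_one (by linarith)]
      linarith
    linarith
  have hc1 : 1 - 9 / 100 / Λ < 1 := by
    have : 0 < 9 / 100 / Λ := by positivity
    linarith
  obtain ⟨κ0, hκ0⟩ := exists_pow_lt_of_lt_one (show 0 < η / 2 by positivity) hc1
  set κ := κ0 + 1 with hκ
  have hκ1 : (1 - 9 / 100 / Λ) ^ κ ≤ η / 2 := by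
    rw [hκ, pow_succ]
    have h1 := mul_le_mul_of_nonneg_left hc1.le (show 0 ≤ (1 - 9 / 100 / Λ) ^ κ0 by positivity)
    linarith
  set L : ℝ := 4 * 4 ^ κ with hL
  have hL0 : 0 < L := by positivity
  refine ⟨L, ?_⟩
  have hev : ∀ᶠ M : ℕ in atTop, 20 * (2 * L + 1) * ((M : ℝ) ^ 3 * (1 / 2) ^ M) ≤ 1 / 2 := by
    have h1 := tendsto_pow_const_mul_const_pow_of_abs_lt_one 3
      (show |(1 / 2 : ℝ)| < 1 by rw [abs_of_pos (by norm_num)]; norm_num)
    have h2 := h1.eventually_le_const (show (0 : ℝ) < 1 / 2 / (20 * (2 * L + 1)) by positivity)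
    filter_upwards [h2] with M hM
    rw [le_div_iff₀ (by positivity)] at hM
    linarith
  have hev2 : ∀ᶠ M : ℕ in atTop, 5 * ((M : ℝ) ^ 2 * (3 / 5) ^ M) ≤ 1 / 2 := by
    have h1 := tendsto_pow_const_mul_const_pow_of_abs_lt_one 2
      (show |(3 / 5 : ℝ)| < 1 by rw [abs_of_pos (by norm_num)]; norm_num)
    have h2 := h1.eventually_le_const (show (0 : ℝ) < 1 / 10 by positivity)
    filter_upwards [h2] with M hM
    linarith
  have hev3 : ∀ᶠ M : ℕ in atTop, L * ((M : ℝ) ^ 1 * (1 / 4) ^ M) ≤ 1 := by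
    have h1 := tendsto_pow_const_mul_const_pow_of_abs_lt_one 1
      (show |(1 / 4 : ℝ)| < 1 by rw [abs_of_pos (by norm_num)]; norm_num)
    have h2 := h1.eventually_le_const (show (0 : ℝ) < 1 / L by positivity)
    filter_upwards [h2] with M hM
    rw [le_div_iff₀ (by positivity)] at hM
    linarith
  filter_upwards [hev, hev2, hev3, eventually_gt_atTop κ] with M h1 h1' h1'' h2
  have hM : 1 ≤ M := by omega
  have hM0 : (0 : ℝ) < M := by exact_mod_cast hM
  have hM1 : (1 : ℝ) ≤ M := by exact_mod_cast hM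
  have hs : Real.sqrt M * Real.sqrt M = M := Real.mul_self_sqrt hM0.le
  have hs0 : 0 < Real.sqrt M := Real.sqrt_pos.2 hM0
  have hsM : Real.sqrt M ≤ M := by nlinarith [Real.one_le_sqrt.2 hM1]
  obtain ⟨K, -, hK⟩ : ∃ K ⊆ (Finset.univ : Finset (Fin (2 * M - 1))), K.card = κ := by
    apply Finset.exists_subset_card_eq
    rw [Finset.card_univ, Fintype.card_fin]
    omega
  set ε : ℝ := L * Real.sqrt M * (1 / 4) ^ M with hε
  have hε0 : 0 < ε := by positivity
  have hε1 : ε ≤ 1 := by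
    refine le_trans ?_ h1''
    rw [hε, pow_one, mul_assoc]
    apply mul_le_mul_of_nonneg_left _ hL0.le
    exact mul_le_mul_of_nonneg_right hsM (by positivity)
  have hcard : (Finset.powersetCard (M - 1) Kᶜ).card = (2 * M - 1 - κ).choose (M - 1) := by
    rw [Finset.card_powersetCard, Finset.card_compl, Fintype.card_fin, hK]
  have hsq : Real.sqrt ε * Real.sqrt (2 * Real.sqrt M) ≤ (2 * L + 1) * M * (1 / 2) ^ M := by
    rw [← Real.sqrt_mul hε0.le, Real.sqrt_le_left (by positivity)]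
    have e1 : ε * (2 * Real.sqrt M) = 2 * L * M * (1 / 4) ^ M := by
      rw [hε]
      calc L * Real.sqrt M * (1 / 4) ^ M * (2 * Real.sqrt M)
          = 2 * L * (Real.sqrt M * Real.sqrt M) * (1 / 4) ^ M := by ring
        _ = _ := by rw [hs]
    have e2 : ((2 * L + 1) * M * (1 / 2) ^ M) ^ 2 = ((2 * L + 1) ^ 2 * (M : ℝ) ^ 2) *
        (1 / 4) ^ M := by
      rw [mul_pow, mul_pow, ← pow_mul, mul_comm M 2, pow_mul]
      norm_num
    rw [e1, e2]
    apply mul_le_mul_of_nonneg_right _ (by positivity)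
    have e3 : 2 * L ≤ (2 * L + 1) ^ 2 := by nlinarith
    have e4 : (M : ℝ) ≤ (M : ℝ) ^ 2 := by nlinarith
    calc 2 * L * (M : ℝ) ≤ (2 * L + 1) ^ 2 * M := mul_le_mul_of_nonneg_right e3 hM0.le
      _ ≤ (2 * L + 1) ^ 2 * (M : ℝ) ^ 2 := mul_le_mul_of_nonneg_left e4 (by positivity)
  have hbig : 1 + 5 * (M : ℝ) ^ 2 * (4 * (Real.sqrt ε * Real.sqrt (2 * Real.sqrt M)) +
      (3 / 5) ^ M) ≤ ε * ((Finset.powersetCard (M - 1) Kᶜ).card : ℝ) := by
    have h3 : 5 * (M : ℝ) ^ 2 * (4 * (Real.sqrt ε * Real.sqrt (2 * Real.sqrt M)) +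
        (3 / 5) ^ M) ≤ 1 := by
      have h4 : 20 * (M : ℝ) ^ 2 * (Real.sqrt ε * Real.sqrt (2 * Real.sqrt M)) ≤
          20 * (M : ℝ) ^ 2 * ((2 * L + 1) * M * (1 / 2) ^ M) :=
        mul_le_mul_of_nonneg_left hsq (by positivity)
      have h5 : 20 * (M : ℝ) ^ 2 * ((2 * L + 1) * M * (1 / 2) ^ M) =
          20 * (2 * L + 1) * ((M : ℝ) ^ 3 * (1 / 2) ^ M) := by ring
      rw [h5] at h4
      nlinarith
    have h6 : 2 ≤ ε * ((Finset.powersetCard (M - 1) Kᶜ).card : ℝ) := by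
      rw [hcard]
      set c : ℝ := (((2 * M - 1 - κ).choose (M - 1) : ℕ) : ℝ) with hc
      have h6 := choose_ge2 M κ (by omega) h2
      rw [← hc] at h6
      have hc0 : 0 ≤ c := Nat.cast_nonneg _
      have h9 : (1 / 4 : ℝ) ^ M * 4 ^ M = 1 := by
        rw [← mul_pow]
        norm_num
      have h10 : 1 ≤ (1 / 4 : ℝ) ^ M * (4 ^ κ * (2 * Real.sqrt M * c)) := by
        calc (1 : ℝ) = (1 / 4 : ℝ) ^ M * 4 ^ M := h9.symm
          _ ≤ _ := mul_le_mul_of_nonneg_left h6 (by positivity)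
      calc (2 : ℝ) = 2 * 1 := by ring
        _ ≤ 2 * ((1 / 4 : ℝ) ^ M * (4 ^ κ * (2 * Real.sqrt M * c))) :=
          mul_le_mul_of_nonneg_left h10 (by norm_num)
        _ = ε * c := by
          rw [hε, hL]
          ring
    linarith
  have hb := up_bound3 (ι := Fin (2 * M - 1)) M hM (by rw [Fintype.card_fin]; omega) K Λ ε hΛ1
    hε0 hε1 hbig
  refine hb.trans (ENNReal.ofReal_le_ofReal ?_)
  have h3 : 290 / Λ ≤ η / 2 := by
    rw [div_le_iff₀ (by linarith), hΛ]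
    have h4 : η / 2 * (580 / η + 1) = 290 + η / 2 := by
      field_simp
      ring
    rw [h4]
    linarith
  rw [hK]
  linarith

end Pool.Agent.X88.PR
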