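import Pool.Agent.X88.PR.Lin

set_option autoImplicit false
set_option linter.unusedSectionVars false

/-!
The smallest singular value of a row submatrix and the constant omega: deterministic part.
-/

open scoped RealInnerProductSpace

namespace Pool.Agent.X88.PR

variable {ι : Type*} [Fintype ι] [DecidableEq ι]
variable {E : Type*} [NormedAddCommGroup E] [InnerProductSpace ℝ E] [FiniteDimensional ℝ E]

/-- smallest singular value of the rows in `S` -/
noncomputable def sig (A : ι → E) (S : Finset ι) : ℝ :=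
  ⨅ x : Metric.sphere (0 : E) 1, Real.sqrt (∑ i ∈ S, ⟪A i, (x : E)⟫ ^ 2)

/-- the stability constant -/
noncomputable def om (A : ι → E) : ℝ :=
  sInf (sig A '' {S : Finset ι |
    Module.finrank ℝ (Submodule.span ℝ (A '' {i | i ∉ S})) < Module.finrank ℝ E})

theorem sig_nonneg (A : ι → E) (S : Finset ι) : 0 ≤ sig A S :=
  Real.iInf_nonneg fun _ => Real.sqrt_nonneg _

theorem sig_le (A : ι → E) (S : Finset ι) (x : E) (hx : ‖x‖ = 1) :
    sig A S ≤ Real.sqrt (∑ i ∈ S, ⟪A i, x⟫ ^ 2) :=
  ciInf_le ⟨0, by rintro _ ⟨y, rfl⟩; exact Real.sqrt_nonneg _⟩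
    (⟨x, by rw [mem_sphere_zero_iff_norm]; exact hx⟩ : Metric.sphere (0 : E) 1)

theorem om_le (A : ι → E) (hι : Fintype.card ι + 1 = 2 * Module.finrank ℝ E) (S : Finset ι)
    (hS : S.card + 1 = Module.finrank ℝ E) (k : ι) (hk : k ∉ S) : om A ≤ dq S A (A k) := by
  obtain ⟨u, hu, hn⟩ := exists_normal S A (by omega)
  have h1 : Module.finrank ℝ (Submodule.span ℝ (A '' {i | i ∉ insert k S})) <
      Module.finrank ℝ E := by
    classical
    have h2 : A '' {i | i ∉ insert k S} = ((((insert k S)ᶜ : Finset ι).image A : Finset E) : Set E) := by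
      rw [Finset.coe_image, Finset.coe_compl]
      rfl
    rw [h2]
    refine lt_of_le_of_lt ((finrank_span_finset_le_card _).trans Finset.card_image_le) ?_
    rw [Finset.card_compl, Finset.card_insert_of_notMem hk]
    omega
  have h3 : om A ≤ sig A (insert k S) := by
    apply csInf_le
    · exact ⟨0, by rintro _ ⟨S, -, rfl⟩; exact sig_nonneg A S⟩
    · exact ⟨insert k S, h1, rfl⟩
  refine h3.trans ((sig_le A _ u hu).trans ?_)
  rw [Finset.sum_insert hk]
  have h4 : ∑ i ∈ S, ⟪A i, u⟫ ^ 2 = 0 := by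
    refine Finset.sum_eq_zero fun i hi => ?_
    rw [real_inner_comm, hn i hi]
    norm_num
  rw [h4, add_zero, Real.sqrt_sq_eq_abs, real_inner_comm]
  exact dq_ge S A (A k) u hu hn

theorem sig_ge (A : ι → E) (T : Finset ι) (hT : T.card = Module.finrank ℝ E) (δ : ℝ) (hδ : 0 < δ)
    (h : ∀ t ∈ T, δ < dq (T.erase t) A (A t)) (x : E) (hx : ‖x‖ = 1) :
    δ / Real.sqrt (Module.finrank ℝ E) ≤ Real.sqrt (∑ i ∈ T, ⟪A i, x⟫ ^ 2) := by
  have hi : LinearIndependent ℝ (fun s : T => A s) :=
    indep_of_dq T A fun s hs => hδ.trans (h s hs)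
  have hn : ∀ t : ι, ∃ u : E, t ∈ T → ‖u‖ = 1 ∧ ∀ s ∈ T.erase t, ⟪u, A s⟫ = 0 := by
    intro t
    by_cases ht : t ∈ T
    · obtain ⟨u, hu⟩ := exists_normal (T.erase t) A (by
        rw [Finset.card_erase_of_mem ht]
        have := Finset.card_pos.2 ⟨t, ht⟩
        omega)
      exact ⟨u, fun _ => hu⟩
    · exact ⟨0, fun h => absurd h ht⟩
  choose u hu using hn
  have hd : ∀ t ∈ T, δ < |⟪u t, A t⟫| := by
    intro t ht
    have h1 : LinearIndependent ℝ (fun s : (T.erase t : Finset ι) => A s) :=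
      hi.comp (fun s : (T.erase t : Finset ι) => (⟨s, Finset.mem_of_mem_erase s.2⟩ : T))
        (fun a c hab => Subtype.ext (show (a : ι) = (c : ι) from
          congrArg (fun z : T => (z : ι)) hab))
    rw [← dq_eq (T.erase t) A (by
      rw [Finset.card_erase_of_mem ht]
      have := Finset.card_pos.2 ⟨t, ht⟩
      omega) h1 (u t) (hu t ht).1 (hu t ht).2 (A t)]
    exact h t ht
  set b : ι → E := fun t => (⟪u t, A t⟫)⁻¹ • u t with hb
  have hbn : ∀ t ∈ T, ‖b t‖ ≤ 1 / δ := by
    intro t ht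
    rw [hb]
    simp only
    rw [norm_smul, (hu t ht).1, mul_one, norm_inv, Real.norm_eq_abs, one_div]
    exact inv_anti₀ hδ (hd t ht).le
  have hxe : x = ∑ t ∈ T, ⟪A t, x⟫ • b t := by
    have h1 : ∀ s ∈ T, ⟪A s, x - ∑ t ∈ T, ⟪A t, x⟫ • b t⟫ = 0 := by
      intro s hs
      rw [inner_sub_right, inner_sum, Finset.sum_eq_single_of_mem s hs]
      · rw [real_inner_smul_right, hb]
        simp only
        rw [real_inner_smul_right, real_inner_comm (u s) (A s)]
        have : ⟪u s, A s⟫ ≠ 0 := by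
          intro h0
          have := hd s hs
          rw [h0, abs_zero] at this
          linarith
        rw [inv_mul_cancel₀ this]
        ring
      · intro t ht hts
        rw [real_inner_smul_right, hb]
        simp only
        rw [real_inner_smul_right, real_inner_comm (u t) (A s),
          (hu t ht).2 s (Finset.mem_erase.2 ⟨hts.symm, hs⟩)]
        ring
    have h2 : Submodule.span ℝ (Set.range fun s : T => A s) = ⊤ :=
      hi.span_eq_top_of_card_eq_finrank' (by rw [Fintype.card_coe, hT])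
    have h3 : x - ∑ t ∈ T, ⟪A t, x⟫ • b t ∈ (Submodule.span ℝ (Set.range fun s : T => A s))ᗮ := by
      rw [Submodule.mem_orthogonal]
      intro v hv
      induction hv using Submodule.span_induction with
      | mem v hv =>
        obtain ⟨s, rfl⟩ := hv
        exact h1 s s.2
      | zero => exact inner_zero_left _
      | add a c _ _ ha hc => rw [inner_add_left, ha, hc, add_zero]
      | smul r a _ ha => rw [real_inner_smul_left, ha, mul_zero]
    rw [h2, Submodule.top_orthogonal_eq_bot, Submodule.mem_bot, sub_eq_zero] at h3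
    exact h3
  have h4 : ‖x‖ ≤ (∑ t ∈ T, |⟪A t, x⟫|) * (1 / δ) := by
    rw [Finset.sum_mul]
    conv_lhs => rw [hxe]
    refine (norm_sum_le _ _).trans (Finset.sum_le_sum fun t ht => ?_)
    rw [norm_smul, Real.norm_eq_abs]
    exact mul_le_mul_of_nonneg_left (hbn t ht) (abs_nonneg _)
  have h5 : δ ≤ ∑ t ∈ T, |⟪A t, x⟫| := by
    rw [hx, mul_one_div, le_div_iff₀ hδ] at h4
    linarith
  have h6 := sq_sum_le_card_mul_sum_sq (s := T) (f := fun t => |⟪A t, x⟫|)
  simp only [sq_abs] at h6
  rw [hT] at h6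
  have hM : (0 : ℝ) < Module.finrank ℝ E := by
    have h7 : 0 < Module.finrank ℝ E := by
      rw [← hT]
      by_contra hcon
      have : T = ∅ := Finset.card_eq_zero.1 (by omega)
      rw [this, Finset.sum_empty] at h5
      linarith
    exact_mod_cast h7
  apply Real.le_sqrt_of_sq_le
  rw [div_pow, Real.sq_sqrt hM.le, div_le_iff₀ hM]
  have h8 : δ ^ 2 ≤ (∑ t ∈ T, |⟪A t, x⟫|) ^ 2 := pow_le_pow_left₀ hδ.le h5 2
  linarith

theorem om_ge [Nontrivial E] (A : ι → E) (hι : Fintype.card ι + 1 = 2 * Module.finrank ℝ E) (δ : ℝ)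
    (hδ : 0 < δ)
    (h : ∀ T : Finset ι, T.card = Module.finrank ℝ E → ∀ t ∈ T, δ < dq (T.erase t) A (A t)) :
    δ / Real.sqrt (Module.finrank ℝ E) ≤ om A := by
  apply le_csInf
  · refine ⟨_, Finset.univ, ?_, rfl⟩
    have : A '' {i | i ∉ (Finset.univ : Finset ι)} = ∅ := by simp
    rw [Set.mem_ofPred_eq, this, Submodule.span_empty, finrank_bot]
    exact Module.finrank_pos
  · rintro _ ⟨S, hS, rfl⟩
    rw [Set.mem_ofPred_eq] at hS
    have hcS : Module.finrank ℝ E ≤ S.card := by
      by_contra hcon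
      have h1 : Module.finrank ℝ E ≤ Sᶜ.card := by
        rw [Finset.card_compl]
        omega
      obtain ⟨T, hTS, hTc⟩ := Finset.exists_subset_card_eq h1
      have hi : LinearIndependent ℝ (fun s : T => A s) :=
        indep_of_dq T A fun s hs => hδ.trans (h T hTc s hs)
      have h2 := finrank_span_eq_card hi
      rw [Fintype.card_coe, hTc] at h2
      have h3 : Submodule.span ℝ (Set.range fun s : T => A s) ≤
          Submodule.span ℝ (A '' {i | i ∉ S}) := by
        apply Submodule.span_mono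
        rintro _ ⟨s, rfl⟩
        exact ⟨s, Finset.mem_compl.1 (hTS s.2), rfl⟩
      have h4 := Submodule.finrank_mono h3
      omega
    obtain ⟨T, hTS, hTc⟩ := Finset.exists_subset_card_eq hcS
    have : Nonempty (Metric.sphere (0 : E) 1) := by
      obtain ⟨v, hv⟩ := exists_norm_eq (E := E) zero_le_one
      exact ⟨⟨v, by rw [mem_sphere_zero_iff_norm]; exact hv⟩⟩
    apply le_ciInf
    intro x
    refine (sig_ge A T hTc δ hδ (h T hTc) x (mem_sphere_zero_iff_norm.1 x.2)).trans ?_
    apply Real.sqrt_le_sqrt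
    exact Finset.sum_le_sum_of_subset_of_nonneg hTS fun _ _ _ => sq_nonneg _

end Pool.Agent.X88.PR
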