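import Pool.Agent.X88.PR.Boost
import Pool.Agent.X88.PR.Det

set_option autoImplicit false
set_option linter.unusedSectionVars false

/-!
Bounds for the distribution of omega for fixed size.
-/

open MeasureTheory ProbabilityTheory
open scoped ENNReal RealInnerProductSpace NNReal

namespace Pool.Agent.X88.PR

variable {ι : Type} [Fintype ι] [DecidableEq ι]

theorem near_count (m : ℕ) (F : Finset (Finset ι)) (hF : ∀ S ∈ F, S.card = m) (S : Finset ι)
    (hS : S ∈ F) : (F.filter fun T => ¬ 2 ≤ (T \ S).card).card ≤ Fintype.card ι ^ 2 + 1 := by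
  have h1 : (F.filter fun T => ¬ 2 ≤ (T \ S).card) ⊆
      insert S ((Finset.univ : Finset (ι × ι)).image fun p => insert p.2 (S.erase p.1)) := by
    intro T hT
    rw [Finset.mem_filter] at hT
    obtain ⟨hTF, hT2⟩ := hT
    have hc : T.card = S.card := by rw [hF T hTF, hF S hS]
    have hc2 : (T \ S).card = (S \ T).card := by
      have h2 := Finset.card_sdiff_add_card_inter T S
      have h3 := Finset.card_sdiff_add_card_inter S T
      rw [Finset.inter_comm] at h3
      omega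
    rw [Finset.mem_insert]
    rcases Nat.eq_zero_or_pos (T \ S).card with h0 | h0
    · left
      have h4 : T \ S = ∅ := Finset.card_eq_zero.1 h0
      rw [Finset.sdiff_eq_empty_iff_subset] at h4
      exact Finset.eq_of_subset_of_card_le h4 hc.ge
    · right
      have h5 : (T \ S).card = 1 := by omega
      have h6 : (S \ T).card = 1 := by omega
      obtain ⟨b, hb⟩ := Finset.card_eq_one.1 h5
      obtain ⟨a, ha⟩ := Finset.card_eq_one.1 h6
      rw [Finset.mem_image]
      refine ⟨(a, b), Finset.mem_univ _, ?_⟩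
      ext x
      have hb' : x ∈ T \ S ↔ x = b := by rw [hb, Finset.mem_singleton]
      have ha' : x ∈ S \ T ↔ x = a := by rw [ha, Finset.mem_singleton]
      rw [Finset.mem_sdiff] at hb' ha'
      simp only [Finset.mem_insert, Finset.mem_erase]
      tauto
  refine (Finset.card_le_card h1).trans ((Finset.card_insert_le _ _).trans ?_)
  refine Nat.add_le_add_right (Finset.card_image_le.trans ?_) 1
  rw [Finset.card_univ, Fintype.card_prod, sq]

theorem norm_ev (M : ℕ) (j : ι) : PP ι (EuclideanSpace ℝ (Fin M)) {A | 4 * (M : ℝ) ≤ ‖A j‖ ^ 2} ≤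
    ENNReal.ofReal ((3 / 5) ^ M) := by
  have h1 := (measurePreserving_eval (fun _ : ι => stdGaussian (EuclideanSpace ℝ (Fin M))) j).measure_preimage
    (s := {x | 4 * (M : ℝ) ≤ ‖x‖ ^ 2})
    (measurableSet_le measurable_const (measurable_norm.pow_const 2)).nullMeasurableSet
  have h2 : {A : ι → EuclideanSpace ℝ (Fin M) | 4 * (M : ℝ) ≤ ‖A j‖ ^ 2} =
      Function.eval j ⁻¹' {x | 4 * (M : ℝ) ≤ ‖x‖ ^ 2} := rfl
  rw [h2, h1]
  have h3 := norm_big M
  rw [measureReal_def] at h3
  rw [← ENNReal.ofReal_toReal (measure_ne_top (stdGaussian (EuclideanSpace ℝ (Fin M))) _)]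
  exact ENNReal.ofReal_le_ofReal h3

theorem norms_ev (M : ℕ) : PP ι (EuclideanSpace ℝ (Fin M)) {A | ∃ j, 4 * (M : ℝ) ≤ ‖A j‖ ^ 2} ≤
    ENNReal.ofReal (Fintype.card ι * (3 / 5) ^ M) := by
  have h1 : {A : ι → EuclideanSpace ℝ (Fin M) | ∃ j, 4 * (M : ℝ) ≤ ‖A j‖ ^ 2} =
      ⋃ j ∈ (Finset.univ : Finset ι), {A | 4 * (M : ℝ) ≤ ‖A j‖ ^ 2} := by
    ext A
    simp
  rw [h1]
  refine (measure_biUnion_finset_le _ _).trans ((Finset.sum_le_sum fun j _ => norm_ev M j).trans ?_)
  rw [Finset.sum_const, Finset.card_univ, nsmul_eq_mul, ENNReal.ofReal_mul (by positivity),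
    ENNReal.ofReal_natCast]

theorem up_bound [Nonempty ι] (M : ℕ) (hM : 1 ≤ M) (hι : Fintype.card ι + 1 = 2 * M) (K : Finset ι)
    (Λ ε : ℝ) (hΛ : 0 < Λ) (hε0 : 0 < ε) (hε1 : ε ≤ 1)
    (hε : 5 * (M : ℝ) ^ 2 ≤ ε * ((Finset.powersetCard (M - 1) Kᶜ).card : ℝ)) :
    PP ι (EuclideanSpace ℝ (Fin M)) {A | ε < om A} ≤
      ENNReal.ofReal (2 * M * (3 / 5) ^ M + 16 / Λ +
        (1 - 9 / 100 / (1 + 2 * Real.sqrt M * Λ)) ^ K.card) := by
  set E := EuclideanSpace ℝ (Fin M) with hE
  have hfr : Module.finrank ℝ E = M := finrank_euclideanSpace_fin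
  have hM0 : (0 : ℝ) < M := by exact_mod_cast hM
  set F := Finset.powersetCard (M - 1) Kᶜ with hF
  have hFc : ∀ S ∈ F, S.card = M - 1 := fun S hS => (Finset.mem_powersetCard.1 hS).2
  have hFK : ∀ k ∈ K, ∀ S ∈ F, k ∉ S := by
    intro k hk S hS hkS
    have := (Finset.mem_powersetCard.1 hS).1 hkS
    exact (Finset.mem_compl.1 this) hk
  have hF0 : 0 < F.card := by
    by_contra hcon
    have h0 : F.card = 0 := by omega
    rw [h0] at hε
    have : 0 < 5 * (M : ℝ) ^ 2 := by positivity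
    norm_num at hε
    linarith
  choose jj hjj using fun S T : Finset ι => exists_two S T
  set R := 2 * Real.sqrt M with hR
  have hR0 : 0 < R := by
    have := Real.sqrt_pos.2 hM0
    positivity
  have hD : ∀ S ∈ F, (((F.filter fun T => ¬ 2 ≤ (T \ S).card).card : ℕ) : ℝ) ≤
      5 * (M : ℝ) ^ 2 := by
    intro S hS
    have h1 := near_count (M - 1) F hFc S hS
    have h2 : Fintype.card ι ^ 2 + 1 ≤ 5 * M ^ 2 := by
      have h3 : Fintype.card ι ≤ 2 * M := by omega
      have h4 : Fintype.card ι ^ 2 ≤ (2 * M) ^ 2 := Nat.pow_le_pow_left h3 2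
      nlinarith
    exact_mod_cast h1.trans h2
  have hb := boost (E := E) F R Λ (5 * (M : ℝ) ^ 2) ε jj hjj
    (by intro S hS; rw [hFc S hS, hfr]; omega) hR0 hΛ.le hD hε0 hε1 hε hF0 K hFK
  have hsub : {A : ι → E | ε < om A} ⊆
      ((⋃ S ∈ F, ⋃ s ∈ S, {A : ι → E | dq (S.erase s) A (A s) ≤ 0}) ∪
      {A | ∃ j, 4 * (M : ℝ) ≤ ‖A j‖ ^ 2}) ∪
      ({A | ENNReal.ofReal (Λ * (F.card : ℝ) ^ 2) < ∑ S ∈ F, ∑ T ∈ F, wt jj A S T} ∪
      {A | Good F R Λ jj A ∧ ∀ k ∈ K, ∀ S ∈ F, ε < dq S A (A k)}) := by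
    intro A hA
    by_contra hcon
    simp only [Set.mem_union, Set.mem_iUnion, Set.mem_ofPred_eq, not_or, not_exists, not_le,
      not_lt, exists_prop, not_and] at hcon
    obtain ⟨⟨h1, h2⟩, h3, h4⟩ := hcon
    have hg : Good F R Λ jj A := by
      refine ⟨fun S hS s hs => h1 S hS s hs, fun S hS j hj => ?_, h3⟩
      have h5 := h2 j
      have h6 : 0 ≤ ‖A j‖ := norm_nonneg _
      have h7 : R ^ 2 = 4 * M := by
        rw [hR, mul_pow, Real.sq_sqrt hM0.le]
        ring
      nlinarith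
    apply h4 hg
    intro k hk S hS
    have h5 := om_le A (by rw [hfr]; exact hι) S (by rw [hFc S hS, hfr]; omega) k (hFK k hk S hS)
    exact lt_of_lt_of_le hA h5
  have hz : PP ι E (⋃ S ∈ F, ⋃ s ∈ S, {A : ι → E | dq (S.erase s) A (A s) ≤ 0}) = 0 := by
    rw [← nonpos_iff_eq_zero]
    refine (measure_biUnion_finset_le _ _).trans (le_of_eq (Finset.sum_eq_zero fun S hS => ?_))
    rw [← nonpos_iff_eq_zero]
    refine (measure_biUnion_finset_le _ _).trans (le_of_eq (Finset.sum_eq_zero fun s hs => ?_))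
    rw [← nonpos_iff_eq_zero]
    have h1 := dq_small (E := E) (S.erase s) (by
      rw [Finset.card_erase_of_mem hs, hfr, hFc S hS]
      omega) s (Finset.notMem_erase s S) 0 le_rfl
    simpa using h1
  have hno := norms_ev (ι := ι) M
  have hWm := W_markov (E := E) F hF0 jj hjj (by
    intro S hS
    rw [hFc S hS, hfr]
    omega) Λ hΛ
  have hc0 : 0 ≤ 1 - 9 / 100 / (1 + R * Λ) := by
    have h1 : 0 ≤ R * Λ := by positivity
    have h2 : 9 / 100 / (1 + R * Λ) ≤ 1 := by
      rw [div_le_one (by positivity)]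
      linarith
    linarith
  calc PP ι E {A | ε < om A} ≤ _ := measure_mono hsub
    _ ≤ (PP ι E (⋃ S ∈ F, ⋃ s ∈ S, {A : ι → E | dq (S.erase s) A (A s) ≤ 0}) +
        PP ι E {A | ∃ j, 4 * (M : ℝ) ≤ ‖A j‖ ^ 2}) +
        (PP ι E {A | ENNReal.ofReal (Λ * (F.card : ℝ) ^ 2) < ∑ S ∈ F, ∑ T ∈ F, wt jj A S T} +
        PP ι E {A | Good F R Λ jj A ∧ ∀ k ∈ K, ∀ S ∈ F, ε < dq S A (A k)}) :=
        (measure_union_le _ _).trans (add_le_add (measure_union_le _ _) (measure_union_le _ _))
    _ ≤ (0 + ENNReal.ofReal (Fintype.card ι * (3 / 5) ^ M)) + (ENNReal.ofReal (16 / Λ) +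
        ENNReal.ofReal ((1 - 9 / 100 / (1 + R * Λ)) ^ K.card)) := by
        rw [hz]
        exact add_le_add (add_le_add le_rfl hno) (add_le_add hWm hb)
    _ ≤ _ := by
        rw [zero_add, ← ENNReal.ofReal_add (by positivity) (by positivity),
          ← ENNReal.ofReal_add (by positivity) (by positivity)]
        apply ENNReal.ofReal_le_ofReal
        have h1 : (Fintype.card ι : ℝ) ≤ 2 * M := by
          have h3 : Fintype.card ι ≤ 2 * M := by omega
          exact_mod_cast h3
        have h2 := mul_le_mul_of_nonneg_right h1 (show (0 : ℝ) ≤ (3 / 5) ^ M by positivity)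
        linarith

theorem low_bound (M : ℕ) (hM : 1 ≤ M) (hι : Fintype.card ι + 1 = 2 * M) (δ : ℝ) (hδ : 0 < δ) :
    PP ι (EuclideanSpace ℝ (Fin M)) {A | om A < δ / Real.sqrt M} ≤
      ENNReal.ofReal (4 ^ M * (M * δ)) := by
  set E := EuclideanSpace ℝ (Fin M) with hE
  have hfr : Module.finrank ℝ E = M := finrank_euclideanSpace_fin
  have hM0 : (0 : ℝ) < M := by exact_mod_cast hM
  have : Nonempty (Fin M) := ⟨⟨0, hM⟩⟩
  have : Nontrivial E := by
    rw [← Module.finrank_pos_iff (R := ℝ), hfr]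
    exact hM
  set G := Finset.powersetCard M (Finset.univ : Finset ι) with hG
  have hsub : {A : ι → E | om A < δ / Real.sqrt M} ⊆
      ⋃ T ∈ G, ⋃ t ∈ T, {A : ι → E | dq (T.erase t) A (A t) ≤ δ} := by
    intro A hA
    by_contra hcon
    simp only [Set.mem_iUnion, Set.mem_ofPred_eq, not_exists, not_le, exists_prop, not_and] at hcon
    have h1 := om_ge A (by rw [hfr]; exact hι) δ hδ (by
      intro T hT t ht
      exact hcon T (by rw [hG, Finset.mem_powersetCard]; exact ⟨Finset.subset_univ _, by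
        rw [hT, hfr]⟩) t ht)
    rw [hfr] at h1
    exact absurd hA (not_lt.2 h1)
  refine (measure_mono hsub).trans ?_
  calc _ ≤ ∑ T ∈ G, ∑ t ∈ T, ENNReal.ofReal δ := by
        refine (measure_biUnion_finset_le _ _).trans (Finset.sum_le_sum fun T hT => ?_)
        refine (measure_biUnion_finset_le _ _).trans (Finset.sum_le_sum fun t ht => ?_)
        have hTc := (Finset.mem_powersetCard.1 hT).2
        exact dq_small (E := E) (T.erase t) (by
          rw [Finset.card_erase_of_mem ht, hfr, hTc]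
          omega) t (Finset.notMem_erase t T) δ hδ.le
    _ = ∑ T ∈ G, ENNReal.ofReal (M * δ) := by
        refine Finset.sum_congr rfl fun T hT => ?_
        rw [Finset.sum_const, (Finset.mem_powersetCard.1 hT).2, nsmul_eq_mul,
          ENNReal.ofReal_mul (by positivity), ENNReal.ofReal_natCast]
    _ = ENNReal.ofReal (G.card * (M * δ)) := by
        rw [Finset.sum_const, nsmul_eq_mul, ← ENNReal.ofReal_natCast,
          ← ENNReal.ofReal_mul (Nat.cast_nonneg _)]
    _ ≤ _ := by
        apply ENNReal.ofReal_le_ofReal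
        apply mul_le_mul_of_nonneg_right _ (by positivity)
        have h1 : G.card ≤ 2 ^ Fintype.card ι := by
          rw [hG, Finset.card_powersetCard, Finset.card_univ]
          exact Nat.choose_le_two_pow _ _
        have h2 : 2 ^ Fintype.card ι ≤ 4 ^ M := by
          rw [show 4 = 2 ^ 2 by norm_num, ← pow_mul]
          exact Nat.pow_le_pow_right (by norm_num) (by omega)
        exact_mod_cast h1.trans h2

end Pool.Agent.X88.PR
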