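import Pool.Agent.X88.PR.Boost2

set_option autoImplicit false
set_option linter.unusedSectionVars false

/-!
The upper bound for omega up to powers of the dimension.
-/

open MeasureTheory ProbabilityTheory Filter Topology
open scoped ENNReal RealInnerProductSpace NNReal

namespace Pool.Agent.X88.PR

theorem up_bound2 {ι : Type} [Fintype ι] [DecidableEq ι] (M : ℕ) (hM : 1 ≤ M)
    (hι : Fintype.card ι + 1 = 2 * M) (K : Finset ι)
    (Λ ε : ℝ) (hΛ : 1 ≤ Λ) (hε0 : 0 < ε) (hε1 : ε ≤ 1)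
    (hε : 5 * (M : ℝ) ^ 2 ≤ ε * ((Finset.powersetCard (M - 1) Kᶜ).card : ℝ)) :
    PP ι (EuclideanSpace ℝ (Fin M)) {A | ε < om A} ≤
      ENNReal.ofReal (290 / Λ + (1 - 9 / 100 / Λ) ^ K.card) := by
  set E := EuclideanSpace ℝ (Fin M) with hE
  have hfr : Module.finrank ℝ E = M := finrank_euclideanSpace_fin
  have hM0 : (0 : ℝ) < M := by exact_mod_cast hM
  set F := Finset.powersetCard (M - 1) Kᶜ with hF
  have hFc : ∀ S ∈ F, S.card = M - 1 := fun S hS => (Finset.mem_powersetCard.1 hS).2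
  have hcard : ∀ S ∈ F, S.card + 1 = Module.finrank ℝ E := by
    intro S hS
    rw [hFc S hS, hfr]
    omega
  have hFK : ∀ k ∈ K, ∀ S ∈ F, k ∉ S := by
    intro k hk S hS hkS
    have := (Finset.mem_powersetCard.1 hS).1 hkS
    exact (Finset.mem_compl.1 this) hk
  have hF0 : 0 < F.card := by
    by_contra hcon
    have h0 : F.card = 0 := by omega
    rw [h0] at hε
    have : 0 < 5 * (M : ℝ) ^ 2 := by positivity
    norm_num at hε
    linarith
  have hD : ∀ S ∈ F, (((F.filter fun T => ¬ 2 ≤ (T \ S).card).card : ℕ) : ℝ) ≤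
      5 * (M : ℝ) ^ 2 := by
    intro S hS
    have h1 := near_count (M - 1) F hFc S hS
    have h2 : Fintype.card ι ^ 2 + 1 ≤ 5 * M ^ 2 := by
      have h3 : Fintype.card ι ≤ 2 * M := by omega
      have h4 : Fintype.card ι ^ 2 ≤ (2 * M) ^ 2 := Nat.pow_le_pow_left h3 2
      nlinarith
    exact_mod_cast h1.trans h2
  have hb := boost2 (E := E) F Λ ε hcard hΛ hε0 hε1 hF0 K hFK
  have hsub : {A : ι → E | ε < om A} ⊆
      (⋃ S ∈ F, ⋃ s ∈ S, {A : ι → E | dq (S.erase s) A (A s) ≤ 0}) ∪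
      ({A | ENNReal.ofReal (Λ * (ε * F.card) ^ 2) < ∑ S ∈ F, ∑ T ∈ F, qq ε A S T} ∪
      {A | Gd F Λ ε A ∧ ∀ k ∈ K, ∀ S ∈ F, ε < dq S A (A k)}) := by
    intro A hA
    by_contra hcon
    simp only [Set.mem_union, Set.mem_iUnion, Set.mem_ofPred_eq, not_or, not_exists, not_le,
      not_lt, exists_prop, not_and] at hcon
    obtain ⟨h1, h3, h4⟩ := hcon
    have hg : Gd F Λ ε A := ⟨fun S hS s hs => h1 S hS s hs, h3⟩
    apply h4 hg
    intro k hk S hS
    have h5 := om_le A (by rw [hfr]; exact hι) S (by rw [hFc S hS, hfr]; omega) k (hFK k hk S hS)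
    exact lt_of_lt_of_le hA h5
  have hz : PP ι E (⋃ S ∈ F, ⋃ s ∈ S, {A : ι → E | dq (S.erase s) A (A s) ≤ 0}) = 0 := by
    rw [← nonpos_iff_eq_zero]
    refine (measure_biUnion_finset_le _ _).trans (le_of_eq (Finset.sum_eq_zero fun S hS => ?_))
    rw [← nonpos_iff_eq_zero]
    refine (measure_biUnion_finset_le _ _).trans (le_of_eq (Finset.sum_eq_zero fun s hs => ?_))
    rw [← nonpos_iff_eq_zero]
    have h1 := dq_small (E := E) (S.erase s) (by
      rw [Finset.card_erase_of_mem hs, hfr, hFc S hS]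
      omega) s (Finset.notMem_erase s S) 0 le_rfl
    simpa using h1
  have hWm := Q_markov (E := E) F hF0 ε (5 * (M : ℝ) ^ 2) Λ hε0 (by linarith) hcard hD hε
  have hc0 : 0 ≤ 1 - 9 / 100 / Λ := by
    have h2 : 9 / 100 / Λ ≤ 1 := by
      rw [div_le_one (by linarith)]
      linarith
    linarith
  calc PP ι E {A | ε < om A} ≤ _ := measure_mono hsub
    _ ≤ PP ι E (⋃ S ∈ F, ⋃ s ∈ S, {A : ι → E | dq (S.erase s) A (A s) ≤ 0}) +
        (PP ι E {A | ENNReal.ofReal (Λ * (ε * F.card) ^ 2) < ∑ S ∈ F, ∑ T ∈ F, qq ε A S T} +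
        PP ι E {A | Gd F Λ ε A ∧ ∀ k ∈ K, ∀ S ∈ F, ε < dq S A (A k)}) :=
        (measure_union_le _ _).trans (add_le_add le_rfl (measure_union_le _ _))
    _ ≤ 0 + (ENNReal.ofReal (290 / Λ) + ENNReal.ofReal ((1 - 9 / 100 / Λ) ^ K.card)) := by
        rw [hz]
        exact add_le_add le_rfl (add_le_add hWm hb)
    _ ≤ _ := by
        rw [zero_add, ← ENNReal.ofReal_add (by positivity) (by positivity)]

theorem up_core2 (η : ℝ) (hη : 0 < η) : ∃ L : ℝ, ∀ᶠ M : ℕ in atTop,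
    PP (Fin (2 * M - 1)) (EuclideanSpace ℝ (Fin M))
      {A | L * (M : ℝ) ^ 3 * (1 / 4) ^ M < om A} ≤ ENNReal.ofReal η := by
  set Λ : ℝ := 580 / η + 1 with hΛ
  have hΛ1 : 1 ≤ Λ := by
    have : 0 < 580 / η := by positivity
    linarith
  have hc0 : 0 ≤ 1 - 9 / 100 / Λ := by
    have h2 : 9 / 100 / Λ ≤ 1 := by
      rw [div_le_one (by linarith)]
      linarith
    linarith
  have hc1 : 1 - 9 / 100 / Λ < 1 := by
    have : 0 < 9 / 100 / Λ := by positivity
    linarith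
  obtain ⟨κ0, hκ0⟩ := exists_pow_lt_of_lt_one (show 0 < η / 2 by positivity) hc1
  set κ := κ0 + 1 with hκ
  have hκ1 : (1 - 9 / 100 / Λ) ^ κ ≤ η / 2 := by
    rw [hκ, pow_succ]
    have h1 := mul_le_mul_of_nonneg_left hc1.le (show 0 ≤ (1 - 9 / 100 / Λ) ^ κ0 by positivity)
    linarith
  refine ⟨10 * 4 ^ κ, ?_⟩
  have hev : ∀ᶠ M : ℕ in atTop, 10 * 4 ^ κ * (M : ℝ) ^ 3 * (1 / 4) ^ M ≤ 1 := by
    have h1 := tendsto_pow_const_mul_const_pow_of_abs_lt_one 3
      (show |(1 / 4 : ℝ)| < 1 by rw [abs_of_pos (by norm_num)]; norm_num)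
    have h2 := h1.eventually_le_const (show (0 : ℝ) < 1 / (10 * 4 ^ κ) by positivity)
    filter_upwards [h2] with M hM
    rw [le_div_iff₀ (by positivity)] at hM
    linarith
  filter_upwards [hev, eventually_gt_atTop κ] with M h1 h2
  have hM : 1 ≤ M := by omega
  have hM0 : (0 : ℝ) < M := by exact_mod_cast hM
  obtain ⟨K, -, hK⟩ : ∃ K ⊆ (Finset.univ : Finset (Fin (2 * M - 1))), K.card = κ := by
    apply Finset.exists_subset_card_eq
    rw [Finset.card_univ, Fintype.card_fin]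
    omega
  set ε : ℝ := 10 * 4 ^ κ * (M : ℝ) ^ 3 * (1 / 4) ^ M with hε
  have hε0 : 0 < ε := by positivity
  have hcard : (Finset.powersetCard (M - 1) Kᶜ).card = (2 * M - 1 - κ).choose (M - 1) := by
    rw [Finset.card_powersetCard, Finset.card_compl, Fintype.card_fin, hK]
  have hbig : 5 * (M : ℝ) ^ 2 ≤ ε * ((Finset.powersetCard (M - 1) Kᶜ).card : ℝ) := by
    rw [hcard]
    set c : ℝ := (((2 * M - 1 - κ).choose (M - 1) : ℕ) : ℝ) with hc
    have h6 := choose_ge M κ (by omega) h2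
    rw [← hc] at h6
    have hc0 : 0 ≤ c := Nat.cast_nonneg _
    have h9 : (1 / 4 : ℝ) ^ M * 4 ^ M = 1 := by
      rw [← mul_pow]
      norm_num
    have h10 : 1 ≤ (1 / 4 : ℝ) ^ M * (4 ^ κ * (2 * M * c)) := by
      calc (1 : ℝ) = (1 / 4 : ℝ) ^ M * 4 ^ M := h9.symm
        _ ≤ _ := mul_le_mul_of_nonneg_left h6 (by positivity)
    calc 5 * (M : ℝ) ^ 2 = 5 * (M : ℝ) ^ 2 * 1 := by ring
      _ ≤ 5 * (M : ℝ) ^ 2 * ((1 / 4 : ℝ) ^ M * (4 ^ κ * (2 * M * c))) :=
        mul_le_mul_of_nonneg_left h10 (by positivity)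
      _ = ε * c := by
        rw [hε]
        ring
  have hb := up_bound2 (ι := Fin (2 * M - 1)) M hM (by rw [Fintype.card_fin]; omega) K Λ ε hΛ1
    hε0 h1 hbig
  refine hb.trans (ENNReal.ofReal_le_ofReal ?_)
  have h3 : 290 / Λ ≤ η / 2 := by
    rw [div_le_iff₀ (by linarith), hΛ]
    have h4 : η / 2 * (580 / η + 1) = 290 + η / 2 := by
      field_simp
      ring
    rw [h4]
    linarith
  rw [hK]
  linarith

end Pool.Agent.X88.PR
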