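import Mathlib

set_option autoImplicit false

/-!
Small ball bounds for linear forms of a standard Gaussian vector.
-/

open MeasureTheory ProbabilityTheory
open scoped ENNReal RealInnerProductSpace NNReal

namespace Pool.Agent.X88.PR

variable {E : Type*} [NormedAddCommGroup E] [InnerProductSpace ℝ E] [FiniteDimensional ℝ E]
  [MeasurableSpace E] [BorelSpace E]

omit [FiniteDimensional ℝ E] in
theorem inner_meas (u : E) : Measurable fun x : E => ⟪u, x⟫ :=
  (continuous_const.inner continuous_id).measurable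

/-- the law of a linear form -/
theorem form_law (u : E) (hu : ‖u‖ = 1) :
    (stdGaussian E).map (fun x => ⟪u, x⟫) = gaussianReal 0 1 := by
  apply Measure.ext_of_charFun
  ext t
  rw [charFun_gaussianReal, charFun_apply_real, integral_map (inner_meas u).aemeasurable
    (by fun_prop)]
  have h1 := charFun_stdGaussian (E := E) (t • u)
  rw [charFun_apply] at h1
  have h2 : ∀ x : E, Complex.exp ((t : ℂ) * (⟪u, x⟫ : ℝ) * Complex.I) =
      Complex.exp ((⟪x, t • u⟫ : ℝ) * Complex.I) := by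
    intro x
    rw [real_inner_smul_right, real_inner_comm]
    push_cast
    rfl
  simp only [h2]
  rw [h1, norm_smul, hu, mul_one, Real.norm_eq_abs]
  congr 1
  have : ((|t| : ℝ) : ℂ) ^ 2 = (t : ℂ) ^ 2 := by
    rw [← Complex.ofReal_pow, sq_abs, Complex.ofReal_pow]
  rw [this]
  simp
  ring

theorem cov_form (u w : E) : cov[fun x => ⟪u, x⟫, fun x => ⟪w, x⟫; stdGaussian E] = ⟪u, w⟫ := by
  rw [← covarianceBilin_apply_eq_cov IsGaussian.memLp_two_id, covarianceBilin_stdGaussian]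
  rfl

/-- two orthogonal forms are independent -/
theorem form_indep (u w : E) (huw : ⟪u, w⟫ = 0) :
    IndepFun (fun x => ⟪u, x⟫) (fun x => ⟪w, x⟫) (stdGaussian E) := by
  apply HasGaussianLaw.indepFun_of_covariance_eq_zero
  · have h1 : HasGaussianLaw (id : E → E) (stdGaussian E) := IsGaussian.hasGaussianLaw_id
    exact h1.map_fun ((innerSL ℝ u).prod (innerSL ℝ w))
  · rw [cov_form, huw]

theorem pdf_le (x : ℝ) : gaussianPDFReal 0 1 x ≤ 2 / 5 := by
  unfold gaussianPDFReal
  have h1 : (5 / 2 : ℝ) ≤ Real.sqrt (2 * Real.pi * ((1 : ℝ≥0) : ℝ)) := by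
    apply Real.le_sqrt_of_sq_le
    have := Real.pi_gt_d2
    push_cast
    nlinarith
  have h2 : Real.exp (-(x - 0) ^ 2 / (2 * ((1 : ℝ≥0) : ℝ))) ≤ 1 := by
    apply Real.exp_le_one_iff.2
    have : 0 ≤ (x - 0) ^ 2 / (2 * ((1 : ℝ≥0) : ℝ)) := by positivity
    rw [neg_div]
    linarith
  have h3 : (Real.sqrt (2 * Real.pi * ((1 : ℝ≥0) : ℝ)))⁻¹ ≤ 2 / 5 := by
    rw [show (2 / 5 : ℝ) = (5 / 2)⁻¹ by norm_num]
    exact inv_anti₀ (by norm_num) h1
  calc _ ≤ (2 / 5 : ℝ) * 1 := mul_le_mul h3 h2 (Real.exp_pos _).le (by norm_num)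
    _ = _ := mul_one _

theorem pdf_ge (x : ℝ) (hx : |x| ≤ 1) : 3 / 20 ≤ gaussianPDFReal 0 1 x := by
  unfold gaussianPDFReal
  have h1 : Real.sqrt (2 * Real.pi * ((1 : ℝ≥0) : ℝ)) ≤ 2.6 := by
    apply Real.sqrt_le_iff.2
    refine ⟨by norm_num, ?_⟩
    have := Real.pi_lt_d2
    push_cast
    nlinarith
  have h1p : 0 < Real.sqrt (2 * Real.pi * ((1 : ℝ≥0) : ℝ)) := by
    apply Real.sqrt_pos.2
    push_cast
    positivity
  have h2 : 1 / 2 ≤ Real.exp (-(x - 0) ^ 2 / (2 * ((1 : ℝ≥0) : ℝ))) := by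
    have h3 := Real.add_one_le_exp (-(x - 0) ^ 2 / (2 * ((1 : ℝ≥0) : ℝ)))
    have h4 : x ^ 2 ≤ 1 := by
      rw [← sq_abs]
      have := abs_nonneg x
      nlinarith
    refine le_trans ?_ h3
    rw [sub_zero, NNReal.coe_one]
    have : -x ^ 2 / (2 * (1 : ℝ)) = -(x ^ 2 / 2) := by ring
    rw [this]
    linarith
  have h3 : (2.6 : ℝ)⁻¹ ≤ (Real.sqrt (2 * Real.pi * ((1 : ℝ≥0) : ℝ)))⁻¹ := inv_anti₀ h1p h1
  calc (3 / 20 : ℝ) ≤ (2.6 : ℝ)⁻¹ * (1 / 2) := by norm_num
    _ ≤ _ := mul_le_mul h3 h2 (by norm_num) (by positivity)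

theorem ball_le (c δ : ℝ) (hδ : 0 ≤ δ) : (gaussianReal 0 1).real {x | |x - c| ≤ δ} ≤ δ := by
  have hset : {x : ℝ | |x - c| ≤ δ} = Set.Icc (c - δ) (c + δ) := by
    ext x
    simp only [Set.mem_ofPred_eq, Set.mem_Icc, abs_le]
    constructor
    · rintro ⟨h1, h2⟩; constructor <;> linarith
    · rintro ⟨h1, h2⟩; constructor <;> linarith
  rw [hset, measureReal_def, gaussianReal_apply_eq_integral 0 one_ne_zero]
  have hI : ∫ x in Set.Icc (c - δ) (c + δ), gaussianPDFReal 0 1 x ≤ 2 / 5 * (2 * δ) := by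
    have h1 : ∫ x in Set.Icc (c - δ) (c + δ), gaussianPDFReal 0 1 x ≤
        ∫ _x in Set.Icc (c - δ) (c + δ), (2 / 5 : ℝ) := by
      apply setIntegral_mono_on (integrable_gaussianPDFReal 0 1).integrableOn
        (integrableOn_const (by simp)) measurableSet_Icc
      intro x _
      exact pdf_le x
    refine h1.trans (le_of_eq ?_)
    rw [setIntegral_const, smul_eq_mul, measureReal_def, Real.volume_Icc,
      ENNReal.toReal_ofReal (by linarith)]
    ring
  rw [ENNReal.toReal_ofReal (integral_nonneg fun x => gaussianPDFReal_nonneg 0 1 x)]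
  linarith

theorem ball_ge (δ : ℝ) (hδ : 0 ≤ δ) (h1 : δ ≤ 1) :
    3 / 10 * δ ≤ (gaussianReal 0 1).real {x | |x| ≤ δ} := by
  have hset : {x : ℝ | |x| ≤ δ} = Set.Icc (-δ) δ := by
    ext x
    simp only [Set.mem_ofPred_eq, Set.mem_Icc, abs_le]
  rw [hset, measureReal_def, gaussianReal_apply_eq_integral 0 one_ne_zero]
  have hI : 3 / 20 * (2 * δ) ≤ ∫ x in Set.Icc (-δ) δ, gaussianPDFReal 0 1 x := by
    have h1 : ∫ _x in Set.Icc (-δ) δ, (3 / 20 : ℝ) ≤
        ∫ x in Set.Icc (-δ) δ, gaussianPDFReal 0 1 x := by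
      apply setIntegral_mono_on (integrableOn_const (by simp))
        (integrable_gaussianPDFReal 0 1).integrableOn measurableSet_Icc
      intro x hx
      exact pdf_ge x ((abs_le.2 ⟨hx.1, hx.2⟩).trans h1)
    refine le_trans (le_of_eq ?_) h1
    rw [setIntegral_const, smul_eq_mul, measureReal_def, Real.volume_Icc,
      ENNReal.toReal_ofReal (by linarith)]
    ring
  rw [ENNReal.toReal_ofReal (integral_nonneg fun x => gaussianPDFReal_nonneg 0 1 x)]
  linarith

/-- small balls for one form -/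
theorem form_le (u : E) (hu : ‖u‖ = 1) (c δ : ℝ) (hδ : 0 ≤ δ) :
    (stdGaussian E).real {x | |⟪u, x⟫ - c| ≤ δ} ≤ δ := by
  have h1 := ball_le c δ hδ
  rw [← form_law u hu, map_measureReal_apply (inner_meas u)
    (measurableSet_le (by fun_prop) measurable_const)] at h1
  exact h1

theorem form_ge (u : E) (hu : ‖u‖ = 1) (δ : ℝ) (hδ : 0 ≤ δ) (h1 : δ ≤ 1) :
    3 / 10 * δ ≤ (stdGaussian E).real {x | |⟪u, x⟫| ≤ δ} := by
  have h2 := ball_ge δ hδ h1
  rw [← form_law u hu, map_measureReal_apply (inner_meas u)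
    (measurableSet_le (by fun_prop) measurable_const)] at h2
  exact h2

/-- small balls for two forms -/
theorem two_le (u v : E) (hu : ‖u‖ = 1) (hv : ‖v‖ = 1) (hs : 0 < Real.sqrt (1 - ⟪u, v⟫ ^ 2))
    (ε : ℝ) (hε : 0 ≤ ε) :
    (stdGaussian E).real {x | |⟪u, x⟫| ≤ ε ∧ |⟪v, x⟫| ≤ ε} ≤
      ε * (ε / Real.sqrt (1 - ⟪u, v⟫ ^ 2)) := by
  set s := Real.sqrt (1 - ⟪u, v⟫ ^ 2) with hsdef
  set c := ⟪u, v⟫ with hc
  have hs2 : s ^ 2 = 1 - c ^ 2 := by
    rw [hsdef, Real.sq_sqrt]
    by_contra hneg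
    have h0 := Real.sqrt_eq_zero_of_nonpos (show 1 - c ^ 2 ≤ 0 by linarith [not_le.1 hneg])
    rw [hsdef, h0] at hs
    exact lt_irrefl _ hs
  set w : E := s⁻¹ • (v - c • u) with hw
  have huu : ⟪u, u⟫ = 1 := by rw [real_inner_self_eq_norm_sq, hu]; norm_num
  have hvv : ⟪v, v⟫ = 1 := by rw [real_inner_self_eq_norm_sq, hv]; norm_num
  have huw : ⟪u, w⟫ = 0 := by
    rw [hw, real_inner_smul_right, inner_sub_right, real_inner_smul_right, huu, ← hc]
    ring
  have hww : ‖w‖ = 1 := by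
    have h1 : ‖w‖ ^ 2 = 1 := by
      rw [← real_inner_self_eq_norm_sq, hw, real_inner_smul_left, real_inner_smul_right,
        inner_sub_left, inner_sub_right, inner_sub_right, real_inner_smul_left,
        real_inner_smul_right, real_inner_smul_left, real_inner_smul_right, huu, hvv,
        real_inner_comm u v, ← hc]
      have : s⁻¹ * (s⁻¹ * (1 - c * c - (c * c - c * (c * 1)))) = (s ^ 2)⁻¹ * (1 - c ^ 2) := by
        field_simp
        ring
      rw [this, hs2, inv_mul_cancel₀]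
      rw [← hs2]
      positivity
    have h2 : 0 ≤ ‖w‖ := norm_nonneg _
    nlinarith
  have hvx : ∀ x : E, ⟪v, x⟫ = c * ⟪u, x⟫ + s * ⟪w, x⟫ := by
    intro x
    rw [hw, real_inner_smul_left, inner_sub_left, real_inner_smul_left]
    field_simp
    ring
  -- product law
  have hind := form_indep u w huw
  have hmap := (indepFun_iff_map_prod_eq_prod_map_map (inner_meas u).aemeasurable
    (inner_meas w).aemeasurable).1 hind
  rw [form_law u hu, form_law w hww] at hmap
  set γ := gaussianReal 0 1 with hγ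
  have m1 : Measurable fun p : ℝ × ℝ => |p.1| := measurable_fst.abs
  have m2 : Measurable fun p : ℝ × ℝ => |c * p.1 + s * p.2| :=
    ((measurable_fst.const_mul c).add (measurable_snd.const_mul s)).abs
  have hmeas : MeasurableSet {p : ℝ × ℝ | |p.1| ≤ ε ∧ |c * p.1 + s * p.2| ≤ ε} :=
    (measurableSet_le m1 measurable_const).inter (measurableSet_le m2 measurable_const)
  have h1 : (stdGaussian E).real {x | |⟪u, x⟫| ≤ ε ∧ |⟪v, x⟫| ≤ ε} =
      (γ.prod γ).real {p : ℝ × ℝ | |p.1| ≤ ε ∧ |c * p.1 + s * p.2| ≤ ε} := by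
    rw [← hmap, map_measureReal_apply ((inner_meas u).prodMk (inner_meas w)) hmeas]
    congr 1
    ext x
    simp only [Set.mem_ofPred_eq, Set.mem_preimage, hvx]
  rw [h1]
  have h2 : (γ.prod γ) {p : ℝ × ℝ | |p.1| ≤ ε ∧ |c * p.1 + s * p.2| ≤ ε} ≤
      ENNReal.ofReal (ε * (ε / s)) := by
    rw [Measure.prod_apply hmeas]
    have h3 : ∀ a : ℝ, γ (Prod.mk a ⁻¹' {p : ℝ × ℝ | |p.1| ≤ ε ∧ |c * p.1 + s * p.2| ≤ ε}) ≤
        ({a : ℝ | |a| ≤ ε}).indicator (fun _ => ENNReal.ofReal (ε / s)) a := by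
      intro a
      by_cases ha : |a| ≤ ε
      · rw [Set.indicator_of_mem (by exact ha)]
        have h4 : Prod.mk a ⁻¹' {p : ℝ × ℝ | |p.1| ≤ ε ∧ |c * p.1 + s * p.2| ≤ ε} ⊆
            {x : ℝ | |x - (-(c * a) / s)| ≤ ε / s} := by
          intro b hb
          simp only [Set.mem_preimage, Set.mem_ofPred_eq] at hb ⊢
          have h5 : b - (-(c * a) / s) = (c * a + s * b) / s := by
            field_simp
            ring
          rw [h5, abs_div, abs_of_pos hs]
          exact div_le_div_of_nonneg_right hb.2 hs.le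
        refine (measure_mono h4).trans ?_
        have h6 := ball_le (-(c * a) / s) (ε / s) (by positivity)
        rw [measureReal_def] at h6
        rw [← ENNReal.ofReal_toReal (measure_ne_top γ _)]
        exact ENNReal.ofReal_le_ofReal h6
      · rw [Set.indicator_of_notMem (by exact ha)]
        have : Prod.mk a ⁻¹' {p : ℝ × ℝ | |p.1| ≤ ε ∧ |c * p.1 + s * p.2| ≤ ε} = ∅ := by
          ext b
          simp only [Set.mem_preimage, Set.mem_ofPred_eq, Set.mem_empty_iff_false, iff_false]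
          exact fun h => ha h.1
        rw [this]
        simp
    refine (lintegral_mono h3).trans ?_
    rw [lintegral_indicator (measurableSet_le (by fun_prop) measurable_const),
      setLIntegral_const]
    have h7 : γ {a : ℝ | |a| ≤ ε} ≤ ENNReal.ofReal ε := by
      have h8 := ball_le 0 ε hε
      simp only [sub_zero] at h8
      rw [measureReal_def] at h8
      rw [← ENNReal.ofReal_toReal (measure_ne_top γ _)]
      exact ENNReal.ofReal_le_ofReal h8
    calc ENNReal.ofReal (ε / s) * γ {a : ℝ | |a| ≤ ε} ≤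
          ENNReal.ofReal (ε / s) * ENNReal.ofReal ε := by gcongr
      _ = ENNReal.ofReal (ε * (ε / s)) := by
          rw [← ENNReal.ofReal_mul (by positivity)]
          ring_nf
  rw [measureReal_def]
  exact ENNReal.toReal_le_of_le_ofReal (by positivity) h2

/-- singular weight -/
noncomputable def hw (t : ℝ) : ℝ≥0∞ := ((ENNReal.ofReal t)⁻¹) ^ (1 / 2 : ℝ)

theorem hw_anti {a b : ℝ} (hab : a ≤ b) : hw b ≤ hw a := by
  unfold hw
  apply ENNReal.rpow_le_rpow _ (by norm_num)
  exact ENNReal.inv_le_inv.2 (ENNReal.ofReal_le_ofReal hab)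

theorem hw_meas : Measurable hw := by
  unfold hw
  fun_prop

theorem gauss_le : gaussianReal 0 1 ≤ ENNReal.ofReal (2 / 5) • (volume : Measure ℝ) := by
  rw [gaussianReal_of_var_ne_zero 0 one_ne_zero, ← withDensity_const]
  apply withDensity_mono
  filter_upwards with x
  unfold gaussianPDF
  exact ENNReal.ofReal_le_ofReal (pdf_le x)

theorem hw_half : ∫⁻ x in Set.Ioc (0 : ℝ) 1, hw |x| ≤ 2 := by
  have h1 : ∫⁻ x in Set.Ioc (0 : ℝ) 1, hw |x| =
      ∫⁻ x in Set.Ioc (0 : ℝ) 1, ENNReal.ofReal (x ^ (-(1 / 2) : ℝ)) := by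
    apply setLIntegral_congr_fun measurableSet_Ioc
    intro x hx
    simp only
    rw [abs_of_pos hx.1]
    unfold hw
    rw [← ENNReal.ofReal_inv_of_pos hx.1, ENNReal.ofReal_rpow_of_pos (inv_pos.2 hx.1),
      Real.inv_rpow hx.1.le, Real.rpow_neg hx.1.le]
  have h2 : IntervalIntegrable (fun x : ℝ => x ^ (-(1 / 2) : ℝ)) volume 0 1 :=
    intervalIntegral.intervalIntegrable_rpow' (by norm_num)
  rw [h1, ← ofReal_integral_eq_lintegral_ofReal h2.1, ← intervalIntegral.integral_of_le (by norm_num),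
    integral_rpow (Or.inl (by norm_num))]
  · norm_num
  · refine (ae_restrict_iff' measurableSet_Ioc).2 (Filter.Eventually.of_forall fun x hx => ?_)
    exact Real.rpow_nonneg hx.1.le _

theorem hw_half' : ∫⁻ x in Set.Ico (-1 : ℝ) 0, hw |x| ≤ 2 := by
  have h1 := (Measure.measurePreserving_neg (volume : Measure ℝ)).setLIntegral_comp_preimage
    (measurableSet_Ioc : MeasurableSet (Set.Ioc (0 : ℝ) 1)) (hw_meas.comp continuous_abs.measurable)
  have h2 : (Neg.neg : ℝ → ℝ) ⁻¹' Set.Ioc (0 : ℝ) 1 = Set.Ico (-1) 0 := by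
    ext x
    simp only [Set.mem_preimage, Set.mem_Ioc, Set.mem_Ico]
    constructor
    · rintro ⟨h1, h2⟩; constructor <;> linarith
    · rintro ⟨h1, h2⟩; constructor <;> linarith
  have h3 : ∫⁻ x in Set.Ico (-1 : ℝ) 0, hw |x| = ∫⁻ x in Set.Ioc (0 : ℝ) 1, hw |x| := by
    simp only [Function.comp_apply] at h1
    rw [← h1, ← h2]
    congr 1
    funext x
    rw [abs_neg]
  rw [h3]
  exact hw_half

/-- the weight is integrable -/
theorem hw_int : ∫⁻ x, hw |x| ∂(gaussianReal 0 1) ≤ 4 := by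
  set γ := gaussianReal 0 1 with hγ
  have hm : Measurable fun x : ℝ => hw |x| := hw_meas.comp continuous_abs.measurable
  have h1 : ∀ x : ℝ, hw |x| ≤ 1 + (Set.Ioc (0 : ℝ) 1).indicator (fun x => hw |x|) x +
      (Set.Ico (-1 : ℝ) 0).indicator (fun x => hw |x|) x +
      ({0} : Set ℝ).indicator (fun x => hw |x|) x := by
    intro x
    by_cases hx1 : x ∈ Set.Ioc (0 : ℝ) 1
    · rw [Set.indicator_of_mem hx1]
      exact le_trans (le_add_left le_rfl) (le_trans (le_add_right le_rfl) (le_add_right le_rfl))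
    by_cases hx2 : x ∈ Set.Ico (-1 : ℝ) 0
    · rw [Set.indicator_of_mem hx2]
      exact le_trans (le_add_left le_rfl) (le_add_right le_rfl)
    by_cases hx3 : x ∈ ({0} : Set ℝ)
    · rw [Set.indicator_of_mem hx3]
      exact le_add_left le_rfl
    have h4 : 1 ≤ |x| := by
      simp only [Set.mem_Ioc, Set.mem_Ico, Set.mem_singleton_iff, not_and, not_le, not_lt] at hx1 hx2 hx3
      rcases lt_trichotomy x 0 with h5 | h5 | h5
      · rw [abs_of_neg h5]
        by_contra hcon
        have := hx2 (by linarith)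
        linarith
      · exact absurd h5 hx3
      · rw [abs_of_pos h5]
        exact (hx1 h5).le
    have h5 : hw |x| ≤ 1 := by
      refine (hw_anti h4).trans ?_
      unfold hw
      simp
    refine h5.trans ?_
    exact le_trans (le_add_right le_rfl) (le_trans (le_add_right le_rfl) (le_add_right le_rfl))
  have hs : ∀ s : Set ℝ, ∫⁻ x in s, hw |x| ∂γ ≤ ENNReal.ofReal (2 / 5) * ∫⁻ x in s, hw |x| := by
    intro s
    have h2 : γ.restrict s ≤ ENNReal.ofReal (2 / 5) • (volume.restrict s) := by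
      rw [← Measure.restrict_smul]
      exact Measure.restrict_mono le_rfl gauss_le
    calc _ ≤ ∫⁻ x, hw |x| ∂(ENNReal.ofReal (2 / 5) • (volume.restrict s)) :=
          lintegral_mono' h2 le_rfl
      _ = _ := by rw [lintegral_smul_measure, smul_eq_mul]
  have h0 : ∫⁻ x in ({0} : Set ℝ), hw |x| ∂γ = 0 := by
    have h2 := hs {0}
    have hv : ∫⁻ x in ({0} : Set ℝ), hw |x| = 0 := setLIntegral_measure_zero _ _ (by simp)
    rw [hv, mul_zero] at h2
    exact le_antisymm h2 zero_le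
  calc ∫⁻ x, hw |x| ∂γ ≤ ∫⁻ x, (1 + (Set.Ioc (0 : ℝ) 1).indicator (fun x => hw |x|) x +
      (Set.Ico (-1 : ℝ) 0).indicator (fun x => hw |x|) x +
      ({0} : Set ℝ).indicator (fun x => hw |x|) x) ∂γ := lintegral_mono h1
    _ = 1 + ∫⁻ x in Set.Ioc (0 : ℝ) 1, hw |x| ∂γ + ∫⁻ x in Set.Ico (-1 : ℝ) 0, hw |x| ∂γ +
        ∫⁻ x in ({0} : Set ℝ), hw |x| ∂γ := by
        rw [lintegral_add_right _ (hm.indicator (measurableSet_singleton 0)),
          lintegral_add_right _ (hm.indicator measurableSet_Ico),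
          lintegral_add_right _ (hm.indicator measurableSet_Ioc),
          lintegral_indicator (measurableSet_singleton 0), lintegral_indicator measurableSet_Ico,
          lintegral_indicator measurableSet_Ioc]
        simp
    _ ≤ 1 + ENNReal.ofReal (2 / 5) * 2 + ENNReal.ofReal (2 / 5) * 2 + 0 := by
        rw [h0]
        have a1 := (hs (Set.Ioc (0 : ℝ) 1)).trans (mul_le_mul_right hw_half _)
        have a2 := (hs (Set.Ico (-1 : ℝ) 0)).trans (mul_le_mul_right hw_half' _)
        gcongr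
    _ ≤ 4 := by
        have h5 : (ENNReal.ofReal (2 / 5)) ≤ 1 := by
          rw [← ENNReal.ofReal_one]
          exact ENNReal.ofReal_le_ofReal (by norm_num)
        have e1 : ENNReal.ofReal (2 / 5) * 2 = ENNReal.ofReal (4 / 5) := by
          rw [show (2 : ℝ≥0∞) = ENNReal.ofReal 2 by simp, ← ENNReal.ofReal_mul (by norm_num)]
          norm_num
        rw [e1, add_zero, show (1 : ℝ≥0∞) = ENNReal.ofReal 1 by simp,
          ← ENNReal.ofReal_add (by norm_num) (by norm_num),
          ← ENNReal.ofReal_add (by norm_num) (by norm_num),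
          show (4 : ℝ≥0∞) = ENNReal.ofReal 4 by simp]
        exact ENNReal.ofReal_le_ofReal (by norm_num)

theorem form_hw (u : E) (hu : ‖u‖ = 1) : ∫⁻ x, hw |⟪u, x⟫| ∂(stdGaussian E) ≤ 4 := by
  have h1 := hw_int
  rw [← form_law u hu, lintegral_map (f := fun x : ℝ => hw |x|)
    (hw_meas.comp continuous_abs.measurable) (inner_meas u)] at h1
  exact h1

end Pool.Agent.X88.PR
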