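import Pool.Agent.X88.PR.Rate

set_option autoImplicit false
set_option linter.unusedSectionVars false

/-!
Joint small ball bounds for two hyperplanes, without loss of powers of the dimension.
-/

open MeasureTheory ProbabilityTheory
open scoped ENNReal RealInnerProductSpace NNReal

namespace Pool.Agent.X88.PR

variable {ι : Type*} [Fintype ι] [DecidableEq ι]
variable {E : Type*} [NormedAddCommGroup E] [InnerProductSpace ℝ E] [FiniteDimensional ℝ E]
  [MeasurableSpace E] [BorelSpace E]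

omit [FiniteDimensional ℝ E] [MeasurableSpace E] [BorelSpace E] in
theorem geo3 (u v e e2 e3 a : E) (hv : ‖v‖ = 1) (he : ‖e‖ = 1)
    (hexp : u = ⟪e, u⟫ • e + ⟪e2, u⟫ • e2 + ⟪e3, u⟫ • e3)
    (hn : ⟪e, u⟫ ^ 2 + ⟪e2, u⟫ ^ 2 + ⟪e3, u⟫ ^ 2 = 1)
    (hv2 : ⟪e2, v⟫ = 0) (hv3 : ⟪e3, v⟫ = 0) (hua : ⟪u, a⟫ = 0) :
    |⟪e, a⟫| ≤ Real.sqrt (1 - ⟪u, v⟫ ^ 2) * (|⟪e, a⟫| + |⟪e2, a⟫| + |⟪e3, a⟫|) := by
  set α := ⟪e, u⟫ with hα
  set β := ⟪e2, u⟫ with hβ
  set γ := ⟪e3, u⟫ with hγ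
  have h1 : ⟪u, v⟫ = α * ⟪e, v⟫ := by
    conv_lhs => rw [hexp]
    rw [inner_add_left, inner_add_left, real_inner_smul_left, real_inner_smul_left,
      real_inner_smul_left, hv2, hv3]
    ring
  have h2 : α * ⟪e, a⟫ + β * ⟪e2, a⟫ + γ * ⟪e3, a⟫ = 0 := by
    have h3 : ⟪u, a⟫ = α * ⟪e, a⟫ + β * ⟪e2, a⟫ + γ * ⟪e3, a⟫ := by
      conv_lhs => rw [hexp]
      rw [inner_add_left, inner_add_left, real_inner_smul_left, real_inner_smul_left,
        real_inner_smul_left]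
    rw [← h3, hua]
  have h4 : |⟪e, v⟫| ≤ 1 := by
    have := abs_real_inner_le_norm e v
    rwa [he, hv, one_mul] at this
  have h5 : ⟪u, v⟫ ^ 2 ≤ α ^ 2 := by
    rw [h1, mul_pow]
    have h6 : ⟪e, v⟫ ^ 2 ≤ 1 := by
      rw [← sq_abs]
      have := abs_nonneg (⟪e, v⟫)
      nlinarith
    nlinarith [sq_nonneg α]
  set s := Real.sqrt (β ^ 2 + γ ^ 2) with hs
  have hs0 : 0 ≤ s := Real.sqrt_nonneg _
  have hs2 : s ^ 2 = β ^ 2 + γ ^ 2 := Real.sq_sqrt (by positivity)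
  have hs1 : s ≤ 1 := by nlinarith [sq_nonneg α]
  have hss : s ≤ Real.sqrt (1 - ⟪u, v⟫ ^ 2) := by
    apply Real.sqrt_le_sqrt
    linarith
  have h7 : 1 - s ≤ |α| := by
    have h8 : (1 - s) ^ 2 ≤ α ^ 2 := by nlinarith
    have h9 := sq_le_sq.1 h8
    exact (le_abs_self _).trans h9
  have h8 : |β| ≤ s := by
    apply Real.abs_le_sqrt
    nlinarith [sq_nonneg γ]
  have h9 : |γ| ≤ s := by
    apply Real.abs_le_sqrt
    nlinarith [sq_nonneg β]
  have h10 : |α| * |⟪e, a⟫| ≤ s * (|⟪e2, a⟫| + |⟪e3, a⟫|) := by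
    rw [← abs_mul]
    have h11 : α * ⟪e, a⟫ = -(β * ⟪e2, a⟫ + γ * ⟪e3, a⟫) := by linarith
    rw [h11, abs_neg]
    refine (abs_add_le _ _).trans ?_
    rw [abs_mul, abs_mul]
    have a1 := mul_le_mul_of_nonneg_right h8 (abs_nonneg ⟪e2, a⟫)
    have a2 := mul_le_mul_of_nonneg_right h9 (abs_nonneg ⟪e3, a⟫)
    linarith
  have h11 := mul_le_mul_of_nonneg_right h7 (abs_nonneg ⟪e, a⟫)
  have h12 : |⟪e, a⟫| ≤ s * (|⟪e, a⟫| + |⟪e2, a⟫| + |⟪e3, a⟫|) := by nlinarith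
  exact h12.trans (mul_le_mul_of_nonneg_right hss (by positivity))

omit [MeasurableSpace E] [BorelSpace E] in
theorem exists_frame (T : Finset ι) (A : ι → E) (hc : T.card + 3 = Module.finrank ℝ E)
    (hi : LinearIndependent ℝ (fun s : T => A s)) (v : E) :
    ∃ e e2 e3 : E, ‖e‖ = 1 ∧ ‖e2‖ = 1 ∧ ‖e3‖ = 1 ∧ ⟪e, e2⟫ = 0 ∧ ⟪e, e3⟫ = 0 ∧ ⟪e2, e3⟫ = 0 ∧
      ⟪e2, v⟫ = 0 ∧ ⟪e3, v⟫ = 0 ∧
      ∀ u : E, (∀ s ∈ T, ⟪u, A s⟫ = 0) → u = ⟪e, u⟫ • e + ⟪e2, u⟫ • e2 + ⟪e3, u⟫ • e3 := by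
  classical
  set B : Finset E := T.image A with hB
  have hBc : B.card ≤ T.card := Finset.card_image_le
  have hBm : ∀ s ∈ T, A s ∈ B := fun s hs => Finset.mem_image_of_mem A hs
  obtain ⟨e3, h3n, h3⟩ := exists_normal (insert v B) (id : E → E) (by
    have := Finset.card_insert_le v B
    omega)
  obtain ⟨e2, h2n, h2⟩ := exists_normal (insert e3 (insert v B)) (id : E → E) (by
    have h1 := Finset.card_insert_le v B
    have h2 := Finset.card_insert_le e3 (insert v B)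
    omega)
  obtain ⟨e, h1n, h1⟩ := exists_normal (insert e3 (insert e2 B)) (id : E → E) (by
    have h1 := Finset.card_insert_le e2 B
    have h2 := Finset.card_insert_le e3 (insert e2 B)
    omega)
  simp only [id] at h1 h2 h3
  have k1 : ⟪e, e2⟫ = 0 := h1 e2 (by simp)
  have k2 : ⟪e, e3⟫ = 0 := h1 e3 (by simp)
  have k3 : ⟪e2, e3⟫ = 0 := h2 e3 (by simp)
  have k1' : ⟪e2, e⟫ = 0 := by rw [real_inner_comm]; exact k1
  have k2' : ⟪e3, e⟫ = 0 := by rw [real_inner_comm]; exact k2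
  have k3' : ⟪e3, e2⟫ = 0 := by rw [real_inner_comm]; exact k3
  refine ⟨e, e2, e3, h1n, h2n, h3n, k1, k2, k3, h2 v (by simp), h3 v (by simp), ?_⟩
  intro u hu
  have s1 : ⟪e, e⟫ = 1 := by rw [real_inner_self_eq_norm_sq, h1n]; norm_num
  have s2 : ⟪e2, e2⟫ = 1 := by rw [real_inner_self_eq_norm_sq, h2n]; norm_num
  have s3 : ⟪e3, e3⟫ = 1 := by rw [real_inner_self_eq_norm_sq, h3n]; norm_num
  by_contra hne
  set r := u - (⟪e, u⟫ • e + ⟪e2, u⟫ • e2 + ⟪e3, u⟫ • e3) with hr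
  have hr0 : r ≠ 0 := by
    intro h
    exact hne (sub_eq_zero.1 h)
  have r1 : ⟪e, r⟫ = 0 := by
    rw [hr, inner_sub_right, inner_add_right, inner_add_right, real_inner_smul_right,
      real_inner_smul_right, real_inner_smul_right, s1, k1, k2]
    ring
  have r2 : ⟪e2, r⟫ = 0 := by
    rw [hr, inner_sub_right, inner_add_right, inner_add_right, real_inner_smul_right,
      real_inner_smul_right, real_inner_smul_right, s2, k1', k3]
    ring
  have r3 : ⟪e3, r⟫ = 0 := by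
    rw [hr, inner_sub_right, inner_add_right, inner_add_right, real_inner_smul_right,
      real_inner_smul_right, real_inner_smul_right, s3, k2', k3']
    ring
  set r' := ‖r‖⁻¹ • r with hr'
  have rn : ‖r'‖ = 1 := by
    rw [hr', norm_smul, norm_inv, norm_norm, inv_mul_cancel₀ (norm_ne_zero_iff.2 hr0)]
  have q1 : ⟪e, r'⟫ = 0 := by rw [hr', real_inner_smul_right, r1, mul_zero]
  have q2 : ⟪e2, r'⟫ = 0 := by rw [hr', real_inner_smul_right, r2, mul_zero]
  have q3 : ⟪e3, r'⟫ = 0 := by rw [hr', real_inner_smul_right, r3, mul_zero]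
  have q1' : ⟪r', e⟫ = 0 := by rw [real_inner_comm]; exact q1
  have q2' : ⟪r', e2⟫ = 0 := by rw [real_inner_comm]; exact q2
  have q3' : ⟪r', e3⟫ = 0 := by rw [real_inner_comm]; exact q3
  have hon : Orthonormal ℝ ![e, e2, e3, r'] := by
    refine ⟨fun i => ?_, fun i j hij => ?_⟩
    · fin_cases i
      · exact h1n
      · exact h2n
      · exact h3n
      · exact rn
    · fin_cases i <;> fin_cases j <;>
        first
        | exact absurd rfl hij
        | exact k1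
        | exact k2
        | exact k3
        | exact k1'
        | exact k2'
        | exact k3'
        | exact q1
        | exact q2
        | exact q3
        | exact q1'
        | exact q2'
        | exact q3'
  set U : Submodule ℝ E := Submodule.span ℝ (Set.range fun s : T => A s) with hU
  have f1 : Module.finrank ℝ U = T.card := by
    rw [hU, finrank_span_eq_card hi, Fintype.card_coe]
  have f2 : Module.finrank ℝ Uᗮ = 3 := by
    have := Submodule.finrank_add_finrank_orthogonal U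
    omega
  have hmem : ∀ w : E, (∀ s ∈ T, ⟪w, A s⟫ = 0) → w ∈ Uᗮ := by
    intro w hw
    rw [Submodule.mem_orthogonal']
    intro y hy
    rw [hU] at hy
    induction hy using Submodule.span_induction with
    | mem y hy =>
      obtain ⟨s, rfl⟩ := hy
      exact hw s s.2
    | zero => exact inner_zero_right _
    | add a b _ _ ha hb => rw [inner_add_right, ha, hb, add_zero]
    | smul c a _ ha => rw [real_inner_smul_right, ha, mul_zero]
  have m1 : e ∈ Uᗮ := hmem e fun s hs => h1 _ (by simp [hBm s hs])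
  have m2 : e2 ∈ Uᗮ := hmem e2 fun s hs => h2 _ (by simp [hBm s hs])
  have m3 : e3 ∈ Uᗮ := hmem e3 fun s hs => h3 _ (by simp [hBm s hs])
  have m4 : r' ∈ Uᗮ := by
    rw [hr', hr]
    refine Submodule.smul_mem _ _ (Submodule.sub_mem _ (hmem u hu) ?_)
    exact Submodule.add_mem _ (Submodule.add_mem _ (Submodule.smul_mem _ _ m1)
      (Submodule.smul_mem _ _ m2)) (Submodule.smul_mem _ _ m3)
  have f3 : Submodule.span ℝ (Set.range ![e, e2, e3, r']) ≤ Uᗮ := by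
    rw [Submodule.span_le]
    rintro _ ⟨i, rfl⟩
    fin_cases i
    · exact m1
    · exact m2
    · exact m3
    · exact m4
  have f4 := Submodule.finrank_mono f3
  rw [finrank_span_eq_card hon.linearIndependent, f2, Fintype.card_fin] at f4
  omega

theorem hh_ge (g g2 g3 : ℝ) (hg : 0 < g) (h2 : 0 ≤ g2) (h3 : 0 ≤ g3) :
    Real.sqrt ((g + g2 + g3) / g) ≤ 1 + (Real.sqrt g)⁻¹ * (1 + g2 + g3) := by
  have hs : 0 < Real.sqrt g := Real.sqrt_pos.2 hg
  have hs2 : Real.sqrt g ^ 2 = g := Real.sq_sqrt hg.le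
  rw [Real.sqrt_le_left (by positivity)]
  have h4 : (1 + (Real.sqrt g)⁻¹ * (1 + g2 + g3)) ^ 2 =
      1 + 2 * ((Real.sqrt g)⁻¹ * (1 + g2 + g3)) + (1 + g2 + g3) ^ 2 / g := by
    have hx : ((Real.sqrt g)⁻¹) ^ 2 = g⁻¹ := by rw [inv_pow, hs2]
    rw [div_eq_mul_inv, ← hx]
    ring
  have h5 : (g + g2 + g3) / g = 1 + (g2 + g3) / g := by
    field_simp
    ring
  have h6 : (g2 + g3) / g ≤ (1 + g2 + g3) ^ 2 / g := by
    apply div_le_div_of_nonneg_right _ hg.le
    nlinarith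
  have h7 : 0 ≤ 2 * ((Real.sqrt g)⁻¹ * (1 + g2 + g3)) := by positivity
  rw [h4, h5]
  linarith

/-- weight of one row in a frame -/
noncomputable def hh (e e2 e3 a : E) : ℝ≥0∞ :=
  1 + hw |⟪e, a⟫| * (1 + ENNReal.ofReal |⟪e2, a⟫| + ENNReal.ofReal |⟪e3, a⟫|)

theorem hh_meas (e e2 e3 : E) : Measurable fun a : E => hh e e2 e3 a := by
  unfold hh
  have h1 : ∀ w : E, Measurable fun a : E => ENNReal.ofReal |⟪w, a⟫| := fun w =>
    ENNReal.measurable_ofReal.comp (inner_meas w).abs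
  exact measurable_const.add ((hw_meas.comp (inner_meas e).abs).mul
    ((measurable_const.add (h1 e2)).add (h1 e3)))

theorem abs_mean (w : E) (hw1 : ‖w‖ = 1) :
    ∫⁻ x, ENNReal.ofReal |⟪w, x⟫| ∂(stdGaussian E) ≤ ENNReal.ofReal (3 / 2) := by
  have h1 : ∫⁻ x, ENNReal.ofReal |x| ∂(gaussianReal 0 1) ≤ ENNReal.ofReal (3 / 2) := by
    calc ∫⁻ x, ENNReal.ofReal |x| ∂(gaussianReal 0 1)
        ≤ ∫⁻ x, ENNReal.ofReal (Real.exp (x ^ 2 / 4)) ∂(gaussianReal 0 1) := by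
          refine lintegral_mono fun x => ENNReal.ofReal_le_ofReal ?_
          have h2 := Real.add_one_le_exp (x ^ 2 / 4)
          have h3 : |x| ≤ x ^ 2 / 4 + 1 := by
            have h4 := sq_abs x
            nlinarith [sq_nonneg (|x| - 2)]
          linarith
      _ = ENNReal.ofReal (∫ x, Real.exp (x ^ 2 / 4) ∂(gaussianReal 0 1)) := by
          rw [ofReal_integral_eq_lintegral_ofReal exp_sq.2
            (Filter.Eventually.of_forall fun x => (Real.exp_pos _).le)]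
      _ ≤ _ := ENNReal.ofReal_le_ofReal exp_sq.1
  rw [← form_law w hw1, lintegral_map (f := fun x : ℝ => ENNReal.ofReal |x|)
    (ENNReal.measurable_ofReal.comp continuous_abs.measurable) (inner_meas w)] at h1
  exact h1

theorem hw_abs (e w : E) (he : ‖e‖ = 1) (hw1 : ‖w‖ = 1) (hew : ⟪e, w⟫ = 0) :
    ∫⁻ a, hw |⟪e, a⟫| * ENNReal.ofReal |⟪w, a⟫| ∂(stdGaussian E) ≤ 6 := by
  have hi : IndepFun (fun a : E => hw |⟪e, a⟫|) (fun a : E => ENNReal.ofReal |⟪w, a⟫|)
      (stdGaussian E) :=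
    (form_indep e w hew).comp (hw_meas.comp continuous_abs.measurable)
      (ENNReal.measurable_ofReal.comp continuous_abs.measurable)
  have h1 := lintegral_mul_eq_lintegral_mul_lintegral_of_indepFun
    (hw_meas.comp (inner_meas e).abs) (ENNReal.measurable_ofReal.comp (inner_meas w).abs) hi
  calc _ = _ := h1
    _ ≤ 4 * ENNReal.ofReal (3 / 2) := mul_le_mul' (form_hw e he) (abs_mean w hw1)
    _ = 6 := by
      rw [show (4 : ℝ≥0∞) = ENNReal.ofReal 4 by simp, ← ENNReal.ofReal_mul (by norm_num),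
        show (4 : ℝ) * (3 / 2) = 6 by norm_num]
      simp

theorem hh_mean (e e2 e3 : E) (he : ‖e‖ = 1) (h2 : ‖e2‖ = 1) (h3 : ‖e3‖ = 1) (k2 : ⟪e, e2⟫ = 0)
    (k3 : ⟪e, e3⟫ = 0) : ∫⁻ a, hh e e2 e3 a ∂(stdGaussian E) ≤ 17 := by
  have m1 : ∀ w : E, Measurable fun a : E => ENNReal.ofReal |⟪w, a⟫| := fun w =>
    ENNReal.measurable_ofReal.comp (inner_meas w).abs
  have m2 : Measurable fun a : E => hw |⟪e, a⟫| := hw_meas.comp (inner_meas e).abs
  have h4 : ∀ a : E, hh e e2 e3 a = 1 + (hw |⟪e, a⟫| + hw |⟪e, a⟫| * ENNReal.ofReal |⟪e2, a⟫| +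
      hw |⟪e, a⟫| * ENNReal.ofReal |⟪e3, a⟫|) := by
    intro a
    unfold hh
    ring
  simp only [h4]
  have m3 : Measurable fun a : E => hw |⟪e, a⟫| + hw |⟪e, a⟫| * ENNReal.ofReal |⟪e2, a⟫| :=
    m2.add (m2.mul (m1 e2))
  rw [lintegral_add_left measurable_const, lintegral_add_left m3,
    lintegral_add_left m2, lintegral_const, measure_univ, mul_one]
  calc _ ≤ (1 : ℝ≥0∞) + (4 + 6 + 6) :=
        add_le_add le_rfl (add_le_add (add_le_add (form_hw e he) (hw_abs e e2 he h2 k2))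
          (hw_abs e e3 he h3 k3))
    _ = 17 := by norm_num

end Pool.Agent.X88.PR
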