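import Pool.Agent.X88.PR.Gauss

set_option autoImplicit false

/-!
Distance to the span of a finite family, by rational combinations.
-/

open MeasureTheory ProbabilityTheory
open scoped ENNReal RealInnerProductSpace NNReal

namespace Pool.Agent.X88.PR

variable {ι : Type*} [Fintype ι] [DecidableEq ι]
variable {E : Type*} [NormedAddCommGroup E] [InnerProductSpace ℝ E]

/-- distance of `x` to the span of the `A s`, `s ∈ S` -/
noncomputable def dq (S : Finset ι) (A : ι → E) (x : E) : ℝ :=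
  ⨅ q : ι → ℚ, ‖x - ∑ s ∈ S, (q s : ℝ) • A s‖

omit [Fintype ι] [DecidableEq ι] in
theorem dq_bdd (S : Finset ι) (A : ι → E) (x : E) :
    BddBelow (Set.range fun q : ι → ℚ => ‖x - ∑ s ∈ S, (q s : ℝ) • A s‖) :=
  ⟨0, by rintro _ ⟨q, rfl⟩; exact norm_nonneg _⟩

omit [Fintype ι] [DecidableEq ι] in
theorem dq_nonneg (S : Finset ι) (A : ι → E) (x : E) : 0 ≤ dq S A x :=
  Real.iInf_nonneg fun _ => norm_nonneg _

omit [Fintype ι] [DecidableEq ι] in
theorem dq_ge (S : Finset ι) (A : ι → E) (x u : E) (hu : ‖u‖ = 1)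
    (hS : ∀ s ∈ S, ⟪u, A s⟫ = 0) : |⟪u, x⟫| ≤ dq S A x := by
  apply le_ciInf
  intro q
  have h1 : ⟪u, x⟫ = ⟪u, x - ∑ s ∈ S, (q s : ℝ) • A s⟫ := by
    rw [inner_sub_right, inner_sum]
    rw [Finset.sum_eq_zero (fun s hs => by rw [real_inner_smul_right, hS s hs, mul_zero]), sub_zero]
  rw [h1]
  refine (abs_real_inner_le_norm _ _).trans ?_
  rw [hu, one_mul]

omit [Fintype ι] [DecidableEq ι] in
theorem dq_le_real (S : Finset ι) (A : ι → E) (x : E) (r : ι → ℝ) :
    dq S A x ≤ ‖x - ∑ s ∈ S, r s • A s‖ := by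
  apply le_of_forall_pos_le_add
  intro η hη
  have hd : DenseRange (fun q : ι → ℚ => fun i => (q i : ℝ)) :=
    DenseRange.piMap fun _ => Rat.denseRange_cast
  have hc : Continuous fun r : ι → ℝ => ‖x - ∑ s ∈ S, r s • A s‖ := by fun_prop
  obtain ⟨q, hq⟩ := hd.exists_mem_open
    (isOpen_Iio.preimage hc : IsOpen ((fun r : ι → ℝ => ‖x - ∑ s ∈ S, r s • A s‖) ⁻¹'
      Set.Iio (‖x - ∑ s ∈ S, r s • A s‖ + η)))
    ⟨r, by simp only [Set.mem_preimage, Set.mem_Iio]; linarith⟩
  exact (ciInf_le (dq_bdd S A x) q).trans (le_of_lt hq)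

omit [Fintype ι] in
theorem dq_update (S : Finset ι) (A : ι → E) (j : ι) (hj : j ∉ S) (x y : E) :
    dq S (Function.update A j x) y = dq S A y := by
  unfold dq
  congr 1
  funext q
  congr 2
  refine Finset.sum_congr rfl fun s hs => ?_
  rw [Function.update_of_ne]
  rintro rfl
  exact hj hs

omit [DecidableEq ι] in
theorem dq_meas [MeasurableSpace E] [BorelSpace E] [SecondCountableTopology E] (S : Finset ι) :
    Measurable fun p : (ι → E) × E => dq S p.1 p.2 := by
  unfold dq
  apply Measurable.iInf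
  intro q
  fun_prop

omit [DecidableEq ι] in
theorem dq_meas' [MeasurableSpace E] [BorelSpace E] [SecondCountableTopology E] (S : Finset ι)
    (j : ι) : Measurable fun A : ι → E => dq S A (A j) :=
  (dq_meas S).comp (measurable_id.prodMk (measurable_pi_apply j))

variable [FiniteDimensional ℝ E]

omit [Fintype ι] [DecidableEq ι] in
/-- a unit normal exists -/
theorem exists_normal (S : Finset ι) (A : ι → E) (hS : S.card < Module.finrank ℝ E) :
    ∃ u : E, ‖u‖ = 1 ∧ ∀ s ∈ S, ⟪u, A s⟫ = 0 := by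
  classical
  set U : Submodule ℝ E := Submodule.span ℝ ((S.image A : Finset E) : Set E) with hU
  have h1 : Module.finrank ℝ U < Module.finrank ℝ E :=
    lt_of_le_of_lt ((finrank_span_finset_le_card _).trans Finset.card_image_le) hS
  have h2 : 0 < Module.finrank ℝ Uᗮ := by
    have := Submodule.finrank_add_finrank_orthogonal U
    omega
  obtain ⟨v, hv⟩ : ∃ v : Uᗮ, v ≠ 0 := by
    have : Nontrivial Uᗮ := Module.finrank_pos_iff.1 h2
    exact exists_ne 0
  have hv0 : (v : E) ≠ 0 := fun h => hv (Subtype.ext h)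
  refine ⟨(‖(v : E)‖)⁻¹ • (v : E), ?_, fun s hs => ?_⟩
  · rw [norm_smul, norm_inv, norm_norm, inv_mul_cancel₀ (norm_ne_zero_iff.2 hv0)]
  · rw [real_inner_smul_left]
    have h3 : A s ∈ U := Submodule.subset_span (by
      rw [Finset.coe_image]; exact ⟨s, hs, rfl⟩)
    have h4 := (Submodule.mem_orthogonal' U (v : E)).1 v.2 (A s) h3
    rw [h4, mul_zero]

omit [Fintype ι] in
/-- if all distances to the others are positive, then the family is independent -/
theorem indep_of_dq (S : Finset ι) (A : ι → E) (h : ∀ s ∈ S, 0 < dq (S.erase s) A (A s)) :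
    LinearIndependent ℝ (fun s : S => A s) := by
  rw [linearIndependent_iff_notMem_span]
  rintro ⟨s, hs⟩ hmem
  have h1 : (fun s : S => A s) '' (Set.univ \ {⟨s, hs⟩}) = A '' ((S.erase s : Finset ι) : Set ι) := by
    ext y
    simp only [Set.mem_image, Finset.coe_erase]
    constructor
    · rintro ⟨⟨t, ht⟩, h1, rfl⟩
      exact ⟨t, ⟨ht, fun h2 => h1.2 (Subtype.ext h2)⟩, rfl⟩
    · rintro ⟨t, ⟨ht, h1⟩, rfl⟩
      exact ⟨⟨t, ht⟩, ⟨trivial, fun h2 => h1 (congrArg Subtype.val h2)⟩, rfl⟩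
  rw [h1, Submodule.mem_span_image_finset_iff_exists_fun'] at hmem
  obtain ⟨r, hr⟩ := hmem
  have h2 := dq_le_real (S.erase s) A (A s) r
  rw [hr, sub_self, norm_zero] at h2
  exact absurd (h s hs) (not_lt.2 h2)

omit [Fintype ι] [DecidableEq ι] in
/-- under independence the distance is given by the unit normal -/
theorem dq_eq (S : Finset ι) (A : ι → E) (hc : S.card + 1 = Module.finrank ℝ E)
    (hi : LinearIndependent ℝ (fun s : S => A s)) (u : E) (hu : ‖u‖ = 1)
    (hS : ∀ s ∈ S, ⟪u, A s⟫ = 0) (x : E) : dq S A x = |⟪u, x⟫| := by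
  classical
  refine le_antisymm ?_ (dq_ge S A x u hu hS)
  set U : Submodule ℝ E := Submodule.span ℝ (Set.range fun s : S => A s) with hU
  have h1 : Module.finrank ℝ U = S.card := by
    rw [hU, finrank_span_eq_card hi, Fintype.card_coe]
  have h2 : U ≤ (ℝ ∙ u)ᗮ := by
    rw [hU, Submodule.span_le]
    rintro _ ⟨s, rfl⟩
    rw [SetLike.mem_coe, Submodule.mem_orthogonal_singleton_iff_inner_right]
    exact hS s s.2
  have hu0 : u ≠ 0 := by
    intro h0
    rw [h0, norm_zero] at hu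
    norm_num at hu
  have h3 : Module.finrank ℝ (ℝ ∙ u)ᗮ = S.card := by
    have h4 := Submodule.finrank_add_finrank_orthogonal (ℝ ∙ u)
    rw [finrank_span_singleton hu0] at h4
    omega
  have h4 : U = (ℝ ∙ u)ᗮ := Submodule.eq_of_le_of_finrank_eq h2 (by rw [h1, h3])
  have h5 : x - ⟪u, x⟫ • u ∈ U := by
    rw [h4, Submodule.mem_orthogonal_singleton_iff_inner_right, inner_sub_right,
      real_inner_smul_right, real_inner_self_eq_norm_sq, hu]
    ring
  have h6 : Set.range (fun s : S => A s) = A '' (S : Set ι) := by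
    ext y
    simp
  rw [hU, h6, Submodule.mem_span_image_finset_iff_exists_fun'] at h5
  obtain ⟨r, hr⟩ := h5
  have h7 := dq_le_real S A x r
  rw [hr] at h7
  refine h7.trans (le_of_eq ?_)
  rw [sub_sub_cancel, norm_smul, hu, mul_one, Real.norm_eq_abs]

end Pool.Agent.X88.PR
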