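import Pool.Agent.X88.PR.Sst

set_option autoImplicit false
set_option linter.unusedSectionVars false

/-!
The lower bound for omega without powers of the dimension.
-/

open MeasureTheory ProbabilityTheory Filter Topology
open scoped ENNReal RealInnerProductSpace NNReal

namespace Pool.Agent.X88.PR

variable {ι : Type} [Fintype ι] [DecidableEq ι]

theorem sq_event (M : ℕ) (hM : 1 ≤ M) (T : Finset ι) (hT : T.card = M) (τ : ℝ) (hτ : 0 < τ) :
    PP ι (EuclideanSpace ℝ (Fin M))
      {A | ∃ x : EuclideanSpace ℝ (Fin M), ‖x‖ = 1 ∧ ∑ t ∈ T, ⟪A t, x⟫ ^ 2 < τ ^ 2} ≤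
      ENNReal.ofReal (14 * Real.sqrt M * τ) := by
  have hfr : Module.finrank ℝ (EuclideanSpace ℝ (Fin M)) = M := finrank_euclideanSpace_fin
  set μ := PP ι (EuclideanSpace ℝ (Fin M)) with hμ
  set γ := stdGaussian (EuclideanSpace ℝ (Fin M)) with hγ
  set B : Set (ι → EuclideanSpace ℝ (Fin M)) :=
    {A | ∃ x : EuclideanSpace ℝ (Fin M), ‖x‖ = 1 ∧ ∑ t ∈ T, ⟪A t, x⟫ ^ 2 < τ ^ 2} with hB
  set W : Set ((ι → EuclideanSpace ℝ (Fin M)) × EuclideanSpace ℝ (Fin M)) :=
    {p | ∃ x : EuclideanSpace ℝ (Fin M), ∑ t ∈ T, ⟪p.1 t, x⟫ ^ 2 < (2 * τ * ⟪p.2, x⟫) ^ 2} with hW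
  have hBm : MeasurableSet B := by
    have h1 : B = ⋃ x : EuclideanSpace ℝ (Fin M), ⋃ _ : ‖x‖ = 1,
        {A : ι → EuclideanSpace ℝ (Fin M) | ∑ t ∈ T, ⟪A t, x⟫ ^ 2 < τ ^ 2} := by
      ext A
      simp [hB]
    rw [h1]
    apply IsOpen.measurableSet
    apply isOpen_iUnion
    intro x
    apply isOpen_iUnion
    intro _
    exact isOpen_lt (by fun_prop) continuous_const
  have hWm : MeasurableSet W := by
    have h1 : W = ⋃ x : EuclideanSpace ℝ (Fin M),
        {p : (ι → EuclideanSpace ℝ (Fin M)) × EuclideanSpace ℝ (Fin M) |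
          ∑ t ∈ T, ⟪p.1 t, x⟫ ^ 2 < (2 * τ * ⟪p.2, x⟫) ^ 2} := by
      ext A
      simp [hW]
    rw [h1]
    apply IsOpen.measurableSet
    apply isOpen_iUnion
    intro x
    exact isOpen_lt (by fun_prop) (by fun_prop)
  -- first: sections over `A`
  have hA : ∀ A ∈ B, ENNReal.ofReal (1 / 2) ≤ γ (Prod.mk A ⁻¹' W) := by
    rintro A ⟨x, hx, hs⟩
    have h1 := form_le x hx 0 (1 / 2) (by norm_num)
    have hms : MeasurableSet {z : EuclideanSpace ℝ (Fin M) | |⟪x, z⟫ - 0| ≤ 1 / 2} :=
      measurableSet_le ((inner_meas x).sub measurable_const).abs measurable_const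
    have h2 : ({z : EuclideanSpace ℝ (Fin M) | |⟪x, z⟫ - 0| ≤ 1 / 2})ᶜ ⊆ Prod.mk A ⁻¹' W := by
      intro z hz
      simp only [Set.mem_compl_iff, Set.mem_ofPred_eq, sub_zero, not_le] at hz
      refine ⟨x, hs.trans_le ?_⟩
      have h3 : (1 / 2 : ℝ) ^ 2 ≤ ⟪z, x⟫ ^ 2 := by
        rw [real_inner_comm, ← sq_abs ⟪x, z⟫]
        exact pow_le_pow_left₀ (by norm_num) hz.le 2
      show τ ^ 2 ≤ (2 * τ * ⟪z, x⟫) ^ 2
      have h4 := mul_le_mul_of_nonneg_left h3 (show 0 ≤ 4 * τ ^ 2 by positivity)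
      nlinarith
    refine le_trans ?_ (measure_mono h2)
    have h3 := measureReal_compl (μ := γ) hms
    rw [← ENNReal.ofReal_toReal (measure_ne_top γ _)]
    apply ENNReal.ofReal_le_ofReal
    rw [measureReal_def] at h3
    rw [h3]
    have h5 : γ.real Set.univ = 1 := by
      rw [measureReal_def, measure_univ]
      rfl
    rw [h5]
    linarith
  have h1 : ENNReal.ofReal (1 / 2) * μ B ≤ (μ.prod γ) W := by
    rw [Measure.prod_apply hWm, ← lintegral_indicator_one hBm, ← lintegral_const_mul _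
      (measurable_one.indicator hBm)]
    refine lintegral_mono fun A => ?_
    by_cases hAB : A ∈ B
    · rw [Set.indicator_of_mem hAB, Pi.one_apply, mul_one]
      exact hA A hAB
    · rw [Set.indicator_of_notMem hAB, mul_zero]
      exact zero_le
  -- second: sections over `z`
  have h2 : (μ.prod γ) W ≤ ENNReal.ofReal (7 * Real.sqrt M * τ) := by
    rw [Measure.prod_apply_symm hWm]
    calc _ ≤ ∫⁻ z, ENNReal.ofReal (2 * τ) * ENNReal.ofReal ‖z‖ ∂γ := by
          refine lintegral_mono fun z => ?_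
          rw [← ENNReal.ofReal_mul (by positivity)]
          by_cases hz : z = 0
          · have h3 : (fun A : ι → EuclideanSpace ℝ (Fin M) => (A, z)) ⁻¹' W = ∅ := by
              ext A
              simp only [Set.mem_preimage, Set.mem_empty_iff_false, iff_false]
              rintro ⟨x, hx⟩
              simp only at hx
              rw [hz, inner_zero_left, mul_zero] at hx
              have : 0 ≤ ∑ t ∈ T, ⟪A t, x⟫ ^ 2 := Finset.sum_nonneg fun _ _ => sq_nonneg _
              norm_num at hx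
              linarith
            rw [h3, measure_empty]
            exact zero_le
          · have hz0 : 0 < ‖z‖ := norm_pos_iff.2 hz
            have hn : ‖‖z‖⁻¹ • z‖ = 1 := by
              rw [norm_smul, norm_inv, norm_norm, inv_mul_cancel₀ hz0.ne']
            refine (measure_mono ?_).trans (fix_z T (by rw [hT, hfr]) (‖z‖⁻¹ • z) hn
              (2 * τ * ‖z‖) (by positivity))
            rintro A ⟨x, hx⟩
            refine ⟨x, hx.trans_le (le_of_eq ?_)⟩
            show (2 * τ * ⟪z, x⟫) ^ 2 = _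
            rw [real_inner_smul_left]
            congr 1
            field_simp
      _ = ENNReal.ofReal (2 * τ) * ∫⁻ z, ENNReal.ofReal ‖z‖ ∂γ := by
          rw [lintegral_const_mul _ (by fun_prop)]
      _ ≤ ENNReal.ofReal (2 * τ) * ENNReal.ofReal (7 / 2 * Real.sqrt M) :=
          mul_le_mul' le_rfl (norm_mean M hM hfr)
      _ = _ := by
          rw [← ENNReal.ofReal_mul (by positivity)]
          congr 1
          ring
  have h3 := h1.trans h2
  have h4 : μ B = ENNReal.ofReal 2 * (ENNReal.ofReal (1 / 2) * μ B) := by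
    rw [← mul_assoc, ← ENNReal.ofReal_mul (by norm_num)]
    norm_num
  rw [h4]
  refine (mul_le_mul' le_rfl h3).trans (le_of_eq ?_)
  rw [← ENNReal.ofReal_mul (by norm_num)]
  congr 1
  ring

theorem low_core3 (M : ℕ) (hM : 1 ≤ M) (δ : ℝ) (hδ : 0 < δ) :
    PP (Fin (2 * M - 1)) (EuclideanSpace ℝ (Fin M))
      {A | om A < δ * (1 / 4) ^ M} ≤ ENNReal.ofReal (14 * δ) := by
  have hfr : Module.finrank ℝ (EuclideanSpace ℝ (Fin M)) = M := finrank_euclideanSpace_fin
  have hM0 : (0 : ℝ) < M := by exact_mod_cast hM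
  have hs0 : 0 < Real.sqrt M := Real.sqrt_pos.2 hM0
  have : Nonempty (Fin M) := ⟨⟨0, hM⟩⟩
  set τ := δ * (1 / 4 : ℝ) ^ M with hτ
  have hτ0 : 0 < τ := by positivity
  set G := Finset.powersetCard M (Finset.univ : Finset (Fin (2 * M - 1))) with hG
  have hsub : {A : Fin (2 * M - 1) → EuclideanSpace ℝ (Fin M) | om A < τ} ⊆
      (⋃ T ∈ G, ⋃ t ∈ T, {A | dq (T.erase t) A (A t) ≤ 0}) ∪
      ⋃ T ∈ G, {A | ∃ x : EuclideanSpace ℝ (Fin M), ‖x‖ = 1 ∧
        ∑ t ∈ T, ⟪A t, x⟫ ^ 2 < τ ^ 2} := by
    intro A hA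
    by_contra hcon
    simp only [Set.mem_union, Set.mem_iUnion, Set.mem_ofPred_eq, not_or, not_exists, not_le,
      exists_prop, not_and] at hcon
    obtain ⟨c1, c2⟩ := hcon
    rw [Set.mem_ofPred_eq] at hA
    have hge : τ ≤ om A := by
      apply le_csInf
      · refine ⟨_, Finset.univ, ?_, rfl⟩
        have : A '' {i | i ∉ (Finset.univ : Finset (Fin (2 * M - 1)))} = ∅ := by simp
        rw [Set.mem_ofPred_eq, this, Submodule.span_empty, finrank_bot, hfr]
        exact hM
      · rintro _ ⟨S, hS, rfl⟩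
        rw [Set.mem_ofPred_eq, hfr] at hS
        have hcS : M ≤ S.card := by
          by_contra hcon
          have h1 : M ≤ Sᶜ.card := by
            rw [Finset.card_compl, Fintype.card_fin]
            omega
          obtain ⟨T, hTS, hTc⟩ := Finset.exists_subset_card_eq h1
          have hTG : T ∈ G := by
            rw [hG, Finset.mem_powersetCard]
            exact ⟨Finset.subset_univ _, hTc⟩
          have hi : LinearIndependent ℝ (fun s : T => A s) :=
            indep_of_dq T A fun s hs => c1 T hTG s hs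
          have h2 := finrank_span_eq_card hi
          rw [Fintype.card_coe, hTc] at h2
          have h3 : Submodule.span ℝ (Set.range fun s : T => A s) ≤
              Submodule.span ℝ (A '' {i | i ∉ S}) := by
            apply Submodule.span_mono
            rintro _ ⟨s, rfl⟩
            exact ⟨s, Finset.mem_compl.1 (hTS s.2), rfl⟩
          have h4 := Submodule.finrank_mono h3
          omega
        obtain ⟨T, hTS, hTc⟩ := Finset.exists_subset_card_eq hcS
        have hTG : T ∈ G := by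
          rw [hG, Finset.mem_powersetCard]
          exact ⟨Finset.subset_univ _, hTc⟩
        have : Nonempty (Metric.sphere (0 : EuclideanSpace ℝ (Fin M)) 1) := by
          obtain ⟨v, hv⟩ := exists_norm_eq (E := EuclideanSpace ℝ (Fin M)) zero_le_one
          exact ⟨⟨v, by rw [mem_sphere_zero_iff_norm]; exact hv⟩⟩
        apply le_ciInf
        intro x
        have h5 := c2 T hTG (x : EuclideanSpace ℝ (Fin M)) (mem_sphere_zero_iff_norm.1 x.2)
        rw [not_lt] at h5
        apply Real.le_sqrt_of_sq_le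
        exact h5.trans (Finset.sum_le_sum_of_subset_of_nonneg hTS fun _ _ _ => sq_nonneg _)
    linarith
  have hz : PP (Fin (2 * M - 1)) (EuclideanSpace ℝ (Fin M))
      (⋃ T ∈ G, ⋃ t ∈ T, {A | dq (T.erase t) A (A t) ≤ 0}) = 0 := by
    rw [← nonpos_iff_eq_zero]
    refine (measure_biUnion_finset_le _ _).trans (le_of_eq (Finset.sum_eq_zero fun S hS => ?_))
    rw [← nonpos_iff_eq_zero]
    refine (measure_biUnion_finset_le _ _).trans (le_of_eq (Finset.sum_eq_zero fun s hs => ?_))
    rw [← nonpos_iff_eq_zero]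
    have h1 := dq_small (E := EuclideanSpace ℝ (Fin M)) (S.erase s) (by
      rw [Finset.card_erase_of_mem hs, hfr, (Finset.mem_powersetCard.1 hS).2]
      omega) s (Finset.notMem_erase s S) 0 le_rfl
    simpa using h1
  refine (measure_mono hsub).trans ((measure_union_le _ _).trans ?_)
  rw [hz, zero_add]
  refine (measure_biUnion_finset_le _ _).trans ?_
  refine (Finset.sum_le_sum fun T hT => sq_event M hM T (Finset.mem_powersetCard.1 hT).2 τ
    hτ0).trans ?_
  rw [Finset.sum_const, nsmul_eq_mul, ← ENNReal.ofReal_natCast,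
    ← ENNReal.ofReal_mul (Nat.cast_nonneg _)]
  apply ENNReal.ofReal_le_ofReal
  rw [Finset.card_powersetCard, Finset.card_univ, Fintype.card_fin]
  have h2 := choose_le2 M hM
  have h4 : (1 / 4 : ℝ) ^ M * 4 ^ M = 1 := by
    rw [← mul_pow]
    norm_num
  calc ((2 * M - 1).choose M : ℝ) * (14 * Real.sqrt M * τ)
      = (Real.sqrt M * ((2 * M - 1).choose M : ℝ)) * (14 * (δ * (1 / 4) ^ M)) := by
        rw [hτ]
        ring
    _ ≤ 4 ^ M * (14 * (δ * (1 / 4) ^ M)) := mul_le_mul_of_nonneg_right h2 (by positivity)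
    _ = 14 * δ * ((1 / 4 : ℝ) ^ M * 4 ^ M) := by ring
    _ = 14 * δ := by rw [h4, mul_one]

end Pool.Agent.X88.PR
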