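import Pool.Agent.X88.PR.Fin2

set_option autoImplicit false
set_option linter.unusedSectionVars false

/-!
Sharper powers of the dimension.
-/

open MeasureTheory ProbabilityTheory Filter Topology
open scoped ENNReal RealInnerProductSpace NNReal

namespace Pool.Agent.X88.PR

theorem cb_low (n : ℕ) (hn : 1 ≤ n) : 16 ^ n ≤ n.centralBinom ^ 2 * (4 * n) := by
  induction n, hn using Nat.le_induction with
  | base => decide
  | succ n hn ih =>
    have h1 := Nat.succ_mul_centralBinom_succ n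
    have h2 : (n + 1) ^ 2 * 16 ^ (n + 1) ≤
        (n + 1) ^ 2 * ((n + 1).centralBinom ^ 2 * (4 * (n + 1))) := by
      calc (n + 1) ^ 2 * 16 ^ (n + 1) = (n + 1) ^ 2 * 16 * 16 ^ n := by ring
        _ ≤ (n + 1) ^ 2 * 16 * (n.centralBinom ^ 2 * (4 * n)) := Nat.mul_le_mul_left _ ih
        _ = 16 * n.centralBinom ^ 2 * (n + 1) * (4 * n * (n + 1)) := by ring
        _ ≤ 16 * n.centralBinom ^ 2 * (n + 1) * ((2 * n + 1) ^ 2) := by
          apply Nat.mul_le_mul_left
          nlinarith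
        _ = (2 * (2 * n + 1) * n.centralBinom) ^ 2 * (4 * (n + 1)) := by ring
        _ = ((n + 1) * (n + 1).centralBinom) ^ 2 * (4 * (n + 1)) := by rw [h1]
        _ = _ := by ring
    exact Nat.le_of_mul_le_mul_left h2 (by positivity)

theorem cb_up (n : ℕ) : n.centralBinom ^ 2 * (2 * n + 1) ≤ 16 ^ n := by
  induction n with
  | zero => simp
  | succ n ih =>
    have h1 := Nat.succ_mul_centralBinom_succ n
    have h2 : (n + 1) ^ 2 * ((n + 1).centralBinom ^ 2 * (2 * (n + 1) + 1)) ≤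
        (n + 1) ^ 2 * 16 ^ (n + 1) := by
      calc (n + 1) ^ 2 * ((n + 1).centralBinom ^ 2 * (2 * (n + 1) + 1))
          = ((n + 1) * (n + 1).centralBinom) ^ 2 * (2 * n + 3) := by ring
        _ = (2 * (2 * n + 1) * n.centralBinom) ^ 2 * (2 * n + 3) := by rw [h1]
        _ = 4 * ((2 * n + 1) * (2 * n + 3)) * (n.centralBinom ^ 2 * (2 * n + 1)) := by ring
        _ ≤ 4 * (4 * (n + 1) ^ 2) * (n.centralBinom ^ 2 * (2 * n + 1)) := by
          apply Nat.mul_le_mul_right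
          apply Nat.mul_le_mul_left
          nlinarith
        _ ≤ 4 * (4 * (n + 1) ^ 2) * 16 ^ n := Nat.mul_le_mul_left _ ih
        _ = _ := by ring
    exact Nat.le_of_mul_le_mul_left h2 (by positivity)

theorem choose_ge2 (M κ : ℕ) (h1 : 1 ≤ κ) (h2 : κ < M) :
    (4 : ℝ) ^ M ≤ 4 ^ κ * (2 * Real.sqrt M * ((2 * M - 1 - κ).choose (M - 1) : ℝ)) := by
  have h3 := cb_low (M - κ) (by omega)
  have h4 : Nat.centralBinom (M - κ) ≤ (2 * M - 1 - κ).choose (M - 1) := by
    rw [Nat.centralBinom_eq_two_mul_choose]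
    have h5 : (2 * M - 1 - κ).choose (M - 1) = (2 * M - 1 - κ).choose (M - κ) := by
      apply Nat.choose_symm_of_eq_add
      omega
    rw [h5]
    exact Nat.choose_le_choose _ (by omega)
  set c := (2 * M - 1 - κ).choose (M - 1) with hc
  have h5 : 16 ^ (M - κ) ≤ c ^ 2 * (4 * M) :=
    h3.trans (Nat.mul_le_mul (Nat.pow_le_pow_left h4 2) (by omega))
  have h6 : ((4 : ℝ) ^ (M - κ)) ^ 2 ≤ (2 * Real.sqrt M * c) ^ 2 := by
    have h7 : ((16 : ℝ)) ^ (M - κ) ≤ (c : ℝ) ^ 2 * (4 * M) := by exact_mod_cast h5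
    have h8 : ((4 : ℝ) ^ (M - κ)) ^ 2 = 16 ^ (M - κ) := by
      rw [← pow_mul, mul_comm, pow_mul]
      norm_num
    rw [h8, mul_pow, mul_pow, Real.sq_sqrt (Nat.cast_nonneg _)]
    linarith
  have h7 : (4 : ℝ) ^ (M - κ) ≤ 2 * Real.sqrt M * c :=
    le_of_sq_le_sq h6 (by positivity)
  calc (4 : ℝ) ^ M = 4 ^ κ * 4 ^ (M - κ) := by rw [← pow_add]; congr 1; omega
    _ ≤ _ := mul_le_mul_of_nonneg_left h7 (by positivity)

theorem choose_le2 (M : ℕ) (hM : 1 ≤ M) :
    Real.sqrt M * ((2 * M - 1).choose M : ℝ) ≤ 4 ^ M := by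
  have h1 : (2 * M - 1).choose M ≤ M.centralBinom := by
    rw [Nat.centralBinom_eq_two_mul_choose]
    exact Nat.choose_le_choose _ (by omega)
  have h2 : M * ((2 * M - 1).choose M) ^ 2 ≤ 16 ^ M := by
    calc M * ((2 * M - 1).choose M) ^ 2 ≤ (2 * M + 1) * M.centralBinom ^ 2 :=
          Nat.mul_le_mul (by omega) (Nat.pow_le_pow_left h1 2)
      _ = M.centralBinom ^ 2 * (2 * M + 1) := by ring
      _ ≤ _ := cb_up M
  have h3 : (Real.sqrt M * ((2 * M - 1).choose M : ℝ)) ^ 2 ≤ ((4 : ℝ) ^ M) ^ 2 := by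
    rw [mul_pow, Real.sq_sqrt (Nat.cast_nonneg _), ← pow_mul, mul_comm M 2, pow_mul]
    have : (M : ℝ) * ((2 * M - 1).choose M : ℝ) ^ 2 ≤ 16 ^ M := by exact_mod_cast h2
    norm_num
    exact this
  exact le_of_sq_le_sq h3 (by positivity)

section

variable {ι : Type} [Fintype ι] [DecidableEq ι]

theorem low_bound2 (M : ℕ) (hM : 1 ≤ M) (hι : Fintype.card ι = 2 * M - 1) (δ : ℝ) (hδ : 0 < δ) :
    PP ι (EuclideanSpace ℝ (Fin M)) {A | om A < δ / Real.sqrt M} ≤
      ENNReal.ofReal (((2 * M - 1).choose M : ℝ) * (M * δ)) := by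
  set E := EuclideanSpace ℝ (Fin M) with hE
  have hfr : Module.finrank ℝ E = M := finrank_euclideanSpace_fin
  have hM0 : (0 : ℝ) < M := by exact_mod_cast hM
  have : Nonempty (Fin M) := ⟨⟨0, hM⟩⟩
  have : Nontrivial E := by
    rw [← Module.finrank_pos_iff (R := ℝ), hfr]
    exact hM
  set G := Finset.powersetCard M (Finset.univ : Finset ι) with hG
  have hsub : {A : ι → E | om A < δ / Real.sqrt M} ⊆
      ⋃ T ∈ G, ⋃ t ∈ T, {A : ι → E | dq (T.erase t) A (A t) ≤ δ} := by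
    intro A hA
    by_contra hcon
    simp only [Set.mem_iUnion, Set.mem_ofPred_eq, not_exists, not_le, exists_prop, not_and] at hcon
    have h1 := om_ge A (by rw [hfr]; omega) δ hδ (by
      intro T hT t ht
      exact hcon T (by rw [hG, Finset.mem_powersetCard]; exact ⟨Finset.subset_univ _, by
        rw [hT, hfr]⟩) t ht)
    rw [hfr] at h1
    exact absurd hA (not_lt.2 h1)
  refine (measure_mono hsub).trans ?_
  calc _ ≤ ∑ T ∈ G, ∑ t ∈ T, ENNReal.ofReal δ := by
        refine (measure_biUnion_finset_le _ _).trans (Finset.sum_le_sum fun T hT => ?_)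
        refine (measure_biUnion_finset_le _ _).trans (Finset.sum_le_sum fun t ht => ?_)
        have hTc := (Finset.mem_powersetCard.1 hT).2
        exact dq_small (E := E) (T.erase t) (by
          rw [Finset.card_erase_of_mem ht, hfr, hTc]
          omega) t (Finset.notMem_erase t T) δ hδ.le
    _ = ∑ T ∈ G, ENNReal.ofReal (M * δ) := by
        refine Finset.sum_congr rfl fun T hT => ?_
        rw [Finset.sum_const, (Finset.mem_powersetCard.1 hT).2, nsmul_eq_mul,
          ENNReal.ofReal_mul (by positivity), ENNReal.ofReal_natCast]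
    _ = ENNReal.ofReal (G.card * (M * δ)) := by
        rw [Finset.sum_const, nsmul_eq_mul, ← ENNReal.ofReal_natCast,
          ← ENNReal.ofReal_mul (Nat.cast_nonneg _)]
    _ ≤ _ := by
        rw [hG, Finset.card_powersetCard, Finset.card_univ, hι]

end

theorem low_core2 (M : ℕ) (hM : 1 ≤ M) (δ : ℝ) (hδ : 0 < δ) :
    PP (Fin (2 * M - 1)) (EuclideanSpace ℝ (Fin M))
      {A | om A < δ * (1 / 4) ^ M / M} ≤ ENNReal.ofReal δ := by
  have hM0 : (0 : ℝ) < M := by exact_mod_cast hM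
  have hs0 : 0 < Real.sqrt M := Real.sqrt_pos.2 hM0
  have hs : Real.sqrt M * Real.sqrt M = M := Real.mul_self_sqrt hM0.le
  have h1 := low_bound2 (ι := Fin (2 * M - 1)) M hM (Fintype.card_fin _)
    (δ * (1 / 4) ^ M / Real.sqrt M) (by positivity)
  have h3 : δ * (1 / 4) ^ M / Real.sqrt M / Real.sqrt M = δ * (1 / 4) ^ M / M := by
    rw [div_div, hs]
  rw [h3] at h1
  refine h1.trans (ENNReal.ofReal_le_ofReal ?_)
  have h2 := choose_le2 M hM
  have h4 : (1 / 4 : ℝ) ^ M * 4 ^ M = 1 := by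
    rw [← mul_pow]
    norm_num
  have h5 : (M : ℝ) * (δ * (1 / 4) ^ M / Real.sqrt M) = Real.sqrt M * (δ * (1 / 4) ^ M) := by
    rw [mul_div_assoc', div_eq_iff hs0.ne']
    calc (M : ℝ) * (δ * (1 / 4) ^ M) = (Real.sqrt M * Real.sqrt M) * (δ * (1 / 4) ^ M) := by rw [hs]
      _ = _ := by ring
  rw [h5]
  calc ((2 * M - 1).choose M : ℝ) * (Real.sqrt M * (δ * (1 / 4) ^ M))
      = (Real.sqrt M * ((2 * M - 1).choose M : ℝ)) * (δ * (1 / 4) ^ M) := by ring
    _ ≤ 4 ^ M * (δ * (1 / 4) ^ M) := mul_le_mul_of_nonneg_right h2 (by positivity)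
    _ = δ * ((1 / 4 : ℝ) ^ M * 4 ^ M) := by ring
    _ = δ := by rw [h4, mul_one]

end Pool.Agent.X88.PR
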