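import Pool.Agent.X88.PR.Near

set_option autoImplicit false
set_option linter.unusedSectionVars false

/-!
Pairs of hyperplanes which differ in one row, and the sharper upper bound for omega.
-/

open MeasureTheory ProbabilityTheory Filter Topology
open scoped ENNReal RealInnerProductSpace NNReal

namespace Pool.Agent.X88.PR

variable {ι : Type} [Fintype ι] [DecidableEq ι]

/-- pointwise bound for a pair which differs in the row `b` -/
theorem near_pt (M : ℕ) (hM : 1 ≤ M) (ε : ℝ) (hε : 0 < ε) (A : ι → EuclideanSpace ℝ (Fin M))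
    (S T : Finset ι) (hS : S.card < M) (hT : T.card < M) (b : ι) (hb : b ∈ T \ S) :
    ∃ v : EuclideanSpace ℝ (Fin M), ‖v‖ = 1 ∧ ∀ a, qq ε (Function.update A b a) S T ≤
      ENNReal.ofReal (ε * (Real.sqrt ε * Real.sqrt (2 * Real.sqrt M))) * hw |⟪v, a⟫| +
      ENNReal.ofReal ε * ({a | 4 * (M : ℝ) ≤ ‖a‖ ^ 2}.indicator 1 a) := by
  have hfr : Module.finrank ℝ (EuclideanSpace ℝ (Fin M)) = M := finrank_euclideanSpace_fin
  have hM0 : (0 : ℝ) < M := by exact_mod_cast hM
  have hsM : 0 < Real.sqrt M := Real.sqrt_pos.2 hM0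
  rw [Finset.mem_sdiff] at hb
  obtain ⟨v, hv, hvS⟩ := exists_normal S A (by rw [hfr]; exact hS)
  refine ⟨v, hv, fun a => ?_⟩
  set A' := Function.update A b a with hA'
  have hqε := qq_le ε hε.le A' S T (by rw [hfr]; exact hS)
  by_cases hbig : 4 * (M : ℝ) ≤ ‖a‖ ^ 2
  · rw [Set.indicator_of_mem (by exact hbig), Pi.one_apply, mul_one]
    exact hqε.trans le_add_self
  · rw [Set.indicator_of_notMem (by exact hbig), mul_zero, add_zero]
    have hna : ‖a‖ ≤ 2 * Real.sqrt M := by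
      have h1 : Real.sqrt M * Real.sqrt M = M := Real.mul_self_sqrt hM0.le
      have h2 : 0 ≤ ‖a‖ := norm_nonneg _
      nlinarith
    obtain ⟨u, hu, huT⟩ := exists_normal T A' (by rw [hfr]; exact hT)
    have hua : ⟪u, a⟫ = 0 := by
      have := huT b hb.1
      rwa [hA', Function.update_self] at this
    by_cases z : ⟪v, a⟫ = 0
    · rw [z, abs_zero, hw_zero, ENNReal.mul_top]
      · exact le_top
      · rw [Ne, ENNReal.ofReal_eq_zero, not_le]
        positivity
    have hg : 0 < |⟪v, a⟫| := abs_pos.2 z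
    have h1 := sin_bound v u a hv hu hua
    rw [real_inner_comm u v] at h1
    set s := Real.sqrt (1 - ⟪u, v⟫ ^ 2) with hs
    have h2 : |⟪v, a⟫| ≤ 2 * Real.sqrt M * s :=
      h1.trans (mul_le_mul_of_nonneg_right hna (Real.sqrt_nonneg _))
    have hs0 : 0 < s := by
      by_contra hcon
      have h3 : s = 0 := le_antisymm (not_lt.1 hcon) (Real.sqrt_nonneg _)
      rw [h3, mul_zero] at h2
      linarith
    have h3 := two_le u v hu hv hs0 ε hε.le
    have h4 : {x : EuclideanSpace ℝ (Fin M) | dq S A' x ≤ ε ∧ dq T A' x ≤ ε} ⊆ {x | |⟪u, x⟫| ≤ ε ∧ |⟪v, x⟫| ≤ ε} := by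
      rintro x ⟨hx1, hx2⟩
      refine ⟨(dq_ge T A' x u hu huT).trans hx2, (dq_ge S A' x v hv fun t ht => ?_).trans hx1⟩
      have e1 : t ≠ b := by rintro rfl; exact hb.2 ht
      rw [hA', Function.update_of_ne e1]
      exact hvS t ht
    have h5 : qq ε A' S T ≤ ENNReal.ofReal (ε * (ε / s)) := by
      refine (measure_mono h4).trans ?_
      rw [measureReal_def] at h3
      rw [← ENNReal.ofReal_toReal (measure_ne_top (stdGaussian (EuclideanSpace ℝ (Fin M))) _)]
      exact ENNReal.ofReal_le_ofReal h3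
    have h6 : qq ε A' S T ≤ ENNReal.ofReal (min ε (ε * (ε / s))) := by
      rw [ENNReal.ofReal_min]
      exact le_min hqε h5
    refine h6.trans ?_
    rw [hw_pos_eq _ hg, ← ENNReal.ofReal_mul (by positivity)]
    apply ENNReal.ofReal_le_ofReal
    -- min (ε, ε² / s) ≤ ε^{3/2} s^{-1/2}
    set R := 2 * Real.sqrt M with hR
    have hR0 : 0 < R := by positivity
    have hsg : 0 < Real.sqrt |⟪v, a⟫| := Real.sqrt_pos.2 hg
    have h7 : Real.sqrt |⟪v, a⟫| ≤ Real.sqrt R * Real.sqrt s := by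
      rw [← Real.sqrt_mul hR0.le]
      exact Real.sqrt_le_sqrt h2
    have hss : 0 < Real.sqrt s := Real.sqrt_pos.2 hs0
    have h8 : min ε (ε * (ε / s)) ≤ ε * (Real.sqrt ε / Real.sqrt s) := by
      by_cases hεs : ε ≤ s
      · refine (min_le_right _ _).trans ?_
        apply mul_le_mul_of_nonneg_left _ hε.le
        have h9 : Real.sqrt ε / Real.sqrt s ≤ 1 := by
          rw [div_le_one hss]
          exact Real.sqrt_le_sqrt hεs
        have h10 : ε / s = (Real.sqrt ε / Real.sqrt s) * (Real.sqrt ε / Real.sqrt s) := by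
          rw [div_mul_div_comm, Real.mul_self_sqrt hε.le, Real.mul_self_sqrt hs0.le]
        rw [h10]
        have h11 : 0 ≤ Real.sqrt ε / Real.sqrt s := by positivity
        nlinarith
      · refine (min_le_left _ _).trans ?_
        have h9 : 1 ≤ Real.sqrt ε / Real.sqrt s := by
          rw [one_le_div hss]
          exact Real.sqrt_le_sqrt (not_le.1 hεs).le
        nlinarith
    refine h8.trans ?_
    have h9 : (Real.sqrt s)⁻¹ ≤ Real.sqrt R * (Real.sqrt |⟪v, a⟫|)⁻¹ := by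
      rw [← div_eq_mul_inv, inv_eq_one_div, div_le_div_iff₀ hss hsg]
      linarith
    calc ε * (Real.sqrt ε / Real.sqrt s) = ε * Real.sqrt ε * (Real.sqrt s)⁻¹ := by ring
      _ ≤ ε * Real.sqrt ε * (Real.sqrt R * (Real.sqrt |⟪v, a⟫|)⁻¹) :=
        mul_le_mul_of_nonneg_left h9 (by positivity)
      _ = _ := by ring

theorem near_mean (M : ℕ) (hM : 1 ≤ M) (ε : ℝ) (hε : 0 < ε)
    (S T : Finset ι) (hS : S.card < M) (hT : T.card < M) (b : ι) (hb : b ∈ T \ S) :
    ∫⁻ A, qq ε A S T ∂(PP ι (EuclideanSpace ℝ (Fin M))) ≤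
      ENNReal.ofReal (ε * (4 * (Real.sqrt ε * Real.sqrt (2 * Real.sqrt M)) + (3 / 5) ^ M)) := by
  rw [lint_resample (stdGaussian _) b _ (qq_meas ε S T)]
  calc _ ≤ ∫⁻ _A, ENNReal.ofReal (ε * (4 * (Real.sqrt ε * Real.sqrt (2 * Real.sqrt M)) +
        (3 / 5) ^ M)) ∂(PP ι (EuclideanSpace ℝ (Fin M))) := by
        refine lintegral_mono fun A => ?_
        obtain ⟨v, hv, hq⟩ := near_pt M hM ε hε A S T hS hT b hb
        have hmset : MeasurableSet {a : EuclideanSpace ℝ (Fin M) | 4 * (M : ℝ) ≤ ‖a‖ ^ 2} :=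
          measurableSet_le measurable_const (measurable_norm.pow_const 2)
        have hm1 : Measurable fun a : EuclideanSpace ℝ (Fin M) => hw |⟪v, a⟫| :=
          hw_meas.comp (inner_meas v).abs
        have hm2 : Measurable fun a : EuclideanSpace ℝ (Fin M) =>
            ({a : EuclideanSpace ℝ (Fin M) | 4 * (M : ℝ) ≤ ‖a‖ ^ 2}.indicator
              (1 : EuclideanSpace ℝ (Fin M) → ℝ≥0∞) a) := measurable_one.indicator hmset
        refine (lintegral_mono hq).trans ?_
        rw [lintegral_add_left (hm1.const_mul _), lintegral_const_mul _ hm1,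
          lintegral_const_mul _ hm2, lintegral_indicator_one hmset]
        have h1 := norm_big M
        rw [measureReal_def] at h1
        have h2 : stdGaussian (EuclideanSpace ℝ (Fin M)) {a | 4 * (M : ℝ) ≤ ‖a‖ ^ 2} ≤
            ENNReal.ofReal ((3 / 5) ^ M) := by
          rw [← ENNReal.ofReal_toReal (measure_ne_top (stdGaussian (EuclideanSpace ℝ (Fin M))) _)]
          exact ENNReal.ofReal_le_ofReal h1
        refine (add_le_add (mul_le_mul' le_rfl (form_hw v hv)) (mul_le_mul' le_rfl h2)).trans ?_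
        rw [show (4 : ℝ≥0∞) = ENNReal.ofReal 4 by simp, ← ENNReal.ofReal_mul (by positivity),
          ← ENNReal.ofReal_mul hε.le, ← ENNReal.ofReal_add (by positivity) (by positivity)]
        apply ENNReal.ofReal_le_ofReal
        apply le_of_eq
        ring
    _ = _ := by rw [lintegral_const, measure_univ, mul_one]

/-- the mean of the joint probabilities, second form -/
theorem Q_mean2 (M : ℕ) (hM : 1 ≤ M) (F : Finset (Finset ι)) (ε D : ℝ) (hε : 0 < ε)
    (hcard : ∀ S ∈ F, S.card + 1 = M)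
    (hD : ∀ S ∈ F, (((F.filter fun T => ¬ 2 ≤ (T \ S).card).card : ℕ) : ℝ) ≤ D)
    (hεD : 1 + D * (4 * (Real.sqrt ε * Real.sqrt (2 * Real.sqrt M)) + (3 / 5) ^ M) ≤
      ε * F.card) :
    ∫⁻ A, ∑ S ∈ F, ∑ T ∈ F, qq ε A S T ∂(PP ι (EuclideanSpace ℝ (Fin M))) ≤
      ENNReal.ofReal (290 * (ε * F.card) ^ 2) := by
  have hfr : Module.finrank ℝ (EuclideanSpace ℝ (Fin M)) = M := finrank_euclideanSpace_fin
  set ρ := 4 * (Real.sqrt ε * Real.sqrt (2 * Real.sqrt M)) + (3 / 5) ^ M with hρ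
  have hρ0 : 0 ≤ ρ := by positivity
  rw [lintegral_finsetSum _ fun S _ => Finset.measurable_sum _ fun T _ => qq_meas ε S T]
  have hrow : ∀ S ∈ F, ∫⁻ A, ∑ T ∈ F, qq ε A S T ∂(PP ι (EuclideanSpace ℝ (Fin M))) ≤
      ENNReal.ofReal (290 * ε ^ 2 * F.card) := by
    intro S hS
    rw [lintegral_finsetSum _ fun T _ => qq_meas ε S T]
    have h1 : ∀ T ∈ F, ∫⁻ A, qq ε A S T ∂(PP ι (EuclideanSpace ℝ (Fin M))) ≤
        ENNReal.ofReal ((if T = S then ε else 0) + (if ¬ 2 ≤ (T \ S).card then ε * ρ else 0) +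
          289 * ε ^ 2) := by
      intro T hT
      have hcS := hcard S hS
      have hcT := hcard T hT
      by_cases hc : 2 ≤ (T \ S).card
      · obtain ⟨a, ha, b, hb, hab⟩ := Finset.one_lt_card.1 hc
        have hTS : T ≠ S := by
          rintro rfl
          simp at hc
        rw [if_neg (not_not.2 hc), if_neg hTS, zero_add, zero_add]
        refine (qq_mean ε hε S T (by omega) (by omega) a b ha hb hab).trans (le_of_eq ?_)
        rw [ENNReal.ofReal_mul (by norm_num)]
        norm_num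
      · rw [if_pos hc]
        by_cases hTS : T = S
        · rw [if_pos hTS]
          calc ∫⁻ A, qq ε A S T ∂(PP ι (EuclideanSpace ℝ (Fin M)))
              ≤ ∫⁻ _A, ENNReal.ofReal ε ∂(PP ι (EuclideanSpace ℝ (Fin M))) :=
                lintegral_mono fun A => qq_le ε hε.le A S T (by omega)
            _ = ENNReal.ofReal ε := by rw [lintegral_const, measure_univ, mul_one]
            _ ≤ _ := ENNReal.ofReal_le_ofReal (by nlinarith [sq_nonneg ε, mul_nonneg hε.le hρ0])
        · rw [if_neg hTS, zero_add]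
          have hne : (T \ S).Nonempty := by
            rw [Finset.sdiff_nonempty]
            intro hsub
            exact hTS (Finset.eq_of_subset_of_card_le hsub (by omega))
          obtain ⟨b, hb⟩ := hne
          refine (near_mean M hM ε hε S T (by omega) (by omega) b hb).trans ?_
          exact ENNReal.ofReal_le_ofReal (by nlinarith [sq_nonneg ε])
    refine (Finset.sum_le_sum h1).trans ?_
    rw [← ENNReal.ofReal_sum_of_nonneg fun T _ => by split_ifs <;> positivity]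
    apply ENNReal.ofReal_le_ofReal
    rw [Finset.sum_add_distrib, Finset.sum_add_distrib, ← Finset.sum_filter, ← Finset.sum_filter,
      Finset.sum_const, Finset.sum_const, Finset.sum_const, nsmul_eq_mul, nsmul_eq_mul,
      nsmul_eq_mul]
    have h6 : ((F.filter fun T => T = S).card : ℝ) ≤ 1 := by
      have : (F.filter fun T => T = S).card ≤ 1 := by
        rw [Finset.filter_eq']
        split_ifs <;> simp
      exact_mod_cast this
    have h7 := mul_le_mul_of_nonneg_right (hD S hS) (mul_nonneg hε.le hρ0)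
    have h8 := mul_le_mul_of_nonneg_right h6 hε.le
    have h9 := mul_le_mul_of_nonneg_left hεD hε.le
    nlinarith
  refine (Finset.sum_le_sum hrow).trans ?_
  rw [Finset.sum_const, nsmul_eq_mul, ← ENNReal.ofReal_natCast,
    ← ENNReal.ofReal_mul (Nat.cast_nonneg _)]
  apply ENNReal.ofReal_le_ofReal
  apply le_of_eq
  ring

theorem Q_markov2 (M : ℕ) (hM : 1 ≤ M) (F : Finset (Finset ι)) (hF : 0 < F.card) (ε D Λ : ℝ)
    (hε : 0 < ε) (hΛ : 0 < Λ) (hcard : ∀ S ∈ F, S.card + 1 = M)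
    (hD : ∀ S ∈ F, (((F.filter fun T => ¬ 2 ≤ (T \ S).card).card : ℕ) : ℝ) ≤ D)
    (hεD : 1 + D * (4 * (Real.sqrt ε * Real.sqrt (2 * Real.sqrt M)) + (3 / 5) ^ M) ≤
      ε * F.card) :
    PP ι (EuclideanSpace ℝ (Fin M))
      {A | ENNReal.ofReal (Λ * (ε * F.card) ^ 2) < ∑ S ∈ F, ∑ T ∈ F, qq ε A S T} ≤
      ENNReal.ofReal (290 / Λ) := by
  have hFr : (0 : ℝ) < F.card := by exact_mod_cast hF
  have h1 := meas_ge_le_lintegral_div (μ := PP ι (EuclideanSpace ℝ (Fin M)))
    (Q_meas F ε).aemeasurable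
    (ε := ENNReal.ofReal (Λ * (ε * F.card) ^ 2)) (by positivity) ENNReal.ofReal_ne_top
  refine (measure_mono (fun A hA => ?_)).trans (h1.trans ?_)
  · simp only [Set.mem_ofPred_eq] at hA ⊢
    exact hA.le
  · refine (ENNReal.div_le_div_right (Q_mean2 M hM F ε D hε hcard hD hεD) _).trans ?_
    rw [← ENNReal.ofReal_div_of_pos (by positivity)]
    apply ENNReal.ofReal_le_ofReal
    apply le_of_eq
    field_simp

theorem up_bound3 (M : ℕ) (hM : 1 ≤ M)
    (hι : Fintype.card ι + 1 = 2 * M) (K : Finset ι)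
    (Λ ε : ℝ) (hΛ : 1 ≤ Λ) (hε0 : 0 < ε) (hε1 : ε ≤ 1)
    (hε : 1 + 5 * (M : ℝ) ^ 2 * (4 * (Real.sqrt ε * Real.sqrt (2 * Real.sqrt M)) + (3 / 5) ^ M) ≤
      ε * ((Finset.powersetCard (M - 1) Kᶜ).card : ℝ)) :
    PP ι (EuclideanSpace ℝ (Fin M)) {A | ε < om A} ≤
      ENNReal.ofReal (290 / Λ + (1 - 9 / 100 / Λ) ^ K.card) := by
  set E := EuclideanSpace ℝ (Fin M) with hE
  have hfr : Module.finrank ℝ E = M := finrank_euclideanSpace_fin
  have hM0 : (0 : ℝ) < M := by exact_mod_cast hM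
  set F := Finset.powersetCard (M - 1) Kᶜ with hF
  have hFc : ∀ S ∈ F, S.card = M - 1 := fun S hS => (Finset.mem_powersetCard.1 hS).2
  have hcard : ∀ S ∈ F, S.card + 1 = Module.finrank ℝ E := by
    intro S hS
    rw [hFc S hS, hfr]
    omega
  have hcard' : ∀ S ∈ F, S.card + 1 = M := by
    intro S hS
    rw [hFc S hS]
    omega
  have hFK : ∀ k ∈ K, ∀ S ∈ F, k ∉ S := by
    intro k hk S hS hkS
    have := (Finset.mem_powersetCard.1 hS).1 hkS
    exact (Finset.mem_compl.1 this) hk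
  have hF0 : 0 < F.card := by
    by_contra hcon
    have h0 : F.card = 0 := by omega
    rw [h0, Nat.cast_zero, mul_zero] at hε
    have : 0 < 1 + 5 * (M : ℝ) ^ 2 *
      (4 * (Real.sqrt ε * Real.sqrt (2 * Real.sqrt M)) + (3 / 5) ^ M) := by positivity
    linarith
  have hD : ∀ S ∈ F, (((F.filter fun T => ¬ 2 ≤ (T \ S).card).card : ℕ) : ℝ) ≤
      5 * (M : ℝ) ^ 2 := by
    intro S hS
    have h1 := near_count (M - 1) F hFc S hS
    have h2 : Fintype.card ι ^ 2 + 1 ≤ 5 * M ^ 2 := by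
      have h3 : Fintype.card ι ≤ 2 * M := by omega
      have h4 : Fintype.card ι ^ 2 ≤ (2 * M) ^ 2 := Nat.pow_le_pow_left h3 2
      nlinarith
    exact_mod_cast h1.trans h2
  have hb := boost2 (E := E) F Λ ε hcard hΛ hε0 hε1 hF0 K hFK
  have hsub : {A : ι → E | ε < om A} ⊆
      (⋃ S ∈ F, ⋃ s ∈ S, {A : ι → E | dq (S.erase s) A (A s) ≤ 0}) ∪
      ({A | ENNReal.ofReal (Λ * (ε * F.card) ^ 2) < ∑ S ∈ F, ∑ T ∈ F, qq ε A S T} ∪
      {A | Gd F Λ ε A ∧ ∀ k ∈ K, ∀ S ∈ F, ε < dq S A (A k)}) := by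
    intro A hA
    by_contra hcon
    simp only [Set.mem_union, Set.mem_iUnion, Set.mem_ofPred_eq, not_or, not_exists, not_le,
      not_lt, exists_prop, not_and] at hcon
    obtain ⟨h1, h3, h4⟩ := hcon
    have hg : Gd F Λ ε A := ⟨fun S hS s hs => h1 S hS s hs, h3⟩
    apply h4 hg
    intro k hk S hS
    have h5 := om_le A (by rw [hfr]; exact hι) S (by rw [hFc S hS, hfr]; omega) k (hFK k hk S hS)
    exact lt_of_lt_of_le hA h5
  have hz : PP ι E (⋃ S ∈ F, ⋃ s ∈ S, {A : ι → E | dq (S.erase s) A (A s) ≤ 0}) = 0 := by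
    rw [← nonpos_iff_eq_zero]
    refine (measure_biUnion_finset_le _ _).trans (le_of_eq (Finset.sum_eq_zero fun S hS => ?_))
    rw [← nonpos_iff_eq_zero]
    refine (measure_biUnion_finset_le _ _).trans (le_of_eq (Finset.sum_eq_zero fun s hs => ?_))
    rw [← nonpos_iff_eq_zero]
    have h1 := dq_small (E := E) (S.erase s) (by
      rw [Finset.card_erase_of_mem hs, hfr, hFc S hS]
      omega) s (Finset.notMem_erase s S) 0 le_rfl
    simpa using h1
  have hWm := Q_markov2 M hM F hF0 ε (5 * (M : ℝ) ^ 2) Λ hε0 (by linarith) hcard' hD hε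
  have hc0 : 0 ≤ 1 - 9 / 100 / Λ := by
    have h2 : 9 / 100 / Λ ≤ 1 := by
      rw [div_le_one (by linarith)]
      linarith
    linarith
  calc PP ι E {A | ε < om A} ≤ _ := measure_mono hsub
    _ ≤ PP ι E (⋃ S ∈ F, ⋃ s ∈ S, {A : ι → E | dq (S.erase s) A (A s) ≤ 0}) +
        (PP ι E {A | ENNReal.ofReal (Λ * (ε * F.card) ^ 2) < ∑ S ∈ F, ∑ T ∈ F, qq ε A S T} +
        PP ι E {A | Gd F Λ ε A ∧ ∀ k ∈ K, ∀ S ∈ F, ε < dq S A (A k)}) :=
        (measure_union_le _ _).trans (add_le_add le_rfl (measure_union_le _ _))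
    _ ≤ 0 + (ENNReal.ofReal (290 / Λ) + ENNReal.ofReal ((1 - 9 / 100 / Λ) ^ K.card)) := by
        rw [hz]
        exact add_le_add le_rfl (add_le_add hWm hb)
    _ ≤ _ := by
        rw [zero_add, ← ENNReal.ofReal_add (by positivity) (by positivity)]

end Pool.Agent.X88.PR
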