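import Pool.Agent.X88.PR.Joint

set_option autoImplicit false
set_option linter.unusedSectionVars false

/-!
Mean of the joint small ball probability of two hyperplanes.
-/

open MeasureTheory ProbabilityTheory
open scoped ENNReal RealInnerProductSpace NNReal

namespace Pool.Agent.X88.PR

variable {ι : Type*} [Fintype ι] [DecidableEq ι]
variable {E : Type*} [NormedAddCommGroup E] [InnerProductSpace ℝ E] [FiniteDimensional ℝ E]
  [MeasurableSpace E] [BorelSpace E]

/-- joint probability for the pair `S`, `T` given the rows -/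
noncomputable def qq (ε : ℝ) (A : ι → E) (S T : Finset ι) : ℝ≥0∞ :=
  stdGaussian E {x | dq S A x ≤ ε ∧ dq T A x ≤ ε}

theorem qq_meas (ε : ℝ) (S T : Finset ι) : Measurable fun A : ι → E => qq ε A S T := by
  unfold qq
  have h1 : MeasurableSet {p : (ι → E) × E | dq S p.1 p.2 ≤ ε ∧ dq T p.1 p.2 ≤ ε} :=
    (measurableSet_le (dq_meas S) measurable_const).inter
      (measurableSet_le (dq_meas T) measurable_const)
  exact measurable_measure_prodMk_left h1

theorem qq_update (ε : ℝ) (A : ι → E) (S T : Finset ι) (k : ι) (hS : k ∉ S) (hT : k ∉ T) (x : E) :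
    qq ε (Function.update A k x) S T = qq ε A S T := by
  unfold qq
  simp only [dq_update S A k hS, dq_update T A k hT]

theorem qq_le (ε : ℝ) (hε : 0 ≤ ε) (A : ι → E) (S T : Finset ι) (hS : S.card < Module.finrank ℝ E) :
    qq ε A S T ≤ ENNReal.ofReal ε :=
  (measure_mono fun _ hx => hx.1).trans (dq_small_x S hS A ε hε)

/-- pointwise bound -/
theorem qq_pt (ε : ℝ) (hε : 0 < ε) (A : ι → E) (S T : Finset ι) (hS : S.card < Module.finrank ℝ E)
    (hT : T.card + 1 = Module.finrank ℝ E) (j1 j2 : ι) (h1 : j1 ∈ T \ S) (h2 : j2 ∈ T \ S)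
    (h12 : j1 ≠ j2)
    (hi : LinearIndependent ℝ (fun s : ((T.erase j1).erase j2 : Finset ι) => A s)) :
    ∃ e e2 e3 : E, ‖e‖ = 1 ∧ ‖e2‖ = 1 ∧ ‖e3‖ = 1 ∧ ⟪e, e2⟫ = 0 ∧ ⟪e, e3⟫ = 0 ∧
      ∀ a1 a2 : E, qq ε (Function.update (Function.update A j1 a1) j2 a2) S T ≤
        ENNReal.ofReal (ε ^ 2) * (hh e e2 e3 a1 * hh e e2 e3 a2) := by
  rw [Finset.mem_sdiff] at h1 h2
  obtain ⟨v, hv, hvS⟩ := exists_normal S A hS
  have hc : ((T.erase j1).erase j2).card + 3 = Module.finrank ℝ E := by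
    rw [Finset.card_erase_of_mem (Finset.mem_erase.2 ⟨h12.symm, h2.1⟩),
      Finset.card_erase_of_mem h1.1]
    have : 1 < T.card := Finset.one_lt_card.2 ⟨j1, h1.1, j2, h2.1, h12⟩
    omega
  obtain ⟨e, e2, e3, n1, n2, n3, k1, k2, k3, v2, v3, hex⟩ :=
    exists_frame ((T.erase j1).erase j2) A hc hi v
  refine ⟨e, e2, e3, n1, n2, n3, k1, k2, ?_⟩
  intro a1 a2
  set A' := Function.update (Function.update A j1 a1) j2 a2 with hA'
  have hA1 : A' j1 = a1 := by
    rw [hA', Function.update_of_ne h12, Function.update_self]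
  have hA2 : A' j2 = a2 := by rw [hA', Function.update_self]
  obtain ⟨u, hu, huT⟩ := exists_normal T A' (by omega)
  have hu1 : ⟪u, a1⟫ = 0 := by rw [← hA1]; exact huT j1 h1.1
  have hu2 : ⟪u, a2⟫ = 0 := by rw [← hA2]; exact huT j2 h2.1
  have hexp := hex u (by
    intro s hs
    rw [Finset.mem_erase, Finset.mem_erase] at hs
    have h3 := huT s hs.2.2
    rwa [hA', Function.update_of_ne hs.1, Function.update_of_ne hs.2.1] at h3)
  have hn : ⟪e, u⟫ ^ 2 + ⟪e2, u⟫ ^ 2 + ⟪e3, u⟫ ^ 2 = 1 := by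
    have h3 : ⟪u, u⟫ = ⟪e, u⟫ * ⟪e, u⟫ + ⟪e2, u⟫ * ⟪e2, u⟫ + ⟪e3, u⟫ * ⟪e3, u⟫ := by
      nth_rewrite 1 [hexp]
      rw [inner_add_left, inner_add_left, real_inner_smul_left, real_inner_smul_left,
        real_inner_smul_left]
    rw [real_inner_self_eq_norm_sq, hu] at h3
    nlinarith
  have g1 := geo3 u v e e2 e3 a1 hv n1 hexp hn v2 v3 hu1
  have g2 := geo3 u v e e2 e3 a2 hv n1 hexp hn v2 v3 hu2
  set s := Real.sqrt (1 - ⟪u, v⟫ ^ 2) with hs
  have hinf : ∀ a b : E, ⟪e, a⟫ = 0 →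
      ENNReal.ofReal (ε ^ 2) * (hh e e2 e3 a * hh e e2 e3 b) = ∞ := by
    intro a b ha
    have h3 : hh e e2 e3 a = ∞ := by
      unfold hh
      rw [ha, abs_zero, hw_zero, ENNReal.top_mul, add_top]
      intro h4
      have h5 : (1 : ℝ≥0∞) ≤ 1 + ENNReal.ofReal |⟪e2, a⟫| + ENNReal.ofReal |⟪e3, a⟫| := by
        rw [add_assoc]
        exact le_self_add
      rw [h4] at h5
      exact absurd h5 (by norm_num)
    have h4 : hh e e2 e3 b ≠ 0 := by
      unfold hh
      intro h5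
      have h6 : (1 : ℝ≥0∞) ≤ 1 + hw |⟪e, b⟫| *
        (1 + ENNReal.ofReal |⟪e2, b⟫| + ENNReal.ofReal |⟪e3, b⟫|) := le_self_add
      rw [h5] at h6
      exact absurd h6 (by norm_num)
    rw [h3, ENNReal.top_mul h4, ENNReal.mul_top]
    rw [Ne, ENNReal.ofReal_eq_zero, not_le]
    positivity
  by_cases z1 : ⟪e, a1⟫ = 0
  · rw [hinf a1 a2 z1]
    exact le_top
  by_cases z2 : ⟪e, a2⟫ = 0
  · rw [mul_comm (hh e e2 e3 a1), hinf a2 a1 z2]
    exact le_top
  have p1 : 0 < |⟪e, a1⟫| := abs_pos.2 z1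
  have p2 : 0 < |⟪e, a2⟫| := abs_pos.2 z2
  have hs0 : 0 < s := by
    by_contra hcon
    have h3 : s = 0 := le_antisymm (not_lt.1 hcon) (Real.sqrt_nonneg _)
    rw [h3, zero_mul] at g1
    linarith
  have h3 := two_le u v hu hv hs0 ε hε.le
  have h4 : {x : E | dq S A' x ≤ ε ∧ dq T A' x ≤ ε} ⊆ {x | |⟪u, x⟫| ≤ ε ∧ |⟪v, x⟫| ≤ ε} := by
    rintro x ⟨hx1, hx2⟩
    refine ⟨(dq_ge T A' x u hu huT).trans hx2, (dq_ge S A' x v hv fun t ht => ?_).trans hx1⟩
    have e1 : t ≠ j1 := by rintro rfl; exact h1.2 ht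
    have e2 : t ≠ j2 := by rintro rfl; exact h2.2 ht
    rw [hA', Function.update_of_ne e2, Function.update_of_ne e1]
    exact hvS t ht
  have h5 : qq ε A' S T ≤ ENNReal.ofReal (ε * (ε / s)) := by
    refine (measure_mono h4).trans ?_
    rw [measureReal_def] at h3
    rw [← ENNReal.ofReal_toReal (measure_ne_top (stdGaussian E) _)]
    exact ENNReal.ofReal_le_ofReal h3
  refine h5.trans ?_
  have key : ∀ a : E, 0 < |⟪e, a⟫| → |⟪e, a⟫| ≤ s * (|⟪e, a⟫| + |⟪e2, a⟫| + |⟪e3, a⟫|) →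
      ENNReal.ofReal ((Real.sqrt s)⁻¹) ≤ hh e e2 e3 a := by
    intro a ha hsa
    have h6 : (Real.sqrt s)⁻¹ ≤ Real.sqrt ((|⟪e, a⟫| + |⟪e2, a⟫| + |⟪e3, a⟫|) / |⟪e, a⟫|) := by
      rw [← Real.sqrt_inv]
      apply Real.sqrt_le_sqrt
      rw [inv_eq_one_div, div_le_div_iff₀ hs0 ha]
      linarith
    have h7 := hh_ge |⟪e, a⟫| |⟪e2, a⟫| |⟪e3, a⟫| ha (abs_nonneg _) (abs_nonneg _)
    refine (ENNReal.ofReal_le_ofReal (h6.trans h7)).trans (le_of_eq ?_)
    unfold hh
    rw [hw_pos_eq _ ha, ENNReal.ofReal_add (by norm_num) (by positivity), ENNReal.ofReal_one,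
      ENNReal.ofReal_mul (by positivity), ENNReal.ofReal_add (by positivity) (by positivity),
      ENNReal.ofReal_add (by norm_num) (by positivity), ENNReal.ofReal_one]
  have h6 : ε * (ε / s) = ε ^ 2 * ((Real.sqrt s)⁻¹ * (Real.sqrt s)⁻¹) := by
    rw [← mul_inv, Real.mul_self_sqrt hs0.le]
    ring
  rw [h6, ENNReal.ofReal_mul (by positivity), ENNReal.ofReal_mul (by positivity)]
  exact mul_le_mul' le_rfl (mul_le_mul' (key a1 p1 g1) (key a2 p2 g2))

/-- mean of the joint probability -/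
theorem qq_mean (ε : ℝ) (hε : 0 < ε) (S T : Finset ι) (hS : S.card < Module.finrank ℝ E)
    (hT : T.card + 1 = Module.finrank ℝ E) (j1 j2 : ι) (h1 : j1 ∈ T \ S) (h2 : j2 ∈ T \ S)
    (h12 : j1 ≠ j2) :
    ∫⁻ A, qq ε A S T ∂(PP ι E) ≤ 289 * ENNReal.ofReal (ε ^ 2) := by
  have hm := qq_meas (E := E) ε S T
  have hm2 : Measurable fun A : ι → E => ∫⁻ x, qq ε (Function.update A j2 x) S T
      ∂(stdGaussian E) := by
    have h3 : Measurable fun p : (ι → E) × E => qq ε (Function.update p.1 j2 p.2) S T :=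
      hm.comp ((update_meas j2).comp measurable_swap)
    exact h3.lintegral_prod_right'
  rw [lint_resample (stdGaussian E) j2 _ hm, lint_resample (stdGaussian E) j1 _ hm2]
  set T' := (T.erase j1).erase j2 with hT'
  have hae : ∀ᵐ A ∂(PP ι E), ∀ s ∈ T', 0 < dq (T'.erase s) A (A s) := by
    rw [Finset.eventually_all]
    intro s hs
    rw [ae_iff]
    have h3 := dq_small (E := E) (T'.erase s) (by
      have := Finset.card_le_card (Finset.erase_subset s T')
      have h4 : T'.card ≤ T.card :=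
        Finset.card_le_card ((Finset.erase_subset _ _).trans (Finset.erase_subset _ _))
      omega) s (Finset.notMem_erase s T') 0 le_rfl
    rw [ENNReal.ofReal_zero, nonpos_iff_eq_zero] at h3
    simp only [not_lt]
    exact h3
  calc _ ≤ ∫⁻ _A, 289 * ENNReal.ofReal (ε ^ 2) ∂(PP ι E) := by
        refine lintegral_mono_ae ?_
        filter_upwards [hae] with A hA
        obtain ⟨e, e2, e3, n1, n2, n3, k1, k2, hb⟩ :=
          qq_pt ε hε A S T hS hT j1 j2 h1 h2 h12 (indep_of_dq T' A hA)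
        have hhm := hh_meas e e2 e3
        calc _ ≤ ∫⁻ a1, ∫⁻ a2, ENNReal.ofReal (ε ^ 2) * (hh e e2 e3 a1 * hh e e2 e3 a2)
              ∂(stdGaussian E) ∂(stdGaussian E) :=
              lintegral_mono fun a1 => lintegral_mono fun a2 => hb a1 a2
          _ = ENNReal.ofReal (ε ^ 2) * ((∫⁻ a, hh e e2 e3 a ∂(stdGaussian E)) *
              ∫⁻ a, hh e e2 e3 a ∂(stdGaussian E)) := by
              have h3 : ∀ a1 : E, ∫⁻ a2, ENNReal.ofReal (ε ^ 2) *
                  (hh e e2 e3 a1 * hh e e2 e3 a2) ∂(stdGaussian E) =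
                  ENNReal.ofReal (ε ^ 2) * (hh e e2 e3 a1 *
                    ∫⁻ a, hh e e2 e3 a ∂(stdGaussian E)) := by
                intro a1
                rw [lintegral_const_mul _ (hhm.const_mul _), lintegral_const_mul _ hhm]
              simp only [h3]
              rw [lintegral_const_mul _ (hhm.mul_const _), lintegral_mul_const _ hhm]
          _ ≤ ENNReal.ofReal (ε ^ 2) * (17 * 17) :=
              mul_le_mul' le_rfl (mul_le_mul' (hh_mean e e2 e3 n1 n2 n3 k1 k2)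
                (hh_mean e e2 e3 n1 n2 n3 k1 k2))
          _ = 289 * ENNReal.ofReal (ε ^ 2) := by
              rw [mul_comm]
              norm_num
    _ = _ := by rw [lintegral_const, measure_univ, mul_one]

end Pool.Agent.X88.PR
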