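import Pool.Agent.X88.PR.Lin

set_option autoImplicit false
set_option linter.unusedSectionVars false

/-!
Resampling one row, probabilities for the distances, norms.
-/

open MeasureTheory ProbabilityTheory
open scoped ENNReal RealInnerProductSpace NNReal

namespace Pool.Agent.X88.PR

variable {ι : Type*} [Fintype ι] [DecidableEq ι]

section

variable {X : Type*} [MeasurableSpace X] (γ : Measure X) [IsProbabilityMeasure γ]

theorem update_meas (j : ι) : Measurable fun p : X × (ι → X) => Function.update p.2 j p.1 := by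
  rw [measurable_pi_iff]
  intro i
  by_cases hi : i = j
  · subst hi
    simp only [Function.update_self]
    exact measurable_fst
  · simp only [Function.update_of_ne hi]
    exact (measurable_pi_apply i).comp measurable_snd

/-- resampling of one row -/
theorem resample (j : ι) : (γ.prod (Measure.pi fun _ : ι => γ)).map
    (fun p : X × (ι → X) => Function.update p.2 j p.1) = Measure.pi fun _ : ι => γ := by
  symm
  apply Measure.pi_eq
  intro t ht
  rw [Measure.map_apply (update_meas j) (MeasurableSet.univ_pi ht)]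
  have h1 : (fun p : X × (ι → X) => Function.update p.2 j p.1) ⁻¹' (Set.pi Set.univ t) =
      (t j) ×ˢ (Set.pi Set.univ (Function.update t j Set.univ)) := by
    ext ⟨x, y⟩
    simp only [Set.mem_preimage, Set.mem_pi, Set.mem_prod, Set.mem_univ, true_implies]
    constructor
    · intro h
      refine ⟨?_, fun i => ?_⟩
      · have := h j
        rwa [Function.update_self] at this
      · by_cases hi : i = j
        · subst hi
          rw [Function.update_self]
          trivial
        · rw [Function.update_of_ne hi]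
          have := h i
          rwa [Function.update_of_ne hi] at this
    · rintro ⟨h1, h2⟩ i
      by_cases hi : i = j
      · subst hi
        rwa [Function.update_self]
      · rw [Function.update_of_ne hi]
        have := h2 i
        rwa [Function.update_of_ne hi] at this
  rw [h1, Measure.prod_prod, Measure.pi_pi]
  rw [← Finset.mul_prod_erase Finset.univ _ (Finset.mem_univ j), Function.update_self,
    measure_univ, one_mul]
  rw [← Finset.mul_prod_erase Finset.univ (fun i => γ (t i)) (Finset.mem_univ j)]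
  congr 1
  refine Finset.prod_congr rfl fun i hi => ?_
  rw [Function.update_of_ne (Finset.ne_of_mem_erase hi)]

theorem lint_resample (j : ι) (f : (ι → X) → ℝ≥0∞) (hf : Measurable f) :
    ∫⁻ A, f A ∂(Measure.pi fun _ : ι => γ) =
      ∫⁻ A, ∫⁻ x, f (Function.update A j x) ∂γ ∂(Measure.pi fun _ : ι => γ) := by
  conv_lhs => rw [← resample γ j]
  rw [lintegral_map hf (update_meas j)]
  exact lintegral_prod_symm' _ (hf.comp (update_meas j))

end

variable {E : Type*} [NormedAddCommGroup E] [InnerProductSpace ℝ E] [FiniteDimensional ℝ E]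
  [MeasurableSpace E] [BorelSpace E]

/-- the law of the rows -/
noncomputable abbrev PP (ι : Type*) [Fintype ι] (E : Type*) [NormedAddCommGroup E]
    [InnerProductSpace ℝ E] [FiniteDimensional ℝ E] [MeasurableSpace E] [BorelSpace E] :
    Measure (ι → E) := Measure.pi fun _ : ι => stdGaussian E

theorem upd_meas (A : ι → E) (j : ι) : Measurable fun x : E => Function.update A j x :=
  (update_meas j).comp (measurable_id.prodMk measurable_const)

theorem dq_meas_x (S : Finset ι) (A : ι → E) : Measurable fun x : E => dq S A x :=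
  (dq_meas S).comp (measurable_const.prodMk measurable_id)

/-- for fixed other rows the distance is rarely small -/
theorem dq_small_x (S : Finset ι) (hS : S.card < Module.finrank ℝ E) (A : ι → E) (δ : ℝ)
    (hδ : 0 ≤ δ) : stdGaussian E {x | dq S A x ≤ δ} ≤ ENNReal.ofReal δ := by
  obtain ⟨u, hu, hn⟩ := exists_normal S A hS
  have h1 : {x | dq S A x ≤ δ} ⊆ {x : E | |⟪u, x⟫ - 0| ≤ δ} := by
    intro x hx
    simp only [Set.mem_ofPred_eq, sub_zero] at hx ⊢
    exact (dq_ge S A x u hu hn).trans hx
  refine (measure_mono h1).trans ?_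
  have h2 := form_le u hu 0 δ hδ
  rw [measureReal_def] at h2
  rw [← ENNReal.ofReal_toReal (measure_ne_top (stdGaussian E) _)]
  exact ENNReal.ofReal_le_ofReal h2

theorem dq_small (S : Finset ι) (hS : S.card < Module.finrank ℝ E) (j : ι) (hj : j ∉ S) (δ : ℝ)
    (hδ : 0 ≤ δ) : PP ι E {A | dq S A (A j) ≤ δ} ≤ ENNReal.ofReal δ := by
  have hm : MeasurableSet {A : ι → E | dq S A (A j) ≤ δ} :=
    measurableSet_le (dq_meas' S j) measurable_const
  have hf : Measurable (({A : ι → E | dq S A (A j) ≤ δ}).indicator (1 : (ι → E) → ℝ≥0∞)) :=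
    measurable_one.indicator hm
  rw [← lintegral_indicator_one hm, lint_resample (stdGaussian E) j _ hf]
  calc _ ≤ ∫⁻ _A, ENNReal.ofReal δ ∂(PP ι E) := by
        refine lintegral_mono fun A => ?_
        have h1 : ∀ x : E, ({A : ι → E | dq S A (A j) ≤ δ}).indicator (1 : (ι → E) → ℝ≥0∞)
            (Function.update A j x) = ({x : E | dq S A x ≤ δ}).indicator (1 : E → ℝ≥0∞) x := by
          intro x
          by_cases hx : dq S A x ≤ δ
          · rw [Set.indicator_of_mem (by
              simp only [Set.mem_ofPred_eq, Function.update_self, dq_update S A j hj]; exact hx),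
              Set.indicator_of_mem (by exact hx)]
            rfl
          · rw [Set.indicator_of_notMem (by
              simp only [Set.mem_ofPred_eq, Function.update_self, dq_update S A j hj]; exact hx),
              Set.indicator_of_notMem (by exact hx)]
        simp only [h1]
        rw [lintegral_indicator_one (measurableSet_le (dq_meas_x S A) measurable_const)]
        exact dq_small_x S hS A δ hδ
    _ = ENNReal.ofReal δ := by rw [lintegral_const, measure_univ, mul_one]

theorem hw_dq_x (S : Finset ι) (hS : S.card < Module.finrank ℝ E) (A : ι → E) :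
    ∫⁻ x, hw (dq S A x) ∂(stdGaussian E) ≤ 4 := by
  obtain ⟨u, hu, hn⟩ := exists_normal S A hS
  exact (lintegral_mono fun x => hw_anti (dq_ge S A x u hu hn)).trans (form_hw u hu)

theorem hw_two (S : Finset ι) (hS : S.card < Module.finrank ℝ E) (j k : ι) (hj : j ∉ S)
    (hk : k ∉ S) (hjk : j ≠ k) :
    ∫⁻ A, hw (dq S A (A j)) * hw (dq S A (A k)) ∂(PP ι E) ≤ 16 := by
  have m1 : ∀ i, Measurable fun A : ι → E => hw (dq S A (A i)) := fun i =>
    hw_meas.comp (dq_meas' S i)
  have h1 : ∀ A : ι → E, ∫⁻ x, hw (dq S (Function.update A j x) (Function.update A j x j)) *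
      hw (dq S (Function.update A j x) (Function.update A j x k)) ∂(stdGaussian E) ≤
      4 * hw (dq S A (A k)) := by
    intro A
    have h2 : ∀ x, hw (dq S (Function.update A j x) (Function.update A j x j)) *
      hw (dq S (Function.update A j x) (Function.update A j x k)) =
      hw (dq S A x) * hw (dq S A (A k)) := by
      intro x
      rw [dq_update S A j hj, dq_update S A j hj, Function.update_self,
        Function.update_of_ne hjk.symm]
    simp only [h2]
    rw [lintegral_mul_const (f := fun x => hw (dq S A x)) _ (hw_meas.comp (dq_meas_x S A))]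
    gcongr
    exact hw_dq_x S hS A
  have h3 : ∫⁻ A, hw (dq S A (A k)) ∂(PP ι E) ≤ 4 := by
    rw [lint_resample (stdGaussian E) k _ (m1 k)]
    calc _ ≤ ∫⁻ _A, 4 ∂(PP ι E) := by
          refine lintegral_mono fun A => ?_
          have h4 : ∀ x, hw (dq S (Function.update A k x) (Function.update A k x k)) =
              hw (dq S A x) := by
            intro x
            rw [dq_update S A k hk, Function.update_self]
          simp only [h4]
          exact hw_dq_x S hS A
      _ = 4 := by rw [lintegral_const, measure_univ, mul_one]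
  have hmm : Measurable fun A : ι → E => hw (dq S A (A j)) * hw (dq S A (A k)) :=
    (m1 j).mul (m1 k)
  rw [lint_resample (stdGaussian E) j _ hmm]
  calc _ ≤ ∫⁻ A, 4 * hw (dq S A (A k)) ∂(PP ι E) := lintegral_mono h1
    _ = 4 * ∫⁻ A, hw (dq S A (A k)) ∂(PP ι E) := lintegral_const_mul _ (m1 k)
    _ ≤ 4 * 4 := by gcongr
    _ = 16 := by norm_num

/-- the exponential moment of the square of a standard normal variable -/
theorem exp_sq : ∫ x, Real.exp (x ^ 2 / 4) ∂(gaussianReal 0 1) ≤ 3 / 2 ∧
    Integrable (fun x : ℝ => Real.exp (x ^ 2 / 4)) (gaussianReal 0 1) := by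
  have hpt : ∀ x : ℝ, gaussianPDFReal 0 1 x * Real.exp (x ^ 2 / 4) =
      (Real.sqrt (2 * Real.pi))⁻¹ * Real.exp (-(1 / 4) * x ^ 2) := by
    intro x
    unfold gaussianPDFReal
    rw [NNReal.coe_one, mul_one, mul_one, mul_assoc, ← Real.exp_add]
    congr 2
    ring
  have hs : 0 < Real.sqrt (2 * Real.pi) := Real.sqrt_pos.2 (by positivity)
  constructor
  · rw [integral_gaussianReal_eq_integral_smul one_ne_zero]
    simp only [smul_eq_mul, hpt]
    rw [integral_const_mul, integral_gaussian]
    have h1 : Real.pi / (1 / 4) = 2 * (2 * Real.pi) := by ring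
    rw [h1, Real.sqrt_mul (show (0 : ℝ) ≤ 2 by norm_num) (2 * Real.pi)]
    have h2 : (Real.sqrt (2 * Real.pi))⁻¹ * (Real.sqrt 2 * Real.sqrt (2 * Real.pi)) =
        Real.sqrt 2 := by field_simp
    rw [h2]
    apply Real.sqrt_le_iff.2
    norm_num
  · rw [gaussianReal_of_var_ne_zero 0 one_ne_zero,
      integrable_withDensity_iff_integrable_smul' (measurable_gaussianPDF 0 1)
        (ae_of_all _ fun x => gaussianPDF_lt_top)]
    have h1 : (fun x : ℝ => (gaussianPDF 0 1 x).toReal • Real.exp (x ^ 2 / 4)) =
        fun x => (Real.sqrt (2 * Real.pi))⁻¹ * Real.exp (-(1 / 4) * x ^ 2) := by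
      funext x
      rw [smul_eq_mul, toReal_gaussianPDF, hpt]
    rw [h1]
    exact (integrable_exp_neg_mul_sq (by norm_num)).const_mul _

theorem norm_big (M : ℕ) : (stdGaussian (EuclideanSpace ℝ (Fin M))).real
    {x | 4 * (M : ℝ) ≤ ‖x‖ ^ 2} ≤ (3 / 5) ^ M := by
  set μ := (Measure.pi fun _ : Fin M => gaussianReal 0 1) with hμ
  have hm : Measurable (fun x : Fin M → ℝ => (WithLp.toLp 2 x : EuclideanSpace ℝ (Fin M))) := by
    fun_prop
  rw [← map_pi_eq_stdGaussian, map_measureReal_apply hm
    (measurableSet_le measurable_const (by fun_prop))]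
  set Ψ : (Fin M → ℝ) → ℝ := fun x => ∏ i, Real.exp ((x i) ^ 2 / 4) with hΨ
  have hI : Integrable Ψ μ := Integrable.fintype_prod (f := fun (_ : Fin M) (x : ℝ) =>
    Real.exp (x ^ 2 / 4)) fun _ => exp_sq.2
  have hv : ∫ x, Ψ x ∂μ ≤ (3 / 2) ^ M := by
    rw [hΨ, hμ, integral_fintype_prod_eq_prod (f := fun (_ : Fin M) (x : ℝ) =>
      Real.exp (x ^ 2 / 4)), Finset.prod_const, Finset.card_univ, Fintype.card_fin]
    exact pow_le_pow_left₀ (integral_nonneg fun x => (Real.exp_pos _).le) exp_sq.1 M
  have hk := mul_meas_ge_le_integral_of_nonneg (μ := μ) (f := Ψ)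
    (ae_of_all _ fun x => Finset.prod_nonneg fun i _ => (Real.exp_pos _).le) hI (Real.exp M)
  have hsub : (fun x : Fin M → ℝ => (WithLp.toLp 2 x : EuclideanSpace ℝ (Fin M))) ⁻¹'
      {x | 4 * (M : ℝ) ≤ ‖x‖ ^ 2} ⊆ {x | Real.exp M ≤ Ψ x} := by
    intro x hx
    simp only [Set.mem_preimage, Set.mem_ofPred_eq] at hx ⊢
    rw [EuclideanSpace.real_norm_sq_eq] at hx
    rw [hΨ]
    simp only
    rw [← Real.exp_sum]
    apply Real.exp_le_exp.2
    rw [← Finset.sum_div]
    have h1 : ∑ i, (WithLp.toLp 2 x : EuclideanSpace ℝ (Fin M)) i ^ 2 = ∑ i, x i ^ 2 := rfl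
    rw [h1] at hx
    linarith
  have h3 : μ.real ((fun x : Fin M → ℝ => (WithLp.toLp 2 x : EuclideanSpace ℝ (Fin M))) ⁻¹'
      {x | 4 * (M : ℝ) ≤ ‖x‖ ^ 2}) ≤ μ.real {x | Real.exp M ≤ Ψ x} := measureReal_mono hsub
  refine h3.trans ?_
  have h4 : Real.exp M * μ.real {x | Real.exp M ≤ Ψ x} ≤ (3 / 2) ^ M := hk.trans hv
  have h5 : (5 / 2 : ℝ) ^ M ≤ Real.exp M := by
    have h6 : (5 / 2 : ℝ) ≤ Real.exp 1 := by
      have := Real.exp_one_gt_d9
      linarith
    calc (5 / 2 : ℝ) ^ M ≤ (Real.exp 1) ^ M := pow_le_pow_left₀ (by norm_num) h6 M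
      _ = Real.exp M := by rw [← Real.exp_nat_mul, mul_one]
  have h7 : (5 / 2 : ℝ) ^ M * μ.real {x | Real.exp M ≤ Ψ x} ≤ (3 / 2) ^ M :=
    (mul_le_mul_of_nonneg_right h5 measureReal_nonneg).trans h4
  have h8 : (3 / 2 : ℝ) ^ M = (5 / 2) ^ M * (3 / 5) ^ M := by
    rw [← mul_pow]
    norm_num
  rw [h8] at h7
  exact le_of_mul_le_mul_left h7 (by positivity)

end Pool.Agent.X88.PR
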