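import Pool.Agent.X88.PR.Asy

set_option autoImplicit false

/-!
Exponential rate of omega for Gaussian matrices.
-/

open MeasureTheory ProbabilityTheory Filter Topology
open scoped ENNReal RealInnerProductSpace NNReal

namespace Pool.Agent.X88.PR

theorem tend_zero (f : ℕ → ℝ≥0∞)
    (h : ∀ η : ℝ, 0 < η → ∀ᶠ M in atTop, f M ≤ ENNReal.ofReal η) : Tendsto f atTop (𝓝 0) := by
  rw [ENNReal.tendsto_nhds_zero]
  intro ε hε
  by_cases htop : ε = ∞
  · simp [htop]
  · filter_upwards [h ε.toReal (ENNReal.toReal_pos hε.ne' htop)] with M hM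
    rwa [ENNReal.ofReal_toReal htop] at hM

theorem exp_ev (L ρ : ℝ) (hρ : 1 < ρ) :
    ∀ᶠ M : ℕ in atTop, Real.exp (L * Real.sqrt M) ≤ ρ ^ M := by
  have hlog : 0 < Real.log ρ := Real.log_pos hρ
  filter_upwards [sq_ev (L / Real.log ρ)] with M h1
  rw [div_le_iff₀ hlog] at h1
  have hs : Real.sqrt M * Real.sqrt M = M := Real.mul_self_sqrt (Nat.cast_nonneg _)
  have hs0 : 0 ≤ Real.sqrt M := Real.sqrt_nonneg _
  have h2 : (ρ : ℝ) ^ M = Real.exp (M * Real.log ρ) := by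
    rw [mul_comm, Real.exp_mul, Real.exp_log (by linarith), Real.rpow_natCast]
  rw [h2]
  apply Real.exp_le_exp.2
  nlinarith

theorem up_rate (β : ℝ) (h : 1 / 4 < β) : Tendsto (fun M : ℕ =>
    PP (Fin (2 * M - 1)) (EuclideanSpace ℝ (Fin M)) {A | β ^ M < om A}) atTop (𝓝 0) := by
  apply tend_zero
  intro η hη
  obtain ⟨L, hL⟩ := up_core η hη
  filter_upwards [hL, exp_ev L (4 * β) (by linarith)] with M h1 h2
  refine (measure_mono ?_).trans h1
  intro A hA
  rw [Set.mem_ofPred_eq] at hA ⊢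
  refine lt_of_le_of_lt ?_ hA
  calc (1 / 4 : ℝ) ^ M * Real.exp (L * Real.sqrt M) ≤ (1 / 4) ^ M * (4 * β) ^ M :=
        mul_le_mul_of_nonneg_left h2 (by positivity)
    _ = β ^ M := by
        rw [← mul_pow]
        congr 1
        ring

theorem norm_small (M : ℕ) (hM : 1 ≤ M) {ι : Type} [Fintype ι] [DecidableEq ι] (j : ι) (t : ℝ)
    (ht : 0 ≤ t) :
    PP ι (EuclideanSpace ℝ (Fin M)) {A | ‖A j‖ ≤ t} ≤ ENNReal.ofReal t := by
  have h1 := (measurePreserving_eval
    (fun _ : ι => stdGaussian (EuclideanSpace ℝ (Fin M))) j).measure_preimage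
    (s := {x | ‖x‖ ≤ t}) (measurableSet_le measurable_norm measurable_const).nullMeasurableSet
  have h2 : {A : ι → EuclideanSpace ℝ (Fin M) | ‖A j‖ ≤ t} =
      Function.eval j ⁻¹' {x | ‖x‖ ≤ t} := rfl
  rw [h2, h1]
  have : Nonempty (Fin M) := ⟨⟨0, hM⟩⟩
  obtain ⟨u, hu⟩ := exists_norm_eq (E := EuclideanSpace ℝ (Fin M)) zero_le_one
  have h3 := form_le u hu 0 t ht
  rw [measureReal_def] at h3
  have h4 : {x : EuclideanSpace ℝ (Fin M) | ‖x‖ ≤ t} ⊆ {x | |⟪u, x⟫ - 0| ≤ t} := by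
    intro x hx
    rw [Set.mem_ofPred_eq] at hx ⊢
    rw [sub_zero]
    refine (abs_real_inner_le_norm u x).trans ?_
    rw [hu, one_mul]
    exact hx
  refine (measure_mono h4).trans ?_
  rw [← ENNReal.ofReal_toReal (measure_ne_top (stdGaussian (EuclideanSpace ℝ (Fin M)))
    {x | |⟪u, x⟫ - 0| ≤ t})]
  exact ENNReal.ofReal_le_ofReal h3

theorem up_max (C β : ℝ) (hC : 0 < C) (h : 1 / 4 < β) : Tendsto (fun M : ℕ =>
    PP (Fin (2 * M - 1)) (EuclideanSpace ℝ (Fin M))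
      {A | C * (⨆ k, ‖A k‖) * β ^ M < om A}) atTop (𝓝 0) := by
  set β1 := (1 / 4 + β) / 2 with hβ1
  have h1 : 1 / 4 < β1 := by rw [hβ1]; linarith
  have h2 : β1 < β := by rw [hβ1]; linarith
  have hr0 : 0 ≤ β1 / β := div_nonneg (by linarith) (by linarith)
  have hr1 : β1 / β < 1 := by
    rw [div_lt_one (by linarith)]
    exact h2
  have h3 := up_rate β1 h1
  have h4 : Tendsto (fun M : ℕ => ENNReal.ofReal ((β1 / β) ^ M / C)) atTop (𝓝 0) := by
    have h5 := (tendsto_pow_atTop_nhds_zero_of_lt_one hr0 hr1).div_const C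
    rw [zero_div] at h5
    have h6 := ENNReal.tendsto_ofReal h5
    rwa [ENNReal.ofReal_zero] at h6
  have h5 := h3.add h4
  rw [add_zero] at h5
  refine tendsto_of_tendsto_of_tendsto_of_le_of_le' tendsto_const_nhds h5
    (Eventually.of_forall fun _ => zero_le) ?_
  filter_upwards [eventually_ge_atTop 1] with M hM
  have hne : 0 < 2 * M - 1 := by omega
  have hsub : {A : Fin (2 * M - 1) → EuclideanSpace ℝ (Fin M) |
      C * (⨆ k, ‖A k‖) * β ^ M < om A} ⊆ {A | β1 ^ M < om A} ∪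
      {A | ‖A ⟨0, hne⟩‖ ≤ (β1 / β) ^ M / C} := by
    intro A hA
    by_contra hcon
    simp only [Set.mem_union, Set.mem_ofPred_eq, not_or, not_lt, not_le] at hcon hA
    obtain ⟨h6, h7⟩ := hcon
    have h8 : ‖A ⟨0, hne⟩‖ ≤ ⨆ k, ‖A k‖ := le_ciSup (Finite.bddAbove_range fun k => ‖A k‖) _
    have h9 : (β1 / β) ^ M / C < ⨆ k, ‖A k‖ := lt_of_lt_of_le h7 h8
    rw [div_lt_iff₀ hC, div_pow, div_lt_iff₀ (pow_pos (by linarith) _)] at h9
    have h10 : (⨆ k, ‖A k‖) * C * β ^ M = C * (⨆ k, ‖A k‖) * β ^ M := by ring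
    rw [h10] at h9
    linarith
  exact (measure_mono hsub).trans ((measure_union_le _ _).trans
    (add_le_add le_rfl (norm_small M hM _ _ (by positivity))))

theorem low_max (C β : ℝ) (hC : 0 < C) (hβ0 : 0 < β) (h : β < 1 / 4) : Tendsto (fun M : ℕ =>
    PP (Fin (2 * M - 1)) (EuclideanSpace ℝ (Fin M))
      {A | om A ≤ C * (⨆ k, ‖A k‖) * β ^ M}) atTop (𝓝 0) := by
  apply tend_zero
  intro η hη
  have hgeo : ∀ᶠ M : ℕ in atTop, (M : ℝ) ^ 2 * (4 * β) ^ M ≤ η / (6 * C) := by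
    have h1 := tendsto_pow_const_mul_const_pow_of_abs_lt_one 2
      (show |4 * β| < 1 by rw [abs_of_pos (by linarith)]; linarith)
    exact h1.eventually_le_const (by positivity)
  filter_upwards [geo_ev (η / 2) (by positivity), hgeo, eventually_ge_atTop 1] with M h1 h2 hM
  have hM0 : (0 : ℝ) < M := by exact_mod_cast hM
  have hs : Real.sqrt M * Real.sqrt M = M := Real.mul_self_sqrt hM0.le
  have hs0 : 0 < Real.sqrt M := Real.sqrt_pos.2 hM0
  have : Nonempty (Fin (2 * M - 1)) := ⟨⟨0, by omega⟩⟩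
  have hcard : Fintype.card (Fin (2 * M - 1)) + 1 = 2 * M := by
    rw [Fintype.card_fin]
    omega
  set δ : ℝ := 3 * C * M * β ^ M with hδ
  have hδ0 : 0 < δ := by positivity
  have hsub : {A : Fin (2 * M - 1) → EuclideanSpace ℝ (Fin M) |
      om A ≤ C * (⨆ k, ‖A k‖) * β ^ M} ⊆ {A | ∃ j, 4 * (M : ℝ) ≤ ‖A j‖ ^ 2} ∪
      {A | om A < δ / Real.sqrt M} := by
    intro A hA
    by_contra hcon
    simp only [Set.mem_union, Set.mem_ofPred_eq, not_or, not_exists, not_lt, not_le] at hcon hA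
    obtain ⟨h3, h4⟩ := hcon
    have h5 : (⨆ k, ‖A k‖) ≤ 2 * Real.sqrt M := by
      apply ciSup_le
      intro k
      have h6 := h3 k
      have h7 : 0 ≤ ‖A k‖ := norm_nonneg _
      nlinarith
    have h6 : C * (⨆ k, ‖A k‖) * β ^ M ≤ C * (2 * Real.sqrt M) * β ^ M :=
      mul_le_mul_of_nonneg_right (mul_le_mul_of_nonneg_left h5 hC.le) (by positivity)
    have h7 : δ / Real.sqrt M = 3 * C * Real.sqrt M * β ^ M := by
      rw [div_eq_iff hs0.ne', hδ, ← hs]
      rw [hs]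
      calc 3 * C * M * β ^ M = 3 * C * (Real.sqrt M * Real.sqrt M) * β ^ M := by rw [hs]
        _ = _ := by ring
    rw [h7] at h4
    have h8 : 0 < C * Real.sqrt M * β ^ M := by positivity
    nlinarith
  refine (measure_mono hsub).trans ((measure_union_le _ _).trans ?_)
  refine (add_le_add (norms_ev M) (low_bound M hM hcard δ hδ0)).trans ?_
  rw [← ENNReal.ofReal_add (by positivity) (by positivity)]
  apply ENNReal.ofReal_le_ofReal
  have h3 : (Fintype.card (Fin (2 * M - 1)) : ℝ) ≤ 2 * M := by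
    have : Fintype.card (Fin (2 * M - 1)) ≤ 2 * M := by omega
    exact_mod_cast this
  have h4 := mul_le_mul_of_nonneg_right h3 (show (0 : ℝ) ≤ (3 / 5) ^ M by positivity)
  have h5 : (4 : ℝ) ^ M * (M * δ) = 3 * C * ((M : ℝ) ^ 2 * (4 * β) ^ M) := by
    rw [hδ, mul_pow]
    ring
  have h6 : 3 * C * ((M : ℝ) ^ 2 * (4 * β) ^ M) ≤ η / 2 := by
    calc _ ≤ 3 * C * (η / (6 * C)) := mul_le_mul_of_nonneg_left h2 (by positivity)
      _ = η / 2 := by
        field_simp
        norm_num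
  rw [h5]
  linarith

theorem low_core (M : ℕ) (hM : 1 ≤ M) (δ : ℝ) (hδ : 0 < δ) :
    PP (Fin (2 * M - 1)) (EuclideanSpace ℝ (Fin M))
      {A | om A < δ * (1 / 4) ^ M / (M * Real.sqrt M)} ≤ ENNReal.ofReal δ := by
  have hM0 : (0 : ℝ) < M := by exact_mod_cast hM
  have hcard : Fintype.card (Fin (2 * M - 1)) + 1 = 2 * M := by
    rw [Fintype.card_fin]
    omega
  have h1 := low_bound (ι := Fin (2 * M - 1)) M hM hcard (δ * (1 / 4) ^ M / M) (by positivity)
  have h2 : (4 : ℝ) ^ M * (M * (δ * (1 / 4) ^ M / M)) = δ := by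
    have h3 : (1 / 4 : ℝ) ^ M * 4 ^ M = 1 := by
      rw [← mul_pow]
      norm_num
    calc (4 : ℝ) ^ M * (M * (δ * (1 / 4) ^ M / M)) = (M / M) * δ * ((1 / 4 : ℝ) ^ M * 4 ^ M) := by
          ring
      _ = δ := by
          rw [h3, div_self hM0.ne', one_mul, mul_one]
  rw [h2] at h1
  rw [← div_div]
  exact h1

/-- from small outer measure of the bad event to convergence of the good event to one -/
theorem tend_one (μ : (M : ℕ) → Measure (Fin (2 * M - 1) → EuclideanSpace ℝ (Fin M)))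
    (hμ : ∀ M, μ M Set.univ = 1)
    (B : (M : ℕ) → Set (Fin (2 * M - 1) → EuclideanSpace ℝ (Fin M)))
    (h : Tendsto (fun M => μ M (B M)ᶜ) atTop (𝓝 0)) :
    Tendsto (fun M => μ M (B M)) atTop (𝓝 1) := by
  have h1 : Tendsto (fun M => 1 - μ M (B M)ᶜ) atTop (𝓝 (1 - 0)) :=
    ENNReal.Tendsto.sub tendsto_const_nhds h (Or.inl ENNReal.one_ne_top)
  rw [tsub_zero] at h1
  refine tendsto_of_tendsto_of_tendsto_of_le_of_le h1 tendsto_const_nhds ?_ ?_
  · intro M
    rw [tsub_le_iff_right, ← hμ M, ← Set.union_compl_self (B M)]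
    exact measure_union_le _ _
  · intro M
    show μ M (B M) ≤ 1
    rw [← hμ M]
    exact measure_mono (Set.subset_univ _)

end Pool.Agent.X88.PR
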