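import Pool.Agent.X88.PR.Core3

set_option autoImplicit false
set_option linter.unusedSectionVars false

/-!
Smallest singular value of a square Gaussian matrix: the bound with the right power.
-/

open MeasureTheory ProbabilityTheory Filter Topology
open scoped ENNReal RealInnerProductSpace NNReal

namespace Pool.Agent.X88.PR

variable {ι : Type} [Fintype ι] [DecidableEq ι]
variable {E : Type} [NormedAddCommGroup E] [InnerProductSpace ℝ E] [FiniteDimensional ℝ E]
  [MeasurableSpace E] [BorelSpace E]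

/-- replace the component in direction `z` -/
def fz (z : E) (p : E × ℝ) : E := p.1 - ⟪z, p.1⟫ • z + p.2 • z

theorem fz_cont (z : E) : Continuous (fz z) := by
  unfold fz
  fun_prop

theorem fz_law (z : E) (hz : ‖z‖ = 1) :
    ((stdGaussian E).prod (gaussianReal 0 1)).map (fz z) = stdGaussian E := by
  have hm : Measurable (fz z) := (fz_cont z).measurable
  apply Measure.ext_of_charFun
  ext t
  rw [charFun_apply, integral_map hm.aemeasurable (by fun_prop)]
  have h1 : ∀ p : E × ℝ, Complex.exp ((⟪fz z p, t⟫ : ℝ) * Complex.I) =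
      Complex.exp ((⟪p.1, t - ⟪z, t⟫ • z⟫ : ℝ) * Complex.I) *
        Complex.exp (((⟪z, t⟫ : ℝ) : ℂ) * (p.2 : ℝ) * Complex.I) := by
    intro p
    rw [← Complex.exp_add]
    congr 1
    have h2 : ⟪fz z p, t⟫ = ⟪p.1, t - ⟪z, t⟫ • z⟫ + ⟪z, t⟫ * p.2 := by
      unfold fz
      rw [inner_add_left, inner_sub_left, inner_sub_right, real_inner_smul_left,
        real_inner_smul_left, real_inner_smul_right, real_inner_comm p.1 z]
      ring
    rw [h2]
    push_cast
    ring
  simp only [h1]
  rw [integral_prod_mul (fun a : E => Complex.exp ((⟪a, t - ⟪z, t⟫ • z⟫ : ℝ) * Complex.I))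
    (fun s : ℝ => Complex.exp (((⟪z, t⟫ : ℝ) : ℂ) * (s : ℝ) * Complex.I)),
    ← charFun_apply, ← charFun_apply_real, charFun_stdGaussian, charFun_gaussianReal,
    charFun_stdGaussian, ← Complex.exp_add]
  congr 1
  have h2 : ‖t - ⟪z, t⟫ • z‖ ^ 2 = ‖t‖ ^ 2 - ⟪z, t⟫ ^ 2 := by
    rw [← real_inner_self_eq_norm_sq, inner_sub_left, inner_sub_right, inner_sub_right,
      real_inner_smul_left, real_inner_smul_right, real_inner_smul_left, real_inner_smul_right,
      real_inner_self_eq_norm_sq, real_inner_self_eq_norm_sq, hz, real_inner_comm z t]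
    ring
  rw [← Complex.ofReal_pow, h2]
  push_cast
  ring

theorem fz_pi (z : E) (hz : ‖z‖ = 1) : MeasurePreserving
    (fun p : (ι → E) × (ι → ℝ) => fun i => fz z (p.1 i, p.2 i))
    ((PP ι E).prod (Measure.pi fun _ : ι => gaussianReal 0 1)) (PP ι E) := by
  have h1 : MeasurePreserving (fz z) ((stdGaussian E).prod (gaussianReal 0 1)) (stdGaussian E) :=
    ⟨(fz_cont z).measurable, fz_law z hz⟩
  have h2 := measurePreserving_pi (fun _ : ι => (stdGaussian E).prod (gaussianReal 0 1))
    (fun _ => stdGaussian E) (fun _ => h1)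
  have h3 := (measurePreserving_arrowProdEquivProdArrow E ℝ ι (fun _ => stdGaussian E)
    (fun _ => gaussianReal 0 1)).symm
  exact h2.comp h3

/-- a unit relation -/
theorem sum_law (n : ι → ℝ) (hn : ∑ i, n i ^ 2 = 1) (ε : ℝ) (hε : 0 ≤ ε) :
    (Measure.pi fun _ : ι => gaussianReal 0 1) {g | |∑ i, n i * g i| ≤ ε} ≤
      ENNReal.ofReal ε := by
  have h1 : Measurable (WithLp.toLp 2 : (ι → ℝ) → EuclideanSpace ℝ ι) :=
    (PiLp.continuous_toLp 2 _).measurable
  set u : EuclideanSpace ℝ ι := WithLp.toLp 2 n with hu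
  have hun : ‖u‖ = 1 := by
    rw [EuclideanSpace.norm_eq, hu]
    simp only [Real.norm_eq_abs, sq_abs]
    rw [hn, Real.sqrt_one]
  have h2 := form_le u hun 0 ε hε
  have hms : MeasurableSet {x : EuclideanSpace ℝ ι | |⟪u, x⟫ - 0| ≤ ε} :=
    measurableSet_le ((inner_meas u).sub measurable_const).abs measurable_const
  rw [measureReal_def, ← map_pi_eq_stdGaussian, Measure.map_apply h1 hms] at h2
  have h3 : (WithLp.toLp 2 : (ι → ℝ) → EuclideanSpace ℝ ι) ⁻¹' {x | |⟪u, x⟫ - 0| ≤ ε} =
      {g | |∑ i, n i * g i| ≤ ε} := by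
    ext g
    simp only [Set.mem_preimage, Set.mem_ofPred_eq, sub_zero]
    have h4 : ⟪u, (WithLp.toLp 2 g : EuclideanSpace ℝ ι)⟫ = ∑ i, n i * g i := by
      rw [hu, PiLp.inner_apply]
      refine Finset.sum_congr rfl fun i _ => ?_
      simp [mul_comm]
    rw [h4]
  rw [h3] at h2
  rw [← ENNReal.ofReal_toReal (measure_ne_top (Measure.pi fun _ : ι => gaussianReal 0 1) _)]
  exact ENNReal.ofReal_le_ofReal h2

end Pool.Agent.X88.PR
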