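import Pool.Agent.X88.PR.Prob

set_option autoImplicit false
set_option linter.unusedSectionVars false

/-!
The second moment argument for one additional row.
-/

open MeasureTheory ProbabilityTheory
open scoped ENNReal RealInnerProductSpace NNReal

namespace Pool.Agent.X88.PR

variable {ι : Type*} [Fintype ι] [DecidableEq ι]
variable {E : Type*} [NormedAddCommGroup E] [InnerProductSpace ℝ E] [FiniteDimensional ℝ E]
  [MeasurableSpace E] [BorelSpace E]

/-- second moment inequality -/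
theorem second_moment {Ω : Type*} [MeasurableSpace Ω] (μ : Measure Ω) [IsProbabilityMeasure μ]
    {κ : Type*} (s : Finset κ) (B : κ → Set Ω) (hB : ∀ i, MeasurableSet (B i)) (m1 m2 : ℝ)
    (h1 : m1 ≤ ∑ i ∈ s, μ.real (B i)) (hm1 : 0 < m1)
    (h2 : ∑ i ∈ s, ∑ j ∈ s, μ.real (B i ∩ B j) ≤ m2) (hm2 : 0 < m2) :
    μ.real {x | ∀ i ∈ s, x ∉ B i} ≤ 1 - m1 ^ 2 / m2 := by
  set N : Ω → ℝ := fun x => ∑ i ∈ s, (B i).indicator (fun _ => (1 : ℝ)) x with hN
  have hi : ∀ i, Integrable ((B i).indicator (fun _ => (1 : ℝ))) μ := fun i =>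
    (integrable_const _).indicator (hB i)
  have hij : ∀ i j, Integrable ((B i ∩ B j).indicator (fun _ => (1 : ℝ))) μ := fun i j =>
    (integrable_const _).indicator ((hB i).inter (hB j))
  have hNi : Integrable N μ := integrable_finsetSum _ fun i _ => hi i
  have hN2 : ∀ x, N x ^ 2 = ∑ i ∈ s, ∑ j ∈ s, (B i ∩ B j).indicator (fun _ => (1 : ℝ)) x := by
    intro x
    rw [hN, sq]
    simp only
    rw [Finset.sum_mul_sum]
    refine Finset.sum_congr rfl fun i _ => Finset.sum_congr rfl fun j _ => ?_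
    by_cases hxi : x ∈ B i <;> by_cases hxj : x ∈ B j <;> simp [hxi, hxj]
  have hN2i : Integrable (fun x => N x ^ 2) μ := by
    simp only [hN2]
    exact integrable_finsetSum _ fun i _ => integrable_finsetSum _ fun j _ => hij i j
  have e1 : ∫ x, N x ∂μ = ∑ i ∈ s, μ.real (B i) := by
    rw [hN, integral_finsetSum _ fun i _ => hi i]
    refine Finset.sum_congr rfl fun i _ => ?_
    rw [integral_indicator (hB i), setIntegral_const, smul_eq_mul, mul_one]
  have e2 : ∫ x, N x ^ 2 ∂μ = ∑ i ∈ s, ∑ j ∈ s, μ.real (B i ∩ B j) := by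
    simp only [hN2]
    rw [integral_finsetSum _ fun i _ => integrable_finsetSum _ fun j _ => hij i j]
    refine Finset.sum_congr rfl fun i _ => ?_
    rw [integral_finsetSum _ fun j _ => hij i j]
    refine Finset.sum_congr rfl fun j _ => ?_
    rw [integral_indicator ((hB i).inter (hB j)), setIntegral_const, smul_eq_mul, mul_one]
  set t := m1 / m2 with ht
  have ht0 : 0 < t := by positivity
  have hZ : MeasurableSet {x | ∀ i ∈ s, x ∉ B i} := by
    have : {x | ∀ i ∈ s, x ∉ B i} = ⋂ i ∈ s, (B i)ᶜ := by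
      ext x
      simp
    rw [this]
    exact Finset.measurableSet_biInter _ fun i _ => (hB i).compl
  have hpt : ∀ x, ({x | ∀ i ∈ s, x ∉ B i}).indicator (fun _ => (1 : ℝ)) x ≤
      1 - 2 * t * N x + t ^ 2 * N x ^ 2 := by
    intro x
    by_cases hx : x ∈ {x | ∀ i ∈ s, x ∉ B i}
    · rw [Set.indicator_of_mem hx]
      have : N x = 0 := by
        rw [hN]
        exact Finset.sum_eq_zero fun i hi => Set.indicator_of_notMem (hx i hi) _
      rw [this]
      norm_num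
    · rw [Set.indicator_of_notMem hx]
      nlinarith [sq_nonneg (1 - t * N x)]
  have hI : Integrable (fun x => 1 - 2 * t * N x + t ^ 2 * N x ^ 2) μ :=
    ((integrable_const _).sub (hNi.const_mul _)).add (hN2i.const_mul _)
  have h3 := integral_mono ((integrable_const (1 : ℝ)).indicator hZ) hI hpt
  rw [integral_indicator hZ, setIntegral_const, smul_eq_mul, mul_one] at h3
  have h4 : ∫ x, (1 - 2 * t * N x + t ^ 2 * N x ^ 2) ∂μ =
      1 - 2 * t * ∑ i ∈ s, μ.real (B i) + t ^ 2 * ∑ i ∈ s, ∑ j ∈ s, μ.real (B i ∩ B j) := by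
    have hA1 : Integrable (fun x => 1 - 2 * t * N x) μ :=
      (integrable_const _).sub (hNi.const_mul _)
    have hA2 : Integrable (fun x => t ^ 2 * N x ^ 2) μ := hN2i.const_mul _
    have hA3 : Integrable (fun x => 2 * t * N x) μ := hNi.const_mul _
    rw [integral_add hA1 hA2, integral_sub (integrable_const _) hA3, integral_const_mul,
      integral_const_mul, e1, e2]
    simp
  rw [h4] at h3
  have h5 : 1 - 2 * t * ∑ i ∈ s, μ.real (B i) + t ^ 2 * ∑ i ∈ s, ∑ j ∈ s, μ.real (B i ∩ B j) ≤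
      1 - 2 * t * m1 + t ^ 2 * m2 := by
    have a1 := mul_le_mul_of_nonneg_left h1 (show 0 ≤ 2 * t by positivity)
    have a2 := mul_le_mul_of_nonneg_left h2 (show 0 ≤ t ^ 2 by positivity)
    linarith
  have h6 : 1 - 2 * t * m1 + t ^ 2 * m2 = 1 - m1 ^ 2 / m2 := by
    rw [ht]
    field_simp
    ring
  linarith

/-- two indices chosen in a set with at least two elements -/
theorem exists_two [Nonempty ι] (S T : Finset ι) : ∃ p : ι × ι, 2 ≤ (T \ S).card →
    p.1 ∈ T \ S ∧ p.2 ∈ T \ S ∧ p.1 ≠ p.2 := by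
  by_cases h : 2 ≤ (T \ S).card
  · obtain ⟨a, ha, b, hb, hab⟩ := Finset.one_lt_card.1 h
    exact ⟨(a, b), fun _ => ⟨ha, hb, hab⟩⟩
  · exact ⟨(Classical.arbitrary ι, Classical.arbitrary ι), fun h2 => absurd h2 h⟩

theorem hw_pos_eq (a : ℝ) (ha : 0 < a) : hw a = ENNReal.ofReal ((Real.sqrt a)⁻¹) := by
  unfold hw
  rw [← ENNReal.ofReal_inv_of_pos ha, ENNReal.ofReal_rpow_of_pos (inv_pos.2 ha),
    Real.inv_rpow ha.le, Real.sqrt_eq_rpow]

theorem hw_zero : hw 0 = ∞ := by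
  unfold hw
  simp

theorem hw_ne_zero (b : ℝ) : hw b ≠ 0 := by
  unfold hw
  intro h
  rw [ENNReal.rpow_eq_zero_iff] at h
  rcases h with ⟨h1, -⟩ | ⟨-, h2⟩
  · exact ENNReal.ofReal_ne_top (ENNReal.inv_eq_zero.1 h1)
  · norm_num at h2

omit [MeasurableSpace E] [BorelSpace E] [FiniteDimensional ℝ E] in
theorem sin_bound (u v a : E) (hu : ‖u‖ = 1) (hv : ‖v‖ = 1) (ha : ⟪v, a⟫ = 0) :
    |⟪u, a⟫| ≤ ‖a‖ * Real.sqrt (1 - ⟪u, v⟫ ^ 2) := by
  have h1 : ⟪u, a⟫ = ⟪u - ⟪u, v⟫ • v, a⟫ := by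
    rw [inner_sub_left, real_inner_smul_left, ha, mul_zero, sub_zero]
  have h2 : ‖u - ⟪u, v⟫ • v‖ = Real.sqrt (1 - ⟪u, v⟫ ^ 2) := by
    have h3 : ‖u - ⟪u, v⟫ • v‖ ^ 2 = 1 - ⟪u, v⟫ ^ 2 := by
      rw [← real_inner_self_eq_norm_sq, inner_sub_left, inner_sub_right, inner_sub_right,
        real_inner_smul_left, real_inner_smul_right, real_inner_smul_left, real_inner_smul_right,
        real_inner_self_eq_norm_sq, real_inner_self_eq_norm_sq, hu, hv, real_inner_comm u v]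
      ring
    rw [← h3, Real.sqrt_sq (norm_nonneg _)]
  rw [h1, mul_comm, ← h2]
  exact abs_real_inner_le_norm _ _

/-- weight of a pair -/
noncomputable def wt (jj : Finset ι → Finset ι → ι × ι) (A : ι → E) (S T : Finset ι) : ℝ≥0∞ :=
  if 2 ≤ (T \ S).card then hw (dq S A (A (jj S T).1)) * hw (dq S A (A (jj S T).2)) else 0

theorem one_row (A : ι → E) (F : Finset (Finset ι)) (hcard : ∀ S ∈ F, S.card + 1 = Module.finrank ℝ E)
    (hind : ∀ S ∈ F, ∀ s ∈ S, 0 < dq (S.erase s) A (A s)) (R : ℝ) (hR0 : 0 < R)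
    (hR : ∀ S ∈ F, ∀ j ∈ S, ‖A j‖ ≤ R) (jj : Finset ι → Finset ι → ι × ι)
    (hjj : ∀ S T, 2 ≤ (T \ S).card → (jj S T).1 ∈ T \ S ∧ (jj S T).2 ∈ T \ S ∧
      (jj S T).1 ≠ (jj S T).2) (Λ : ℝ) (hΛ : 0 ≤ Λ)
    (hW : ∑ S ∈ F, ∑ T ∈ F, wt jj A S T ≤ ENNReal.ofReal (Λ * (F.card : ℝ) ^ 2)) (D : ℝ)
    (hD : ∀ S ∈ F, (((F.filter fun T => ¬ 2 ≤ (T \ S).card).card : ℕ) : ℝ) ≤ D) (ε : ℝ)
    (hε0 : 0 < ε) (hε1 : ε ≤ 1) (hεD : D ≤ ε * F.card) (hF : 0 < F.card) :
    (stdGaussian E).real {x | ∀ S ∈ F, ε < dq S A x} ≤ 1 - 9 / 100 / (1 + R * Λ) := by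
  have hn : ∀ S : Finset ι, ∃ u : E, S ∈ F → ‖u‖ = 1 ∧ ∀ s ∈ S, ⟪u, A s⟫ = 0 := by
    intro S
    by_cases hS : S ∈ F
    · obtain ⟨u, hu⟩ := exists_normal S A (by have := hcard S hS; omega)
      exact ⟨u, fun _ => hu⟩
    · exact ⟨0, fun h => absurd h hS⟩
  choose u hu using hn
  set B : Finset ι → Set E := fun S => {x | |⟪u S, x⟫| ≤ ε} with hB
  have hBm : ∀ S, MeasurableSet (B S) := fun S =>
    measurableSet_le (inner_meas (u S)).abs measurable_const
  have hFr : (0 : ℝ) < F.card := by exact_mod_cast hF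
  have hRL : 0 ≤ R * Λ := by positivity
  have h1 : 3 / 10 * ε * F.card ≤ ∑ S ∈ F, (stdGaussian E).real (B S) := by
    calc 3 / 10 * ε * F.card = ∑ _S ∈ F, 3 / 10 * ε := by
          rw [Finset.sum_const, nsmul_eq_mul]; ring
      _ ≤ _ := Finset.sum_le_sum fun S hS => form_ge (u S) (hu S hS).1 ε hε0.le hε1
  have hone : ∀ S ∈ F, (stdGaussian E).real (B S) ≤ ε := by
    intro S hS
    have := form_le (u S) (hu S hS).1 0 ε hε0.le
    simpa using this
  have htop : ∑ S ∈ F, ∑ T ∈ F, wt jj A S T ≠ ∞ := ne_top_of_le_ne_top ENNReal.ofReal_ne_top hW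
  have hSt : ∀ S ∈ F, ∑ T ∈ F, wt jj A S T ≠ ∞ := fun S hS =>
    (ENNReal.sum_ne_top.1 htop) S hS
  have hST : ∀ S ∈ F, ∀ T ∈ F, wt jj A S T ≠ ∞ := fun S hS T hT =>
    (ENNReal.sum_ne_top.1 (hSt S hS)) T hT
  have hsumr : ∑ S ∈ F, ∑ T ∈ F, (wt jj A S T).toReal ≤ Λ * (F.card : ℝ) ^ 2 := by
    have e1 : ∑ S ∈ F, ∑ T ∈ F, (wt jj A S T).toReal =
        (∑ S ∈ F, ∑ T ∈ F, wt jj A S T).toReal := by
      rw [ENNReal.toReal_sum hSt]
      refine Finset.sum_congr rfl fun S hS => ?_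
      rw [ENNReal.toReal_sum (hST S hS)]
    rw [e1]
    exact ENNReal.toReal_le_of_le_ofReal (by positivity) hW
  have hfar : ∀ S ∈ F, ∀ T ∈ F, 2 ≤ (T \ S).card → (stdGaussian E).real (B S ∩ B T) ≤
      ε ^ 2 * R * (wt jj A S T).toReal := by
    intro S hS T hT hc
    have hfin := hST S hS T hT
    unfold wt at hfin ⊢
    rw [if_pos hc] at hfin ⊢
    obtain ⟨hj1, hj2, -⟩ := hjj S T hc
    rw [Finset.mem_sdiff] at hj1 hj2
    set j1 := (jj S T).1 with hj1def
    set j2 := (jj S T).2 with hj2def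
    have hi := indep_of_dq S A (hind S hS)
    have ea := dq_eq S A (hcard S hS) hi (u S) (hu S hS).1 (hu S hS).2 (A j1)
    have eb := dq_eq S A (hcard S hS) hi (u S) (hu S hS).1 (hu S hS).2 (A j2)
    set a := dq S A (A j1) with ha
    set b := dq S A (A j2) with hb
    have ha0 : 0 < a := by
      rcases eq_or_lt_of_le (dq_nonneg S A (A j1)) with h0 | h0
      · exfalso
        apply hfin
        rw [ha, ← h0, hw_zero]
        exact ENNReal.top_mul (hw_ne_zero _)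
      · exact h0
    have hb0 : 0 < b := by
      rcases eq_or_lt_of_le (dq_nonneg S A (A j2)) with h0 | h0
      · exfalso
        apply hfin
        rw [hb, ← h0, hw_zero]
        exact ENNReal.mul_top (hw_ne_zero _)
      · exact h0
    set s := Real.sqrt (1 - ⟪u S, u T⟫ ^ 2) with hs
    have has : a ≤ R * s := by
      rw [ea]
      refine (sin_bound (u S) (u T) (A j1) (hu S hS).1 (hu T hT).1 ((hu T hT).2 j1 hj1.1)).trans ?_
      exact mul_le_mul_of_nonneg_right (hR T hT j1 hj1.1) (Real.sqrt_nonneg _)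
    have hbs : b ≤ R * s := by
      rw [eb]
      refine (sin_bound (u S) (u T) (A j2) (hu S hS).1 (hu T hT).1 ((hu T hT).2 j2 hj2.1)).trans ?_
      exact mul_le_mul_of_nonneg_right (hR T hT j2 hj2.1) (Real.sqrt_nonneg _)
    have hs0 : 0 < s := by
      by_contra hcon
      have h3 : s = 0 := le_antisymm (not_lt.1 hcon) (Real.sqrt_nonneg _)
      rw [h3, mul_zero] at has
      linarith
    have h4 := two_le (u S) (u T) (hu S hS).1 (hu T hT).1 hs0 ε hε0.le
    have h5 : B S ∩ B T = {x | |⟪u S, x⟫| ≤ ε ∧ |⟪u T, x⟫| ≤ ε} := rfl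
    rw [h5]
    refine h4.trans ?_
    rw [hw_pos_eq a ha0, hw_pos_eq b hb0, ← ENNReal.ofReal_mul (by positivity),
      ENNReal.toReal_ofReal (by positivity)]
    have h6 : Real.sqrt a * Real.sqrt b ≤ R * s := by
      have h7 : Real.sqrt a ≤ Real.sqrt (R * s) := Real.sqrt_le_sqrt has
      have h8 : Real.sqrt b ≤ Real.sqrt (R * s) := Real.sqrt_le_sqrt hbs
      calc Real.sqrt a * Real.sqrt b ≤ Real.sqrt (R * s) * Real.sqrt (R * s) :=
            mul_le_mul h7 h8 (Real.sqrt_nonneg _) (Real.sqrt_nonneg _)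
        _ = R * s := Real.mul_self_sqrt (by positivity)
    have hsa : 0 < Real.sqrt a := Real.sqrt_pos.2 ha0
    have hsb : 0 < Real.sqrt b := Real.sqrt_pos.2 hb0
    have h9 : 1 / s ≤ R * ((Real.sqrt a)⁻¹ * (Real.sqrt b)⁻¹) := by
      rw [← mul_inv, ← div_eq_mul_inv, div_le_div_iff₀ hs0 (by positivity)]
      linarith
    have h10 := mul_le_mul_of_nonneg_left h9 (show 0 ≤ ε ^ 2 by positivity)
    calc ε * (ε / s) = ε ^ 2 * (1 / s) := by ring
      _ ≤ ε ^ 2 * (R * ((Real.sqrt a)⁻¹ * (Real.sqrt b)⁻¹)) := h10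
      _ = _ := by ring
  have h2 : ∑ S ∈ F, ∑ T ∈ F, (stdGaussian E).real (B S ∩ B T) ≤
      (1 + R * Λ) * (ε * F.card) ^ 2 := by
    have h3 : ∀ S ∈ F, ∑ T ∈ F, (stdGaussian E).real (B S ∩ B T) ≤
        ε * D + ε ^ 2 * R * ∑ T ∈ F, (wt jj A S T).toReal := by
      intro S hS
      have h4 : ∀ T ∈ F, (stdGaussian E).real (B S ∩ B T) ≤
          (if ¬ 2 ≤ (T \ S).card then ε else 0) + ε ^ 2 * R * (wt jj A S T).toReal := by
        intro T hT
        by_cases hc : 2 ≤ (T \ S).card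
        · rw [if_neg (not_not.2 hc), zero_add]
          exact hfar S hS T hT hc
        · rw [if_pos hc]
          have h5 : (stdGaussian E).real (B S ∩ B T) ≤ ε :=
            (measureReal_mono Set.inter_subset_left).trans (hone S hS)
          have h6 : 0 ≤ ε ^ 2 * R * (wt jj A S T).toReal := by positivity
          linarith
      refine (Finset.sum_le_sum h4).trans ?_
      rw [Finset.sum_add_distrib, ← Finset.mul_sum, ← Finset.sum_filter, Finset.sum_const,
        nsmul_eq_mul]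
      have h7 := mul_le_mul_of_nonneg_right (hD S hS) hε0.le
      linarith
    refine (Finset.sum_le_sum h3).trans ?_
    have h7 : ∑ S ∈ F, (ε * D + ε ^ 2 * R * ∑ T ∈ F, (wt jj A S T).toReal) =
        F.card * (ε * D) + ε ^ 2 * R * ∑ S ∈ F, ∑ T ∈ F, (wt jj A S T).toReal := by
      rw [Finset.sum_add_distrib, Finset.sum_const, nsmul_eq_mul, Finset.mul_sum]
    rw [h7]
    have h8 := mul_le_mul_of_nonneg_left hsumr (show 0 ≤ ε ^ 2 * R by positivity)
    have h9 : (F.card : ℝ) * (ε * D) ≤ (ε * F.card) ^ 2 := by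
      have := mul_le_mul_of_nonneg_left hεD (show 0 ≤ (F.card : ℝ) * ε by positivity)
      nlinarith
    have h10 : ε ^ 2 * R * (Λ * (F.card : ℝ) ^ 2) = R * Λ * (ε * F.card) ^ 2 := by ring
    linarith
  have h11 := second_moment (stdGaussian E) F B hBm (3 / 10 * ε * F.card)
    ((1 + R * Λ) * (ε * F.card) ^ 2) h1 (by positivity) h2 (by positivity)
  have h12 : {x : E | ∀ S ∈ F, ε < dq S A x} ⊆ {x | ∀ S ∈ F, x ∉ B S} := by
    intro x hx S hS hxB
    have h13 := hx S hS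
    rw [dq_eq S A (hcard S hS) (indep_of_dq S A (hind S hS)) (u S) (hu S hS).1 (hu S hS).2 x] at h13
    exact absurd hxB (not_le.2 h13)
  refine (measureReal_mono h12).trans (h11.trans (le_of_eq ?_))
  have h14 : ε * (F.card : ℝ) ≠ 0 := by positivity
  have h15 : 1 + R * Λ ≠ 0 := by positivity
  field_simp
  ring

end Pool.Agent.X88.PR
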