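import Pool.Agent.X88.PR.Rot

set_option autoImplicit false
set_option linter.unusedSectionVars false

/-!
Smallest singular value of a square Gaussian matrix, continued.
-/

open MeasureTheory ProbabilityTheory Filter Topology
open scoped ENNReal RealInnerProductSpace NNReal

namespace Pool.Agent.X88.PR

variable {ι : Type} [Fintype ι] [DecidableEq ι]
variable {E : Type} [NormedAddCommGroup E] [InnerProductSpace ℝ E] [FiniteDimensional ℝ E]
  [MeasurableSpace E] [BorelSpace E]

theorem exists_rel (T : Finset ι) (hT : T.card = Module.finrank ℝ E) (z : E) (hz : ‖z‖ = 1)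
    (X : ι → E) : ∃ c : ι → ℝ, ∑ i ∈ T, c i • (X i - ⟪z, X i⟫ • z) = 0 ∧ ∃ i ∈ T, c i ≠ 0 := by
  by_contra hcon
  have hli : LinearIndepOn ℝ (fun i => X i - ⟪z, X i⟫ • z) (T : Set ι) := by
    rw [linearIndepOn_finset_iff]
    intro f hf i hi
    by_contra hne
    exact hcon ⟨f, hf, i, hi, hne⟩
  have hli' : LinearIndependent ℝ (fun t : T => X t - ⟪z, X t⟫ • z) := hli
  have h1 := finrank_span_eq_card hli'
  have h2 : Submodule.span ℝ (Set.range fun t : T => X t - ⟪z, X t⟫ • z) ≤ (ℝ ∙ z)ᗮ := by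
    rw [Submodule.span_le]
    rintro _ ⟨s, rfl⟩
    rw [SetLike.mem_coe, Submodule.mem_orthogonal_singleton_iff_inner_right, inner_sub_right,
      real_inner_smul_right, real_inner_self_eq_norm_sq, hz]
    ring
  have hz0 : z ≠ 0 := by
    intro h0
    rw [h0, norm_zero] at hz
    norm_num at hz
  have h4 := Submodule.finrank_add_finrank_orthogonal (ℝ ∙ z)
  rw [finrank_span_singleton hz0] at h4
  have h5 := Submodule.finrank_mono h2
  rw [h1, Fintype.card_coe] at h5
  omega

theorem fix_z (T : Finset ι) (hT : T.card = Module.finrank ℝ E) (z : E) (hz : ‖z‖ = 1) (ε : ℝ)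
    (hε : 0 ≤ ε) :
    PP ι E {A | ∃ x : E, ∑ t ∈ T, ⟪A t, x⟫ ^ 2 < (ε * ⟪z, x⟫) ^ 2} ≤ ENNReal.ofReal ε := by
  set W : Set (ι → E) := {A | ∃ x : E, ∑ t ∈ T, ⟪A t, x⟫ ^ 2 < (ε * ⟪z, x⟫) ^ 2} with hW
  have hWm : MeasurableSet W := by
    have h1 : W = ⋃ x : E, {A : ι → E | ∑ t ∈ T, ⟪A t, x⟫ ^ 2 < (ε * ⟪z, x⟫) ^ 2} := by
      ext A
      simp [hW]
    rw [h1]
    apply IsOpen.measurableSet
    apply isOpen_iUnion
    intro x
    exact isOpen_lt (by fun_prop) continuous_const
  have hmp := fz_pi (ι := ι) z hz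
  rw [← hmp.measure_preimage hWm.nullMeasurableSet, Measure.prod_apply (hmp.measurable hWm)]
  calc _ ≤ ∫⁻ _X, ENNReal.ofReal ε ∂(PP ι E) := by
        refine lintegral_mono fun X => ?_
        obtain ⟨c, hc, t0, ht0, hct0⟩ := exists_rel T hT z hz X
        set N := Real.sqrt (∑ i ∈ T, c i ^ 2) with hN
        have hS0 : 0 < ∑ i ∈ T, c i ^ 2 :=
          Finset.sum_pos' (fun i _ => sq_nonneg _) ⟨t0, ht0, by positivity⟩
        have hN0 : 0 < N := Real.sqrt_pos.2 hS0
        have hN2 : N ^ 2 = ∑ i ∈ T, c i ^ 2 := Real.sq_sqrt hS0.le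
        set n : ι → ℝ := fun i => if i ∈ T then c i / N else 0 with hn
        have hT1 : ∑ i ∈ T, (c i / N) ^ 2 = 1 := by
          simp only [div_pow]
          rw [← Finset.sum_div, hN2, div_self hS0.ne']
        have hn1 : ∑ i, n i ^ 2 = 1 := by
          have h1 : ∀ i, n i ^ 2 = if i ∈ T then (c i / N) ^ 2 else 0 := by
            intro i
            simp only [hn]
            split_ifs <;> simp
          rw [Finset.sum_congr rfl fun i _ => h1 i, Finset.sum_ite_mem, Finset.univ_inter, hT1]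
        refine (measure_mono ?_).trans (sum_law n hn1 ε hε)
        rintro g ⟨x, hx⟩
        show |∑ i, n i * g i| ≤ ε
        have h2 : ∑ i, n i * g i = ∑ i ∈ T, c i / N * g i := by
          have h3 : ∀ i, n i * g i = if i ∈ T then c i / N * g i else 0 := by
            intro i
            simp only [hn]
            split_ifs <;> simp
          rw [Finset.sum_congr rfl fun i _ => h3 i, Finset.sum_ite_mem, Finset.univ_inter]
        rw [h2]
        set G := ∑ i ∈ T, c i / N * g i with hG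
        have h4 : ∀ i, ⟪fz z (X i, g i), x⟫ = ⟪X i - ⟪z, X i⟫ • z, x⟫ + g i * ⟪z, x⟫ := by
          intro i
          unfold fz
          rw [inner_add_left, real_inner_smul_left]
        have h5 : ∑ i ∈ T, (c i / N) * ⟪fz z (X i, g i), x⟫ = G * ⟪z, x⟫ := by
          simp only [h4, mul_add]
          rw [Finset.sum_add_distrib]
          have h6 : ∑ i ∈ T, c i / N * ⟪X i - ⟪z, X i⟫ • z, x⟫ = 0 := by
            have h7 : ∑ i ∈ T, c i / N * ⟪X i - ⟪z, X i⟫ • z, x⟫ =
                N⁻¹ * ⟪∑ i ∈ T, c i • (X i - ⟪z, X i⟫ • z), x⟫ := by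
              rw [sum_inner, Finset.mul_sum]
              refine Finset.sum_congr rfl fun i _ => ?_
              rw [real_inner_smul_left]
              ring
            rw [h7, hc, inner_zero_left, mul_zero]
          rw [h6, zero_add, hG, Finset.sum_mul]
          exact Finset.sum_congr rfl fun i _ => by ring
        have h6 := Finset.sum_mul_sq_le_sq_mul_sq T (fun i => c i / N)
          (fun i => ⟪fz z (X i, g i), x⟫)
        rw [h5, hT1, one_mul] at h6
        have h7 : (G * ⟪z, x⟫) ^ 2 < (ε * ⟪z, x⟫) ^ 2 := lt_of_le_of_lt h6 hx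
        have h8 : G ^ 2 < ε ^ 2 := by
          rw [mul_pow, mul_pow] at h7
          exact lt_of_mul_lt_mul_right h7 (sq_nonneg _)
        exact (abs_lt_of_sq_lt_sq h8 hε).le
    _ = ENNReal.ofReal ε := by rw [lintegral_const, measure_univ, mul_one]

theorem sq_mean (w : E) (hw1 : ‖w‖ = 1) :
    ∫⁻ x, ENNReal.ofReal (⟪w, x⟫ ^ 2) ∂(stdGaussian E) ≤ ENNReal.ofReal 6 := by
  have h1 : ∫⁻ x, ENNReal.ofReal (x ^ 2) ∂(gaussianReal 0 1) ≤ ENNReal.ofReal 6 := by
    calc ∫⁻ x, ENNReal.ofReal (x ^ 2) ∂(gaussianReal 0 1)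
        ≤ ∫⁻ x, ENNReal.ofReal (4 * Real.exp (x ^ 2 / 4)) ∂(gaussianReal 0 1) := by
          refine lintegral_mono fun x => ENNReal.ofReal_le_ofReal ?_
          have h2 := Real.add_one_le_exp (x ^ 2 / 4)
          linarith
      _ = ENNReal.ofReal (∫ x, 4 * Real.exp (x ^ 2 / 4) ∂(gaussianReal 0 1)) := by
          rw [ofReal_integral_eq_lintegral_ofReal (exp_sq.2.const_mul 4)
            (Filter.Eventually.of_forall fun x => by positivity)]
      _ ≤ _ := by
          apply ENNReal.ofReal_le_ofReal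
          rw [integral_const_mul]
          have := exp_sq.1
          linarith
  rw [← form_law w hw1, lintegral_map (f := fun x : ℝ => ENNReal.ofReal (x ^ 2))
    (by fun_prop) (inner_meas w)] at h1
  exact h1

theorem norm_mean (M : ℕ) (hM : 1 ≤ M) (hfr : Module.finrank ℝ E = M) :
    ∫⁻ x, ENNReal.ofReal ‖x‖ ∂(stdGaussian E) ≤ ENNReal.ofReal (7 / 2 * Real.sqrt M) := by
  have hM0 : (0 : ℝ) < M := by exact_mod_cast hM
  have hs0 : 0 < Real.sqrt M := Real.sqrt_pos.2 hM0
  have hs : Real.sqrt M * Real.sqrt M = M := Real.mul_self_sqrt hM0.le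
  set b := stdOrthonormalBasis ℝ E with hb
  have h1 : ∀ x : E, ENNReal.ofReal ‖x‖ ≤ ENNReal.ofReal (Real.sqrt M / 2) +
      ENNReal.ofReal (1 / (2 * Real.sqrt M)) * ∑ i, ENNReal.ofReal (⟪b i, x⟫ ^ 2) := by
    intro x
    rw [← ENNReal.ofReal_sum_of_nonneg fun i _ => sq_nonneg _, ← ENNReal.ofReal_mul (by positivity),
      ← ENNReal.ofReal_add (by positivity) (by positivity)]
    apply ENNReal.ofReal_le_ofReal
    have h2 : ∑ i, ⟪b i, x⟫ ^ 2 = ‖x‖ ^ 2 := by
      rw [← b.sum_sq_norm_inner_right x]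
      refine Finset.sum_congr rfl fun i _ => ?_
      rw [Real.norm_eq_abs, sq_abs]
    rw [h2, div_mul_eq_mul_div, one_mul, div_add_div _ _ (by norm_num) (by positivity),
      le_div_iff₀ (by positivity)]
    nlinarith [sq_nonneg (‖x‖ - Real.sqrt M)]
  refine (lintegral_mono h1).trans ?_
  have hm : ∀ i, Measurable fun x : E => ENNReal.ofReal (⟪b i, x⟫ ^ 2) := fun i =>
    ENNReal.measurable_ofReal.comp ((inner_meas (b i)).pow_const 2)
  rw [lintegral_add_left measurable_const, lintegral_const, measure_univ, mul_one,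
    lintegral_const_mul _ (Finset.measurable_sum _ fun i _ => hm i),
    lintegral_finsetSum _ fun i _ => hm i]
  have h3 : ∑ i, ∫⁻ x, ENNReal.ofReal (⟪b i, x⟫ ^ 2) ∂(stdGaussian E) ≤
      ENNReal.ofReal (6 * M) := by
    refine (Finset.sum_le_sum fun i _ => sq_mean (b i) (b.orthonormal.1 i)).trans ?_
    rw [Finset.sum_const, Finset.card_univ, Fintype.card_fin, hfr, nsmul_eq_mul,
      ← ENNReal.ofReal_natCast, ← ENNReal.ofReal_mul (Nat.cast_nonneg _)]
    apply ENNReal.ofReal_le_ofReal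
    linarith
  refine (add_le_add le_rfl (mul_le_mul' le_rfl h3)).trans ?_
  rw [← ENNReal.ofReal_mul (by positivity), ← ENNReal.ofReal_add (by positivity) (by positivity)]
  apply ENNReal.ofReal_le_ofReal
  have h4 : 1 / (2 * Real.sqrt M) * (6 * M) = 3 * Real.sqrt M := by
    rw [div_mul_eq_mul_div, div_eq_iff (by positivity)]
    nlinarith
  rw [h4]
  linarith

end Pool.Agent.X88.PR
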